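import Pool.Agent.Dcs.Defs

/-!
# Dcs, module Alg: an algebraic bound for the differences of power sums

`sg_id`: binomial theorem, `∑_r (n r - n1)^d - ∑_r (n' r - n1)^d = ∑_{j<d} C(d,j+1) (-n1)^(d-1-j) Sg n n' j` (the terms with
the power `0` cancel: both sums have `k` terms).
`sg_bound`: by `sg_id`, `h0` and the bounds, `C(d,i+1) |n1|^(d-1-i) |Sg i| ≤ 2 k H^d + ∑_{i<j<d} C(d,j+1) N^(d-1-j) N ≤
2 k H^d + 2^d N^(d-1-i)` (`N ≥ 1`), and `|n1|^(d-1-i) ≥ (N/2)^(d-1-i)`, `C(d,i+1) ≥ 1`, `2^(d-1-i) ≤ 2^d`.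
-/

set_option autoImplicit false

namespace Pool.Agent.Dcs

open MeasureTheory Finset Pool.Agent.Dcp
open scoped ENNReal

/-- the binomial theorem without the constant term -/
theorem sub_pow_split (d : ℕ) (x n1 : ℤ) :
    (x - n1) ^ d = ∑ j ∈ range d, (Nat.choose d (j + 1) : ℤ) * (-n1) ^ (d - 1 - j) * x ^ (j + 1) +
      (-n1) ^ d := by
  rw [sub_eq_add_neg, add_pow, Finset.sum_range_succ']
  congr 1
  · refine Finset.sum_congr rfl fun j _ => ?_
    rw [show d - (j + 1) = d - 1 - j by omega]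
    ring
  · simp

theorem sg_id {d k : ℕ} (hd : 1 ≤ d) (n n' : Fin k → ℤ) (n1 : ℤ) :
    ∑ r, (n r - n1) ^ d - ∑ r, (n' r - n1) ^ d =
      ∑ j ∈ range d, (Nat.choose d (j + 1) : ℤ) * (-n1) ^ (d - 1 - j) * Sg n n' j := by
  have _ := hd
  have key : ∀ m : Fin k → ℤ, ∑ r, (m r - n1) ^ d =
      ∑ j ∈ range d, (Nat.choose d (j + 1) : ℤ) * (-n1) ^ (d - 1 - j) * ∑ r, m r ^ (j + 1) +
        ∑ _r : Fin k, (-n1) ^ d := by
    intro m
    rw [Finset.sum_congr rfl fun r _ => sub_pow_split d (m r) n1, Finset.sum_add_distrib,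
      Finset.sum_comm]
    congr 1
    refine Finset.sum_congr rfl fun j _ => ?_
    rw [Finset.mul_sum]
  rw [key, key, add_sub_add_right_eq_sub, ← Finset.sum_sub_distrib]
  refine Finset.sum_congr rfl fun j _ => ?_
  rw [Sg, mul_sub]

theorem sg_bound {d k : ℕ} {i : ℕ} (hi : i < d) {N H : ℝ} (hN : 1 ≤ N) (hH : 0 ≤ H)
    (n n' : Fin k → ℤ) (n1 : ℤ) (h1 : N ≤ 2 * |(n1 : ℝ)|) (h1' : |(n1 : ℝ)| ≤ N)
    (hn : ∀ r, |((n r : ℝ) - n1)| ≤ H) (hn' : ∀ r, |((n' r : ℝ) - n1)| ≤ H)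
    (h0 : ∀ j < i, Sg n n' j = 0) (h2 : ∀ j, i < j → j < d → |(Sg n n' j : ℝ)| ≤ N) :
    |(Sg n n' i : ℝ)| ≤ 2 ^ d * (2 ^ d + 2 * k * (H ^ d / N ^ (d - 1 - i))) := by
  have _ := hH
  have hN0 : 0 < N := by linarith
  -- the identity over the reals
  have hid : ∑ r, ((n r : ℝ) - n1) ^ d - ∑ r, ((n' r : ℝ) - n1) ^ d =
      ∑ j ∈ range d, (Nat.choose d (j + 1) : ℝ) * (-(n1 : ℝ)) ^ (d - 1 - j) * (Sg n n' j : ℝ) := by
    have hd1 : 1 ≤ d := by omega
    have := congrArg (fun z : ℤ => (z : ℝ)) (sg_id hd1 n n' n1)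
    push_cast at this
    exact this
  -- the bound of the left side
  have hpow : ∀ m : Fin k → ℤ, (∀ r, |((m r : ℝ) - n1)| ≤ H) →
      |∑ r, ((m r : ℝ) - n1) ^ d| ≤ k * H ^ d := by
    intro m hm
    refine (Finset.abs_sum_le_sum_abs _ _).trans ?_
    calc ∑ r, |((m r : ℝ) - n1) ^ d| ≤ ∑ _r : Fin k, H ^ d := by
          refine Finset.sum_le_sum fun r _ => ?_
          rw [abs_pow]
          exact pow_le_pow_left₀ (abs_nonneg _) (hm r) d
      _ = k * H ^ d := by simp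
  have hL : |∑ r, ((n r : ℝ) - n1) ^ d - ∑ r, ((n' r : ℝ) - n1) ^ d| ≤ 2 * k * H ^ d := by
    have a := hpow n hn
    have b := hpow n' hn'
    have c := abs_sub (∑ r, ((n r : ℝ) - n1) ^ d) (∑ r, ((n' r : ℝ) - n1) ^ d)
    linarith
  -- isolate the term `i`
  have hsplit : (Nat.choose d (i + 1) : ℝ) * (-(n1 : ℝ)) ^ (d - 1 - i) * (Sg n n' i : ℝ) =
      (∑ r, ((n r : ℝ) - n1) ^ d - ∑ r, ((n' r : ℝ) - n1) ^ d) -
      ∑ j ∈ (range d).erase i,
        (Nat.choose d (j + 1) : ℝ) * (-(n1 : ℝ)) ^ (d - 1 - j) * (Sg n n' j : ℝ) := by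
    rw [hid, ← Finset.add_sum_erase _ _ (Finset.mem_range.2 hi)]
    ring
  have hrest : |∑ j ∈ (range d).erase i,
      (Nat.choose d (j + 1) : ℝ) * (-(n1 : ℝ)) ^ (d - 1 - j) * (Sg n n' j : ℝ)| ≤
      2 ^ d * N ^ (d - 1 - i) := by
    refine (Finset.abs_sum_le_sum_abs _ _).trans ?_
    calc ∑ j ∈ (range d).erase i,
          |(Nat.choose d (j + 1) : ℝ) * (-(n1 : ℝ)) ^ (d - 1 - j) * (Sg n n' j : ℝ)|
        ≤ ∑ j ∈ (range d).erase i, (Nat.choose d (j + 1) : ℝ) * N ^ (d - 1 - i) := by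
          refine Finset.sum_le_sum fun j hj => ?_
          rw [Finset.mem_erase, Finset.mem_range] at hj
          rw [abs_mul, abs_mul, abs_pow, abs_neg, Nat.abs_cast, mul_assoc]
          refine mul_le_mul_of_nonneg_left ?_ (Nat.cast_nonneg _)
          rcases lt_or_gt_of_ne hj.1 with h | h
          · rw [h0 j h]
            simp only [Int.cast_zero, abs_zero, mul_zero]
            positivity
          · calc |(n1 : ℝ)| ^ (d - 1 - j) * |(Sg n n' j : ℝ)| ≤ N ^ (d - 1 - j) * N :=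
                  mul_le_mul (pow_le_pow_left₀ (abs_nonneg _) h1' _) (h2 j h hj.2) (abs_nonneg _)
                    (by positivity)
              _ = N ^ (d - 1 - j + 1) := (pow_succ _ _).symm
              _ ≤ N ^ (d - 1 - i) := pow_le_pow_right₀ hN (by omega)
      _ ≤ ∑ j ∈ range d, (Nat.choose d (j + 1) : ℝ) * N ^ (d - 1 - i) :=
          Finset.sum_le_sum_of_subset_of_nonneg (Finset.erase_subset _ _)
            (fun j _ _ => by positivity)
      _ = (∑ j ∈ range d, (Nat.choose d (j + 1) : ℝ)) * N ^ (d - 1 - i) := by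
          rw [Finset.sum_mul]
      _ ≤ 2 ^ d * N ^ (d - 1 - i) := by
          refine mul_le_mul_of_nonneg_right ?_ (by positivity)
          have h := Nat.sum_range_choose d
          rw [Finset.sum_range_succ'] at h
          have h' : ∑ j ∈ range d, Nat.choose d (j + 1) ≤ 2 ^ d := by omega
          exact_mod_cast h'
  have hmain : (Nat.choose d (i + 1) : ℝ) * |(n1 : ℝ)| ^ (d - 1 - i) * |(Sg n n' i : ℝ)| ≤
      2 * k * H ^ d + 2 ^ d * N ^ (d - 1 - i) := by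
    have e : (Nat.choose d (i + 1) : ℝ) * |(n1 : ℝ)| ^ (d - 1 - i) * |(Sg n n' i : ℝ)| =
        |(Nat.choose d (i + 1) : ℝ) * (-(n1 : ℝ)) ^ (d - 1 - i) * (Sg n n' i : ℝ)| := by
      rw [abs_mul, abs_mul, abs_pow, abs_neg, Nat.abs_cast]
    rw [e, hsplit]
    exact (abs_sub _ _).trans (add_le_add hL hrest)
  have hch : (1 : ℝ) ≤ (Nat.choose d (i + 1) : ℝ) := by
    exact_mod_cast Nat.choose_pos (by omega : i + 1 ≤ d)
  have hmain2 : (N / 2) ^ (d - 1 - i) * |(Sg n n' i : ℝ)| ≤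
      2 * k * H ^ d + 2 ^ d * N ^ (d - 1 - i) := by
    refine le_trans ?_ hmain
    refine mul_le_mul_of_nonneg_right ?_ (abs_nonneg _)
    calc (N / 2) ^ (d - 1 - i) ≤ |(n1 : ℝ)| ^ (d - 1 - i) :=
          pow_le_pow_left₀ (by positivity) (by linarith) _
      _ = 1 * |(n1 : ℝ)| ^ (d - 1 - i) := (one_mul _).symm
      _ ≤ (Nat.choose d (i + 1) : ℝ) * |(n1 : ℝ)| ^ (d - 1 - i) :=
          mul_le_mul_of_nonneg_right hch (by positivity)
  have hNp : 0 < N ^ (d - 1 - i) := by positivity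
  have h2p : (2 : ℝ) ^ (d - 1 - i) ≤ 2 ^ d := pow_le_pow_right₀ (by norm_num) (by omega)
  have hfin : |(Sg n n' i : ℝ)| ≤
      2 ^ (d - 1 - i) * (2 ^ d + 2 * k * (H ^ d / N ^ (d - 1 - i))) := by
    rw [div_pow] at hmain2
    have h2pos : (0 : ℝ) < 2 ^ (d - 1 - i) := by positivity
    have e1 : |(Sg n n' i : ℝ)| = (2 ^ (d - 1 - i) / N ^ (d - 1 - i)) *
        (N ^ (d - 1 - i) / 2 ^ (d - 1 - i) * |(Sg n n' i : ℝ)|) := by
      field_simp
    rw [e1]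
    calc (2 ^ (d - 1 - i) / N ^ (d - 1 - i)) *
        (N ^ (d - 1 - i) / 2 ^ (d - 1 - i) * |(Sg n n' i : ℝ)|) ≤
        (2 ^ (d - 1 - i) / N ^ (d - 1 - i)) * (2 * k * H ^ d + 2 ^ d * N ^ (d - 1 - i)) :=
          mul_le_mul_of_nonneg_left hmain2 (by positivity)
      _ = 2 ^ (d - 1 - i) * (2 ^ d + 2 * k * (H ^ d / N ^ (d - 1 - i))) := by
          field_simp
          ring
  refine hfin.trans (mul_le_mul_of_nonneg_right h2p ?_)
  have : 0 ≤ H ^ d / N ^ (d - 1 - i) := by positivity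
  positivity

end Pool.Agent.Dcs
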