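import Pool.Agent.Dcs.Tri

/-!
# Dcs, module Bxs: boxes

`bx_vol`: `Real.volume_Ico`, `MeasureTheory.volume_pi_pi`.  `bx_half`: the box with sides `r` is the union of the `2^d` boxes with
corners `τ + δ r/2`, `δ ∈ {0,1}^d`, and sides `r/2`.
`FS_trans`: `ee (γ(n) ⬝ (x + τ)) = ee (γ(n) ⬝ τ) * ee (γ(n) ⬝ x)`; the factor has norm one.
`FS_per`: `n^(i+1) z_i` is an integer.
`bx_shift`: translation invariance, `∫⁻ x in bx τ r, g x = ∫⁻ x in bx 0 r, g (x + τ)`.
`lint_KF_le`: `cube d` is the disjoint union of the boxes with corners `(m_i / M_i)` and sides `1/M_i`, `m ∈ ∏ range (M i)`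
(`Fintype.piFinset`, `m_i = ⌊M_i x_i⌋`); on such a box `∏ KF (M i) (x i) ≤ ∏ q_i (m_i)` (`KF_up`); so the integral is at most
`∑_m ∏_i ofReal (q_i (m_i)) * A * ∏_i ofReal (1/M_i) = A ∏_i (∑_{m<M_i} q_i(m) / M_i) ≤ 16^d A` (`Finset.prod_univ_sum`).
-/

set_option autoImplicit false

namespace Pool.Agent.Dcs

open MeasureTheory Finset Pool.Agent.Dcp
open scoped ENNReal

theorem bx_meas {d : ℕ} (τ r : E d) : MeasurableSet (bx τ r) :=
  MeasurableSet.pi Set.countable_univ (fun _ _ => measurableSet_Ico)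

theorem bx_vol {d : ℕ} (τ r : E d) : volume (bx τ r) = ∏ i, ENNReal.ofReal (r i) := by
  unfold bx
  rw [Real.volume_pi_Ico]
  refine Finset.prod_congr rfl fun i _ => ?_
  rw [add_sub_cancel_left]

private theorem bxs_mem {d : ℕ} {τ r x : E d} :
    x ∈ bx τ r ↔ ∀ i, τ i ≤ x i ∧ x i < τ i + r i := by
  unfold bx
  rw [Set.mem_univ_pi]
  exact Iff.rfl

private theorem bxs_cover {α ι : Type*} [MeasurableSpace α] {μ : Measure α} (F : Finset ι)
    (B : ι → Set α) (S : Set α) (hS : ∀ x ∈ S, ∃ m ∈ F, x ∈ B m) (g : α → ℝ≥0∞) :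
    ∫⁻ x in S, g x ∂μ ≤ ∑ m ∈ F, ∫⁻ x in B m, g x ∂μ := by
  have h1 : S ⊆ ⋃ m : F, B m := by
    intro x hx
    obtain ⟨m, hm, hxm⟩ := hS x hx
    exact Set.mem_iUnion.2 ⟨⟨m, hm⟩, hxm⟩
  calc ∫⁻ x in S, g x ∂μ ≤ ∫⁻ x in ⋃ m : F, B m, g x ∂μ := lintegral_mono_set h1
    _ ≤ ∑' m : F, ∫⁻ x in B m, g x ∂μ := lintegral_iUnion_le _ _
    _ = ∑ m : F, ∫⁻ x in B m, g x ∂μ := tsum_fintype _
    _ = ∑ m ∈ F, ∫⁻ x in B m, g x ∂μ :=
        Finset.sum_coe_sort F (fun m => ∫⁻ x in B m, g x ∂μ)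

theorem bx_half {d : ℕ} (τ r : E d) (hr : ∀ i, 0 < r i) (g : E d → ℝ≥0∞) (A : ℝ≥0∞)
    (h : ∀ τ', ∫⁻ x in bx τ' (fun i => r i / 2), g x ≤ A) : ∫⁻ x in bx τ r, g x ≤ 2 ^ d * A := by
  classical
  have h1 := bxs_cover (μ := (volume : Measure (E d))) (Finset.univ : Finset (Fin d → Bool))
    (fun δ => bx (fun i => τ i + (if δ i = true then r i / 2 else 0)) (fun i => r i / 2))
    (bx τ r) (by
      intro x hx
      rw [bxs_mem] at hx
      refine ⟨fun i => decide (τ i + r i / 2 ≤ x i), Finset.mem_univ _, ?_⟩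
      rw [bxs_mem]
      intro i
      obtain ⟨h2, h3⟩ := hx i
      by_cases h4 : τ i + r i / 2 ≤ x i
      · rw [if_pos (decide_eq_true h4)]
        constructor <;> linarith
      · rw [if_neg (by rw [decide_eq_true_eq]; exact h4)]
        rw [not_le] at h4
        constructor <;> linarith) g
  refine h1.trans ?_
  refine (Finset.sum_le_sum fun δ _ => h _).trans ?_
  rw [Finset.sum_const, Finset.card_univ, nsmul_eq_mul]
  simp

theorem FS_trans {d : ℕ} (s : Finset ℤ) (a : ℤ → ℂ) (x τ : E d) :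
    FS d s a (x + τ) =
      FS d s (fun n => a n * ee (∑ i : Fin d, (n : ℝ) ^ (i.val + 1) * τ i)) x := by
  unfold FS
  refine Finset.sum_congr rfl fun n _ => ?_
  have h : ∑ i : Fin d, (n : ℝ) ^ (i.val + 1) * (x + τ) i =
      ∑ i : Fin d, (n : ℝ) ^ (i.val + 1) * τ i + ∑ i : Fin d, (n : ℝ) ^ (i.val + 1) * x i := by
    rw [← Finset.sum_add_distrib]
    refine Finset.sum_congr rfl fun i _ => ?_
    rw [Pi.add_apply]
    ring
  rw [h, ee_add]
  ring

private theorem bxs_ee_int (z : ℤ) : ee (z : ℝ) = 1 := by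
  unfold ee
  have h : (2 : ℂ) * Real.pi * ((z : ℝ) : ℂ) * Complex.I = z * (2 * Real.pi * Complex.I) := by
    push_cast
    ring
  rw [h]
  exact Complex.exp_int_mul_two_pi_mul_I z

theorem FS_per {d : ℕ} (s : Finset ℤ) (a : ℤ → ℂ) (x : E d) (z : Fin d → ℤ) :
    FS d s a (fun i => x i + z i) = FS d s a x := by
  unfold FS
  refine Finset.sum_congr rfl fun n _ => ?_
  have h : ∑ i : Fin d, (n : ℝ) ^ (i.val + 1) * (x i + z i) =
      ∑ i : Fin d, (n : ℝ) ^ (i.val + 1) * x i +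
        ((∑ i : Fin d, n ^ (i.val + 1) * z i : ℤ) : ℝ) := by
    push_cast
    rw [← Finset.sum_add_distrib]
    refine Finset.sum_congr rfl fun i _ => ?_
    ring
  rw [h, ee_add, bxs_ee_int, mul_one]

theorem bx_shift {d : ℕ} (τ r : E d) (g : E d → ℝ≥0∞) :
    ∫⁻ x in bx τ r, g x = ∫⁻ x in bx 0 r, g (x + τ) := by
  rw [← lintegral_indicator (bx_meas τ r), ← lintegral_indicator (bx_meas 0 r),
    ← lintegral_add_right_eq_self _ τ]
  refine lintegral_congr fun x => ?_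
  have h : (x + τ ∈ bx τ r) ↔ (x ∈ bx 0 r) := by
    rw [bxs_mem, bxs_mem]
    refine forall_congr' fun i => ?_
    rw [Pi.add_apply, Pi.zero_apply]
    constructor
    · rintro ⟨h1, h2⟩
      constructor <;> linarith
    · rintro ⟨h1, h2⟩
      constructor <;> linarith
  by_cases hx : x ∈ bx 0 r
  · rw [Set.indicator_of_mem (h.2 hx), Set.indicator_of_mem hx]
  · rw [Set.indicator_of_notMem (fun h1 => hx (h.1 h1)), Set.indicator_of_notMem hx]

theorem lint_KF_le {d : ℕ} (M : Fin d → ℕ) (hM : ∀ i, 1 ≤ M i) (g : E d → ℝ≥0∞) (A : ℝ≥0∞)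
    (h : ∀ τ, ∫⁻ x in bx τ (fun i => ((M i : ℝ))⁻¹), g x ≤ A * ∏ i, ENNReal.ofReal ((M i : ℝ)⁻¹)) :
    ∫⁻ x in cube d, g x * ∏ i, ENNReal.ofReal (KF (M i) (x i)) ≤ 16 ^ d * A := by
  classical
  choose q hq0 hqK hqs using fun i => KF_up (M i) (hM i)
  have hMp : ∀ i, (0 : ℝ) < M i := fun i => by exact_mod_cast hM i
  have h1 := bxs_cover (μ := (volume : Measure (E d)))
    (Fintype.piFinset (fun i : Fin d => range (M i)))
    (fun m => bx (fun i => (m i : ℝ) / M i) (fun i => ((M i : ℝ))⁻¹)) (cube d) (by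
      intro x hx
      unfold cube at hx
      rw [Set.mem_univ_pi] at hx
      refine ⟨fun i => ⌊(M i : ℝ) * x i⌋₊, ?_, ?_⟩
      · rw [Fintype.mem_piFinset]
        intro i
        rw [Finset.mem_range]
        obtain ⟨h2, h3⟩ := hx i
        rw [Nat.floor_lt (mul_nonneg (hMp i).le h2)]
        have h4 := mul_lt_mul_of_pos_left h3 (hMp i)
        rwa [mul_one] at h4
      · rw [bxs_mem]
        intro i
        obtain ⟨h2, h3⟩ := hx i
        have h4 := Nat.floor_le (mul_nonneg (hMp i).le h2)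
        have h5 := Nat.lt_floor_add_one ((M i : ℝ) * x i)
        constructor
        · rw [div_le_iff₀ (hMp i), mul_comm (x i)]
          exact h4
        · rw [inv_eq_one_div, ← add_div, lt_div_iff₀ (hMp i), mul_comm (x i)]
          exact h5) (fun x => g x * ∏ i, ENNReal.ofReal (KF (M i) (x i)))
  refine h1.trans ?_
  have h2 : ∀ m ∈ Fintype.piFinset (fun i : Fin d => range (M i)),
      ∫⁻ x in bx (fun i => (m i : ℝ) / M i) (fun i => ((M i : ℝ))⁻¹),
        g x * ∏ i, ENNReal.ofReal (KF (M i) (x i)) ≤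
      A * ∏ i, (ENNReal.ofReal (q i (m i)) * ENNReal.ofReal ((M i : ℝ)⁻¹)) := by
    intro m hm
    rw [Fintype.mem_piFinset] at hm
    have h3 : ∫⁻ x in bx (fun i => (m i : ℝ) / M i) (fun i => ((M i : ℝ))⁻¹),
        g x * ∏ i, ENNReal.ofReal (KF (M i) (x i)) ≤
        ∫⁻ x in bx (fun i => (m i : ℝ) / M i) (fun i => ((M i : ℝ))⁻¹),
          g x * ∏ i, ENNReal.ofReal (q i (m i)) := by
      refine setLIntegral_mono' (bx_meas _ _) ?_
      intro x hx
      rw [bxs_mem] at hx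
      refine mul_le_mul_right ?_ _
      refine Finset.prod_le_prod' fun i _ => ENNReal.ofReal_le_ofReal ?_
      obtain ⟨h4, h5⟩ := hx i
      refine hqK i (m i) (Finset.mem_range.1 (hm i)) (x i) h4 ?_
      rw [add_div, ← inv_eq_one_div]
      exact h5.le
    refine h3.trans ?_
    rw [lintegral_mul_const' _ _ (by
      exact ENNReal.prod_ne_top fun i _ => ENNReal.ofReal_ne_top)]
    refine (mul_le_mul_left (h _) _).trans ?_
    rw [Finset.prod_mul_distrib, mul_assoc, mul_comm (∏ i, ENNReal.ofReal ((M i : ℝ)⁻¹))]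
  refine (Finset.sum_le_sum h2).trans ?_
  rw [← Finset.mul_sum, mul_comm]
  refine mul_le_mul_left ?_ _
  have h3 := Finset.prod_univ_sum (fun i : Fin d => range (M i))
    (fun i m => ENNReal.ofReal (q i m) * ENNReal.ofReal ((M i : ℝ)⁻¹))
  rw [← h3]
  have h4 : ∀ i ∈ (Finset.univ : Finset (Fin d)),
      ∑ m ∈ range (M i), ENNReal.ofReal (q i m) * ENNReal.ofReal ((M i : ℝ)⁻¹) ≤ 16 := by
    intro i _
    rw [← Finset.sum_mul, ← ENNReal.ofReal_sum_of_nonneg (fun m _ => hq0 i m),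
      ← ENNReal.ofReal_mul (Finset.sum_nonneg fun m _ => hq0 i m)]
    have h5 : (∑ m ∈ range (M i), q i m) * ((M i : ℝ))⁻¹ ≤ 16 := by
      rw [← div_eq_mul_inv, div_le_iff₀ (hMp i)]
      exact hqs i
    refine (ENNReal.ofReal_le_ofReal h5).trans ?_
    norm_num
  refine (Finset.prod_le_prod' h4).trans ?_
  rw [Finset.prod_const, Finset.card_univ, Fintype.card_fin]

end Pool.Agent.Dcs
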