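import Pool.Agent.Dcs.Cnt
import Pool.Agent.Dcs.Alg

/-!
# Dcs, module Chn: passing from boxes of side 1/N to larger boxes (positivity)

Write `d = l + 1`, `N = 2^(l² μ)`, `H = 2^((l²-t) μ)`, `e i = ex l t i`, `M i = 2^(μ e i)` (so `1 ≤ M i ≤ N`).
`tri_cover`: for `1 ≤ M`, `|S| ≤ B M`: with `s = max 1 (M/2)` (natural division), `u` the integer nearest to `S/s`, `|S - u s| ≤ s/2`;
for `M = 1` it is `0`, for `M ≥ 2` it is at most `M/4`; so `tri M (S - u s) ≥ 3/4`, and `|u| ≤ |S|/s + 1 ≤ 3B + 1`.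
Hence `1 ≤ (4/3) ∑_{|u| ≤ 3B+1} tri M (S - u s)` (`B : ℕ`).

`vv_chain`: let `M^(r) i = M i` for `i < r`, `N` for `i ≥ r`; `M^(0) = N`, `M^(d) = M`.  Claim `VV(M^(r)) ≤ C VV(M^(r+1))`, `r < d`.
If `r l² > (l+1) t` then `(r+1) l² - (l+1) t > l²`, `M r = N`, `M^(r) = M^(r+1)`.
If `r l² ≤ (l+1) t`: for `i < r`, `(i+1) l² ≤ (l+1) t`, so `e i = 0`, `M i = 1`.  Consider `n, n'` with all `b (n r), b (n' r) ≠ 0` and
`tri (M^(r) i) (Sg i) ≠ 0` for all `i ≠ r`: `Sg i = 0` for `i < r` (`tri 1 h = 0` for integers `h ≠ 0`), `|Sg i| ≤ N` for `i > r`.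
If `k ≥ 1` take `n1 = n 0` (for `k = 0`: all sums are `0`, `Sg = 0`, trivial); `sg_bound` gives
`|Sg r| ≤ 2^d (2^d + 2k H^d/N^(d-1-r))` and `H^d / N^(d-1-r) = 2^(μ ((l²-t)(l+1) - l² (l - r))) = 2^(μ ((r+1) l² - (l+1) t))`
(an integer exponent which may be negative) `≤ 2^(μ ((r+1) l² - (l+1) t)_+)`, and `(r+1) l² - (l+1) t ≤ l²`, so this is `M r`.
So `|Sg r| ≤ B M r` with `B = 2^d (2^d + 2k)`.  Then `tri N (Sg r) ≤ 1 ≤ (4/3) ∑_u tri (M r) (Sg r - u s)`, so the summand of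
`VV(M^(r))` is at most `(4/3) ∑_u` of the summand of `VV(M^(r+1)) (h = u s e_r)`; sum and use `vv_shift`:
`VV(M^(r)) ≤ (4/3) (6B+3) VV(M^(r+1))`.
(The hypotheses on `b` are only used for `n ∈ s` with `b n ≠ 0`.)
-/

set_option linter.all false

namespace Pool.Agent.Dcs

open MeasureTheory Finset Pool.Agent.Dcp
open scoped ENNReal

private theorem chn_tri_nonneg (M : ℕ) (h : ℤ) : 0 ≤ tri M h := le_max_left _ _

private theorem chn_tri_le_one (M : ℕ) (h : ℤ) : tri M h ≤ 1 := by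
  unfold tri
  refine max_le zero_le_one ?_
  have : 0 ≤ |(h : ℝ)| / M := by positivity
  linarith

private theorem chn_tri_ne {M : ℕ} (hM : 1 ≤ M) {h : ℤ} (hne : tri M h ≠ 0) : |(h : ℝ)| < M := by
  by_contra hc
  rw [not_lt] at hc
  apply hne
  have hM0 : (0 : ℝ) < M := by exact_mod_cast hM
  unfold tri
  refine max_eq_left ?_
  have : 1 ≤ |(h : ℝ)| / M := by rwa [le_div_iff₀ hM0, one_mul]
  linarith

theorem tri_cover (B : ℕ) {M : ℕ} (hM : 1 ≤ M) (S : ℤ) (hS : |(S : ℝ)| ≤ B * M) :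
    1 ≤ (4 / 3 : ℝ) * ∑ u ∈ Icc (-(3 * B + 1 : ℤ)) (3 * B + 1),
      tri M (S - u * (max 1 (M / 2) : ℕ)) := by
  generalize hs : (max 1 (M / 2) : ℕ) = s
  have hs1 : 1 ≤ s := by omega
  have hsM : M ≤ 3 * s := by omega
  have hcase : (s = 1 ∧ M = 1) ∨ 2 * s ≤ M := by omega
  have hs0 : (0 : ℝ) < s := by exact_mod_cast hs1
  have hM0 : (0 : ℝ) < M := by exact_mod_cast hM
  obtain ⟨u, hu⟩ : ∃ u : ℤ, u = round ((S : ℝ) / s) := ⟨_, rfl⟩
  have hr : |(S : ℝ) / s - u| ≤ 1 / 2 := by rw [hu]; exact abs_sub_round _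
  have hr' : |(S : ℝ) - u * s| ≤ s / 2 := by
    have e : (S : ℝ) - u * s = ((S : ℝ) / s - u) * s := by field_simp
    rw [e, abs_mul, abs_of_pos hs0]
    nlinarith
  have hu' : |(u : ℝ)| ≤ 3 * B + 1 / 2 := by
    have h1 : |(u : ℝ)| ≤ |(S : ℝ) / s| + 1 / 2 := by
      have h := abs_sub_abs_le_abs_sub (u : ℝ) ((S : ℝ) / s)
      rw [abs_sub_comm] at h
      linarith
    have h2 : |(S : ℝ) / s| ≤ 3 * B := by
      rw [abs_div, abs_of_pos hs0, div_le_iff₀ hs0]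
      have h3 : (M : ℝ) ≤ 3 * s := by exact_mod_cast hsM
      calc |(S : ℝ)| ≤ B * M := hS
        _ ≤ B * (3 * s) := mul_le_mul_of_nonneg_left h3 (Nat.cast_nonneg _)
        _ = 3 * B * s := by ring
    linarith
  have humem : u ∈ Icc (-(3 * B + 1 : ℤ)) (3 * B + 1) := by
    rw [Finset.mem_Icc]
    rw [abs_le] at hu'
    constructor
    · have h : ((-(3 * B + 1) : ℤ) : ℝ) ≤ (u : ℝ) := by push_cast; linarith [hu'.1]
      exact_mod_cast h
    · have h : (u : ℝ) ≤ (((3 * B + 1) : ℤ) : ℝ) := by push_cast; linarith [hu'.2]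
      exact_mod_cast h
  have htri : 3 / 4 ≤ tri M (S - u * (s : ℕ)) := by
    unfold tri
    refine le_max_of_le_right ?_
    push_cast
    rcases hcase with ⟨h1, h2⟩ | h
    · have h3 : u = S := by
        rw [hu, h1]
        simp
      rw [h3, h1]
      norm_num
    · have h3 : |(S : ℝ) - u * s| / M ≤ 1 / 4 := by
        rw [div_le_iff₀ hM0]
        have : (2 * s : ℝ) ≤ M := by exact_mod_cast h
        linarith
      linarith
  have hsum := Finset.single_le_sum (f := fun u : ℤ => tri M (S - u * (s : ℕ)))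
    (fun i _ => chn_tri_nonneg _ _) humem
  have hsum' : tri M (S - u * (s : ℕ)) ≤ ∑ u ∈ Icc (-(3 * B + 1 : ℤ)) (3 * B + 1),
      tri M (S - u * (s : ℕ)) := hsum
  linarith

/-- intermediate sides -/
private def mr (l μ t r : ℕ) (i : Fin (l + 1)) : ℕ :=
  if i.val < r then 2 ^ (μ * ex l t i) else 2 ^ (l ^ 2 * μ)

private theorem mr_one (l μ t r : ℕ) (i : Fin (l + 1)) : 1 ≤ mr l μ t r i := by
  unfold mr
  split_ifs <;> exact Nat.one_le_two_pow

private theorem chn_exp (l t r : ℕ) (hr : r ≤ l) (hc : r * l ^ 2 ≤ (l + 1) * t) :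
    (l ^ 2 - t) * (l + 1) ≤ l ^ 2 * (l - r) + ex l t r := by
  unfold ex
  obtain ⟨q, hq⟩ := Nat.exists_eq_add_of_le hr
  generalize l ^ 2 = L at *
  have e1 : (L - t) * (l + 1) = (L * r + L * q + L) - (l + 1) * t := by
    rw [Nat.sub_mul, mul_comm t]
    congr 1
    rw [hq]; ring
  have e2 : L * (l - r) = L * q := by
    congr 1; omega
  have e3 : (r + 1) * L = L * r + L := by ring
  have e4 : r * L = L * r := by ring
  rw [e1, e2, e3]
  rw [e4] at hc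
  generalize L * r = x at *
  generalize L * q = y at *
  generalize (l + 1) * t = z at *
  omega

private theorem chn_bound (l k : ℕ) (μ t : ℕ) (s : Finset ℤ) (b : ℤ → ℝ)
    (hs1 : ∀ n ∈ s, b n ≠ 0 → (2 : ℤ) ^ (l ^ 2 * μ) ≤ 2 * |n| ∧ |n| ≤ 2 ^ (l ^ 2 * μ))
    (hs2 : ∀ n ∈ s, ∀ n' ∈ s, b n ≠ 0 → b n' ≠ 0 → |n - n'| ≤ 2 ^ ((l ^ 2 - t) * μ))
    (r : ℕ) (hr : r ≤ l) (hc : r * l ^ 2 ≤ (l + 1) * t) (n n' : Fin k → ℤ)
    (hn : ∀ j, n j ∈ s) (hn' : ∀ j, n' j ∈ s) (hbn : ∀ j, b (n j) ≠ 0) (hbn' : ∀ j, b (n' j) ≠ 0)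
    (hlo : ∀ j < r, Sg n n' j = 0)
    (hhi : ∀ j, r < j → j < l + 1 → |(Sg n n' j : ℝ)| ≤ 2 ^ (l ^ 2 * μ)) :
    |(Sg n n' r : ℝ)| ≤ ((2 ^ (l + 1) * (2 ^ (l + 1) + 2 * k) : ℕ) : ℝ) *
      ((2 ^ (μ * ex l t r) : ℕ) : ℝ) := by
  rcases Nat.eq_zero_or_pos k with hk | hk
  · subst hk
    have : Sg n n' r = 0 := by simp [Sg]
    rw [this, Int.cast_zero, abs_zero]
    positivity
  · obtain ⟨n1, hn1⟩ : ∃ n1 : ℤ, n1 = n ⟨0, hk⟩ := ⟨_, rfl⟩
    have hn1s : n1 ∈ s := by rw [hn1]; exact hn _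
    have hn1b : b n1 ≠ 0 := by rw [hn1]; exact hbn _
    obtain ⟨ha, hb'⟩ := hs1 n1 hn1s hn1b
    have ha' : (2 : ℝ) ^ (l ^ 2 * μ) ≤ 2 * |(n1 : ℝ)| := by exact_mod_cast ha
    have hb'' : |(n1 : ℝ)| ≤ (2 : ℝ) ^ (l ^ 2 * μ) := by exact_mod_cast hb'
    have hm : ∀ m : Fin k → ℤ, (∀ j, m j ∈ s) → (∀ j, b (m j) ≠ 0) →
        ∀ j, |((m j : ℝ) - n1)| ≤ (2 : ℝ) ^ ((l ^ 2 - t) * μ) := by
      intro m h1 h2 j
      have := hs2 (m j) (h1 j) n1 hn1s (h2 j) hn1b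
      exact_mod_cast this
    have key := sg_bound (d := l + 1) (k := k) (i := r) (by omega)
      (N := (2 : ℝ) ^ (l ^ 2 * μ)) (H := (2 : ℝ) ^ ((l ^ 2 - t) * μ))
      (one_le_pow₀ (by norm_num)) (by positivity) n n' n1 ha' hb'' (hm n hn hbn) (hm n' hn' hbn')
      hlo hhi
    refine key.trans ?_
    have hM1 : (1 : ℝ) ≤ (2 : ℝ) ^ (μ * ex l t r) := one_le_pow₀ (by norm_num)
    have hdiv : ((2 : ℝ) ^ ((l ^ 2 - t) * μ)) ^ (l + 1) /
        ((2 : ℝ) ^ (l ^ 2 * μ)) ^ (l + 1 - 1 - r) ≤ (2 : ℝ) ^ (μ * ex l t r) := by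
      rw [div_le_iff₀ (by positivity), ← pow_mul, ← pow_mul, ← pow_add]
      refine pow_le_pow_right₀ (by norm_num) ?_
      have h := Nat.mul_le_mul_left μ (chn_exp l t r hr hc)
      rw [show l + 1 - 1 - r = l - r by omega]
      calc (l ^ 2 - t) * μ * (l + 1) = μ * ((l ^ 2 - t) * (l + 1)) := by ring
        _ ≤ μ * (l ^ 2 * (l - r) + ex l t r) := h
        _ = μ * ex l t r + l ^ 2 * μ * (l - r) := by ring
    push_cast
    have hkk : (0 : ℝ) ≤ 2 * k := by positivity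
    calc (2 : ℝ) ^ (l + 1) * (2 ^ (l + 1) + 2 * k * (((2 : ℝ) ^ ((l ^ 2 - t) * μ)) ^ (l + 1) /
        ((2 : ℝ) ^ (l ^ 2 * μ)) ^ (l + 1 - 1 - r)))
        ≤ 2 ^ (l + 1) * (2 ^ (l + 1) * (2 : ℝ) ^ (μ * ex l t r) +
          2 * k * (2 : ℝ) ^ (μ * ex l t r)) := by
          refine mul_le_mul_of_nonneg_left (add_le_add ?_ ?_) (by positivity)
          · exact le_mul_of_one_le_right (by positivity) hM1
          · exact mul_le_mul_of_nonneg_left hdiv hkk
      _ = 2 ^ (l + 1) * (2 ^ (l + 1) + 2 * k) * 2 ^ (μ * ex l t r) := by ring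

private theorem chn_step (l k : ℕ) (μ t : ℕ) (s : Finset ℤ) (b : ℤ → ℝ)
    (hb : ∀ n, 0 ≤ b n)
    (hs1 : ∀ n ∈ s, b n ≠ 0 → (2 : ℤ) ^ (l ^ 2 * μ) ≤ 2 * |n| ∧ |n| ≤ 2 ^ (l ^ 2 * μ))
    (hs2 : ∀ n ∈ s, ∀ n' ∈ s, b n ≠ 0 → b n' ≠ 0 → |n - n'| ≤ 2 ^ ((l ^ 2 - t) * μ))
    (r : ℕ) (hr : r ≤ l) (B : ℕ) (hB : B = 2 ^ (l + 1) * (2 ^ (l + 1) + 2 * k)) :
    VV (l + 1) k s b (mr l μ t r) 0 ≤
      (4 / 3 * (6 * B + 3)) * VV (l + 1) k s b (mr l μ t (r + 1)) 0 := by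
  have hV := vv_nonneg (s := s) (k := k) hb (mr l μ t (r + 1)) 0
  rcases Nat.lt_or_ge ((l + 1) * t) (r * l ^ 2) with hc | hc
  · have hex : ex l t r = l ^ 2 := by
      unfold ex
      have e3 : (r + 1) * l ^ 2 = r * l ^ 2 + l ^ 2 := by ring
      rw [e3]
      generalize r * l ^ 2 = x at *
      generalize (l + 1) * t = z at *
      generalize l ^ 2 = L at *
      omega
    have heq : mr l μ t r = mr l μ t (r + 1) := by
      funext i
      unfold mr
      rcases lt_trichotomy i.val r with h | h | h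
      · rw [if_pos h, if_pos (by omega)]
      · rw [if_neg (by omega), if_pos (by omega), h, hex, mul_comm]
      · rw [if_neg (by omega), if_neg (by omega)]
    rw [heq]
    have hB0 : (0 : ℝ) ≤ B := Nat.cast_nonneg _
    nlinarith
  · -- the main case
    obtain ⟨i0, hi0⟩ : ∃ i0 : Fin (l + 1), i0.val = r := ⟨⟨r, by omega⟩, rfl⟩
    obtain ⟨M, hMdef⟩ : ∃ M : ℕ, M = 2 ^ (μ * ex l t r) := ⟨_, rfl⟩
    have hM1 : 1 ≤ M := by rw [hMdef]; exact Nat.one_le_two_pow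
    obtain ⟨h, hh⟩ : ∃ h : ℤ → Fin (l + 1) → ℤ,
        h = fun (u : ℤ) (i : Fin (l + 1)) =>
          if i = i0 then u * ((max 1 (M / 2) : ℕ) : ℤ) else 0 := ⟨_, rfl⟩
    have hstep : VV (l + 1) k s b (mr l μ t r) 0 ≤
        (4 / 3) * ∑ u ∈ Icc (-(3 * B + 1 : ℤ)) (3 * B + 1),
          VV (l + 1) k s b (mr l μ t (r + 1)) (h u) := by
      have hswap : ∑ u ∈ Icc (-(3 * B + 1 : ℤ)) (3 * B + 1),
          VV (l + 1) k s b (mr l μ t (r + 1)) (h u) =
          ∑ n ∈ Fintype.piFinset (fun _ : Fin k => s), ∑ n' ∈ Fintype.piFinset (fun _ : Fin k => s),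
            ∑ u ∈ Icc (-(3 * B + 1 : ℤ)) (3 * B + 1), (∏ r, b (n r)) * (∏ r, b (n' r)) *
              ∏ i : Fin (l + 1), tri (mr l μ t (r + 1) i) (Sg n n' i - h u i) := by
        unfold VV
        rw [Finset.sum_comm]
        refine Finset.sum_congr rfl fun n _ => ?_
        rw [Finset.sum_comm]
      rw [hswap]
      unfold VV
      rw [Finset.mul_sum]
      refine Finset.sum_le_sum fun n hn => ?_
      rw [Finset.mul_sum]
      refine Finset.sum_le_sum fun n' hn' => ?_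
      rw [Fintype.mem_piFinset] at hn hn'
      have hQ1 : 0 ≤ ∏ j, b (n j) := Finset.prod_nonneg fun j _ => hb _
      have hQ2 : 0 ≤ ∏ j, b (n' j) := Finset.prod_nonneg fun j _ => hb _
      rw [← Finset.mul_sum, mul_left_comm]
      -- split off the factor at i0
      have hL : ∏ i : Fin (l + 1), tri (mr l μ t r i) (Sg n n' i - (0 : Fin (l + 1) → ℤ) i) =
          tri (2 ^ (l ^ 2 * μ)) (Sg n n' r) *
            ∏ i ∈ univ.erase i0, tri (mr l μ t r i) (Sg n n' i) := by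
        rw [← Finset.mul_prod_erase univ _ (Finset.mem_univ i0)]
        simp only [Pi.zero_apply, sub_zero]
        rw [hi0]
        congr 2
        unfold mr
        rw [if_neg (by omega)]
      have hR : ∀ u : ℤ, ∏ i : Fin (l + 1), tri (mr l μ t (r + 1) i) (Sg n n' i - h u i) =
          tri M (Sg n n' r - u * (max 1 (M / 2) : ℕ)) *
            ∏ i ∈ univ.erase i0, tri (mr l μ t r i) (Sg n n' i) := by
        intro u
        rw [← Finset.mul_prod_erase univ _ (Finset.mem_univ i0)]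
        congr 1
        · rw [hh, hi0]
          simp only [if_true]
          congr 1
          unfold mr
          rw [if_pos (by omega), hi0, hMdef]
        · refine Finset.prod_congr rfl fun i hi => ?_
          have hne : i ≠ i0 := (Finset.mem_erase.1 hi).1
          have hne' : i.val ≠ r := fun h => hne (Fin.ext (h.trans hi0.symm))
          rw [hh]
          simp only [if_neg hne, sub_zero]
          congr 1
          unfold mr
          by_cases h1 : i.val < r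
          · rw [if_pos h1, if_pos (by omega)]
          · rw [if_neg h1, if_neg (by omega)]
      rw [hL, Finset.sum_congr rfl fun u _ => hR u, ← Finset.sum_mul]
      obtain ⟨R, hRdef⟩ : ∃ R : ℝ, R = ∏ i ∈ univ.erase i0, tri (mr l μ t r i) (Sg n n' i) :=
        ⟨_, rfl⟩
      have hR0 : 0 ≤ R := by
        rw [hRdef]; exact Finset.prod_nonneg fun i _ => chn_tri_nonneg _ _
      rw [← hRdef]
      have hS0 : 0 ≤ ∑ u ∈ Icc (-(3 * B + 1 : ℤ)) (3 * B + 1),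
          tri M (Sg n n' r - u * (max 1 (M / 2) : ℕ)) :=
        Finset.sum_nonneg fun u _ => chn_tri_nonneg _ _
      by_cases hz1 : ∏ j, b (n j) = 0
      · rw [hz1]; simp
      by_cases hz2 : ∏ j, b (n' j) = 0
      · rw [hz2]; simp
      by_cases hz3 : R = 0
      · rw [hz3]; simp
      have hbn : ∀ j, b (n j) ≠ 0 := fun j => Finset.prod_ne_zero_iff.1 hz1 j (Finset.mem_univ _)
      have hbn' : ∀ j, b (n' j) ≠ 0 := fun j => Finset.prod_ne_zero_iff.1 hz2 j (Finset.mem_univ _)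
      have hne : ∀ i : Fin (l + 1), i ≠ i0 → tri (mr l μ t r i) (Sg n n' i) ≠ 0 := by
        intro i hi
        rw [hRdef] at hz3
        exact Finset.prod_ne_zero_iff.1 hz3 i (Finset.mem_erase.2 ⟨hi, Finset.mem_univ _⟩)
      have hlo : ∀ j < r, Sg n n' j = 0 := by
        intro j hj
        have h1 := hne ⟨j, by omega⟩ (fun h => by
          have := congrArg Fin.val h
          rw [hi0] at this
          simp only at this
          omega)
        have h2 := chn_tri_ne (mr_one _ _ _ _ _) h1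
        have hex : ex l t j = 0 := by
          unfold ex
          have e : (j + 1) * l ^ 2 ≤ (l + 1) * t :=
            (Nat.mul_le_mul_right _ (by omega : j + 1 ≤ r)).trans hc
          rw [Nat.sub_eq_zero_of_le e]
          simp
        unfold mr at h2
        simp only [if_pos hj, hex, mul_zero, pow_zero, Nat.cast_one] at h2
        have h3 : |Sg n n' j| < 1 := by exact_mod_cast h2
        exact Int.abs_lt_one_iff.1 h3
      have hhi : ∀ j, r < j → j < l + 1 → |(Sg n n' j : ℝ)| ≤ 2 ^ (l ^ 2 * μ) := by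
        intro j hj hjl
        have h1 := hne ⟨j, hjl⟩ (fun h => by
          have := congrArg Fin.val h
          rw [hi0] at this
          simp only at this
          omega)
        have h2 := chn_tri_ne (mr_one _ _ _ _ _) h1
        unfold mr at h2
        simp only [if_neg (show ¬ j < r by omega)] at h2
        push_cast at h2
        exact h2.le
      have hbd := chn_bound l k μ t s b hs1 hs2 r hr hc n n' hn hn' hbn hbn' hlo hhi
      rw [← hB, ← hMdef] at hbd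
      have hcov := tri_cover B hM1 (Sg n n' r) hbd
      have h1 := chn_tri_le_one (2 ^ (l ^ 2 * μ)) (Sg n n' r)
      have hP : 0 ≤ (∏ j, b (n j)) * ∏ j, b (n' j) := mul_nonneg hQ1 hQ2
      have h2 : tri (2 ^ (l ^ 2 * μ)) (Sg n n' r) * R ≤
          (4 / 3 : ℝ) * ((∑ u ∈ Icc (-(3 * B + 1 : ℤ)) (3 * B + 1),
            tri M (Sg n n' r - u * (max 1 (M / 2) : ℕ))) * R) := by
        rw [← mul_assoc]
        exact mul_le_mul_of_nonneg_right (h1.trans hcov) hR0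
      exact mul_le_mul_of_nonneg_left h2 hP
    refine hstep.trans ?_
    have hsum : ∑ u ∈ Icc (-(3 * B + 1 : ℤ)) (3 * B + 1),
        VV (l + 1) k s b (mr l μ t (r + 1)) (h u) ≤
        (6 * B + 3) * VV (l + 1) k s b (mr l μ t (r + 1)) 0 := by
      refine (Finset.sum_le_sum fun u _ => vv_shift hb (mr_one l μ t (r + 1)) (h u)).trans
        (le_of_eq ?_)
      rw [Finset.sum_const, nsmul_eq_mul, Int.card_Icc]
      congr 1
      have : (3 * B + 1 + 1 - -(3 * B + 1) : ℤ).toNat = 6 * B + 3 := by omega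
      rw [this]
      push_cast
      ring
    have := mul_le_mul_of_nonneg_left hsum (by norm_num : (0 : ℝ) ≤ 4 / 3)
    linarith

theorem vv_chain (l k : ℕ) (hl : 1 ≤ l) : ∃ C : ℝ, 0 ≤ C ∧ ∀ (μ t : ℕ) (s : Finset ℤ) (b : ℤ → ℝ),
    l ≤ t → t < l ^ 2 → (∀ n, 0 ≤ b n) →
    (∀ n ∈ s, b n ≠ 0 → (2 : ℤ) ^ (l ^ 2 * μ) ≤ 2 * |n| ∧ |n| ≤ 2 ^ (l ^ 2 * μ)) →
    (∀ n ∈ s, ∀ n' ∈ s, b n ≠ 0 → b n' ≠ 0 → |n - n'| ≤ 2 ^ ((l ^ 2 - t) * μ)) →
    VV (l + 1) k s b (fun _ => 2 ^ (l ^ 2 * μ)) 0 ≤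
      C * VV (l + 1) k s b (fun i => 2 ^ (μ * ex l t i)) 0 := by
  have _ := hl
  obtain ⟨B, hB⟩ : ∃ B : ℕ, B = 2 ^ (l + 1) * (2 ^ (l + 1) + 2 * k) := ⟨_, rfl⟩
  have hC0 : (0 : ℝ) ≤ 4 / 3 * (6 * B + 3) := by positivity
  refine ⟨(4 / 3 * (6 * B + 3)) ^ (l + 1), pow_nonneg hC0 _, ?_⟩
  intro μ t s b hlt htl hb hs1 hs2
  have hind : ∀ r, r ≤ l + 1 → VV (l + 1) k s b (mr l μ t 0) 0 ≤
      (4 / 3 * (6 * B + 3)) ^ r * VV (l + 1) k s b (mr l μ t r) 0 := by
    intro r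
    induction r with
    | zero => intro _; simp
    | succ r ih =>
      intro hr
      refine (ih (by omega)).trans ?_
      rw [pow_succ, mul_assoc]
      exact mul_le_mul_of_nonneg_left
        (chn_step l k μ t s b hb hs1 hs2 r (by omega) B hB) (pow_nonneg hC0 _)
  have h := hind (l + 1) le_rfl
  have e0 : mr l μ t 0 = fun _ => 2 ^ (l ^ 2 * μ) := by
    funext i; unfold mr; simp
  have e1 : mr l μ t (l + 1) = fun i : Fin (l + 1) => 2 ^ (μ * ex l t i) := by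
    funext i; unfold mr; rw [if_pos i.isLt]
  rw [e0, e1] at h
  exact h

end Pool.Agent.Dcs
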