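import Pool.Agent.Dcs.Tri

/-!
# Dcs, module Cnt: integrals over the cube and the weighted number of solutions

Everything follows from one identity: for `a : ℤ → ℂ`, `h : Fin d → ℤ`, `1 ≤ M i`,
`∫ x in cube d, (‖FS d s a x‖^(2k) ∏_i KF (M i) (x i) : ℂ) * ee (-∑_i h i * x i) =
 ∑_n ∑_n' (∏_r a (n r)) * conj (∏_r a (n' r)) * ∏_i tri (M i) (Sg n n' i - h i)` (*).
Proof: `‖F‖^(2k) = F^k * conj F^k`, `F^k = ∑_n ∏_r a (n r) ee (γ(n r) ⬝ x)` (`Finset.prod_univ_sum` with `Fintype.piFinset`), the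
exponent of the product is `∑_i (∑_r n r^(i+1)) x i`; `KF_exp` for every `i` (again a product of sums: `Finset.prod_univ_sum`);
the integral over the cube of `ee (∑_i z_i x_i)`, `z : Fin d → ℤ`, is `1` if `z = 0` and `0` otherwise (product of one
dimensional integrals; the volume of the cube is `1`; `MeasureTheory.integral_fintype_prod_eq_prod` with restricted measures, or
see the treatment of such integrals in Pool/Agent/Dcp/Vm.lean).  `tri` is even.  (For `u` with `|u| > M`: `tri M u = 0`.)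
`vv_shift`: `b ≥ 0`; the left side of (*) has norm at most its value for `h = 0`.
`vv_int`: (*) for `h = 0`, `a = b`.  `vv_maj`: (*) for `h = 0` and the triangle inequality (`tri ≥ 0`, `‖∏ a‖ = ∏ ‖a‖`).
(In `vv_int` and `vv_maj` the power `2 k` is a natural number.)
-/

set_option autoImplicit false

namespace Pool.Agent.Dcs

open MeasureTheory Finset Pool.Agent.Dcp
open scoped ENNReal

private theorem cnt_ee_int (n : ℤ) : ee (n : ℝ) = 1 := by
  unfold ee
  have h : (2 : ℂ) * Real.pi * ((n : ℝ) : ℂ) * Complex.I = (n : ℂ) * (2 * Real.pi * Complex.I) := by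
    push_cast
    ring
  rw [h, Complex.exp_int_mul_two_pi_mul_I]

private theorem cnt_ee_neg (t : ℝ) : ee (-t) = (starRingEnd ℂ) (ee t) := by
  unfold ee
  rw [← Complex.exp_conj]
  congr 1
  simp only [map_mul, Complex.conj_ofReal, Complex.conj_I, map_ofNat]
  push_cast
  ring

private theorem cnt_ee_sum {ι : Type*} (s : Finset ι) (f : ι → ℝ) :
    ee (∑ i ∈ s, f i) = ∏ i ∈ s, ee (f i) := by
  classical
  induction s using Finset.induction_on with
  | empty => rw [Finset.sum_empty, Finset.prod_empty, ee_zero]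
  | insert i s hi ih => rw [Finset.sum_insert hi, Finset.prod_insert hi, ee_add, ih]

/-- orthogonality in one variable -/
private theorem cnt_int1 (z : ℤ) : ∫ t in Set.Ico (0 : ℝ) 1, ee ((z : ℝ) * t) =
    if z = 0 then 1 else 0 := by
  rw [integral_Ico_eq_integral_Ioo, ← integral_Ioc_eq_integral_Ioo,
    ← intervalIntegral.integral_of_le zero_le_one]
  by_cases hz : z = 0
  · rw [if_pos hz]
    subst hz
    have h : ∀ t : ℝ, ee (((0 : ℤ) : ℝ) * t) = 1 := by
      intro t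
      rw [Int.cast_zero, zero_mul, ee_zero]
    simp only [h]
    simp
  · rw [if_neg hz]
    have hc : (2 * Real.pi * z * Complex.I : ℂ) ≠ 0 := by
      have h1 : (z : ℂ) ≠ 0 := by exact_mod_cast hz
      have h2 : (Real.pi : ℂ) ≠ 0 := by exact_mod_cast Real.pi_ne_zero
      exact mul_ne_zero (mul_ne_zero (mul_ne_zero two_ne_zero h2) h1) Complex.I_ne_zero
    have h1 : ∀ t : ℝ, ee ((z : ℝ) * t) = Complex.exp ((2 * Real.pi * z * Complex.I) * t) := by
      intro t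
      unfold ee
      congr 1
      push_cast
      ring
    have h2 : ∀ t : ℝ, Complex.exp ((2 * Real.pi * z * Complex.I) * t) = ee ((z : ℝ) * t) :=
      fun t => (h1 t).symm
    rw [intervalIntegral.integral_congr (fun t _ => h1 t), integral_exp_mul_complex hc, h2, h2,
      mul_one, mul_zero, cnt_ee_int, ee_zero, sub_self, zero_div]

private theorem cnt_tri_nonneg (M : ℕ) (u : ℤ) : 0 ≤ tri M u := le_max_left _ _

private theorem cnt_tri_neg (M : ℕ) (u : ℤ) : tri M (-u) = tri M u := by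
  unfold tri
  push_cast
  rw [abs_neg]

private theorem cnt_tri_large (M : ℕ) (hM : 1 ≤ M) (u : ℤ) (hu : u ∉ Icc (-(M : ℤ)) M) :
    tri M u = 0 := by
  unfold tri
  have hM0 : (0 : ℝ) < M := by exact_mod_cast hM
  have h1 : (M : ℤ) < |u| := by
    by_contra h
    rw [not_lt, abs_le] at h
    exact hu (Finset.mem_Icc.2 h)
  have h2 : (M : ℝ) < |(u : ℝ)| := by exact_mod_cast h1
  have h3 : 1 ≤ |(u : ℝ)| / M := by
    rw [le_div_iff₀ hM0, one_mul]
    exact h2.le
  exact max_eq_left (by linarith)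

private theorem cnt_ee_iio (f : ℝ → ℂ) (hf : Continuous f) :
    Integrable f (volume.restrict (Set.Ico (0 : ℝ) 1)) := by
  have h := hf.continuousOn.integrableOn_Icc (μ := volume) (a := (0 : ℝ)) (b := 1)
  exact h.mono_set Set.Ico_subset_Icc_self

/-- the Fourier coefficients of the Fejer kernel -/
private theorem cnt_KF1 (M : ℕ) (hM : 1 ≤ M) (z : ℤ) :
    ∫ t in Set.Ico (0 : ℝ) 1, ((KF M t : ℝ) : ℂ) * ee ((z : ℝ) * t) = ((tri M z : ℝ) : ℂ) := by
  have h1 : ∀ t : ℝ, ((KF M t : ℝ) : ℂ) * ee ((z : ℝ) * t) =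
      ∑ h ∈ Icc (-(M : ℤ)) M, ((tri M h : ℝ) : ℂ) * ee (((h + z : ℤ) : ℝ) * t) := by
    intro t
    rw [KF_exp M hM t, Finset.sum_mul]
    refine Finset.sum_congr rfl fun h _ => ?_
    rw [mul_assoc, ← ee_add]
    congr 2
    push_cast
    ring
  rw [integral_congr_ae (Filter.Eventually.of_forall h1)]
  rw [integral_finsetSum]
  · have h2 : ∀ h ∈ Icc (-(M : ℤ)) M, ∫ t in Set.Ico (0 : ℝ) 1,
        ((tri M h : ℝ) : ℂ) * ee (((h + z : ℤ) : ℝ) * t) =
        if h = -z then ((tri M h : ℝ) : ℂ) else 0 := by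
      intro h _
      rw [integral_const_mul, cnt_int1]
      by_cases hz : h = -z
      · rw [if_pos hz, if_pos (by omega), mul_one]
      · rw [if_neg hz, if_neg (by omega), mul_zero]
    rw [Finset.sum_congr rfl h2, Finset.sum_ite_eq']
    split_ifs with h3
    · rw [cnt_tri_neg]
    · rw [← cnt_tri_neg, cnt_tri_large M hM _ h3, Complex.ofReal_zero]
  · intro h _
    refine cnt_ee_iio _ ?_
    exact continuous_const.mul (ee_cont.comp (continuous_const.mul continuous_id))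

/-- the power of the exponential sum -/
private theorem cnt_pow (d k : ℕ) (s : Finset ℤ) (a : ℤ → ℂ) (x : E d) :
    FS d s a x ^ k = ∑ n ∈ Fintype.piFinset (fun _ : Fin k => s),
      (∏ r, a (n r)) * ee (∑ i : Fin d, ((∑ r, n r ^ (i.val + 1) : ℤ) : ℝ) * x i) := by
  have h1 : FS d s a x ^ k = ∏ _r : Fin k, FS d s a x := by
    rw [Finset.prod_const, Finset.card_univ, Fintype.card_fin]
  rw [h1]
  unfold FS
  rw [Finset.prod_univ_sum]
  refine Finset.sum_congr rfl fun n _ => ?_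
  rw [Finset.prod_mul_distrib, ← cnt_ee_sum]
  congr 2
  rw [Finset.sum_comm]
  refine Finset.sum_congr rfl fun i _ => ?_
  push_cast
  rw [Finset.sum_mul]

private theorem cnt_norm_pow (d k : ℕ) (s : Finset ℤ) (a : ℤ → ℂ) (x : E d) :
    ((‖FS d s a x‖ ^ (2 * k) : ℝ) : ℂ) = ∑ n ∈ Fintype.piFinset (fun _ : Fin k => s),
      ∑ n' ∈ Fintype.piFinset (fun _ : Fin k => s),
      (∏ r, a (n r)) * (starRingEnd ℂ) (∏ r, a (n' r)) *
        ∏ i : Fin d, ee ((Sg n n' i : ℝ) * x i) := by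
  have h1 : ((‖FS d s a x‖ ^ (2 * k) : ℝ) : ℂ) = FS d s a x ^ k * (starRingEnd ℂ) (FS d s a x ^ k) := by
    rw [Complex.mul_conj, pow_mul']
    push_cast
    rw [Complex.normSq_eq_norm_sq, norm_pow]
    push_cast
    rfl
  rw [h1, cnt_pow, map_sum, Finset.sum_mul_sum]
  refine Finset.sum_congr rfl fun n _ => Finset.sum_congr rfl fun n' _ => ?_
  rw [map_mul, ← cnt_ee_neg, ← cnt_ee_sum]
  have h2 : ∑ i : Fin d, (Sg n n' i : ℝ) * x i =
      ∑ i : Fin d, ((∑ r, n r ^ (i.val + 1) : ℤ) : ℝ) * x i +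
        -∑ i : Fin d, ((∑ r, n' r ^ (i.val + 1) : ℤ) : ℝ) * x i := by
    rw [← sub_eq_add_neg, ← Finset.sum_sub_distrib]
    refine Finset.sum_congr rfl fun i _ => ?_
    unfold Sg
    push_cast
    ring
  rw [h2, ee_add]
  ring

private theorem cnt_cube_meas (d : ℕ) : MeasurableSet (cube d) :=
  MeasurableSet.univ_pi fun _ => measurableSet_Ico

private theorem cnt_integrable {F : Type*} [NormedAddCommGroup F] {d : ℕ} {f : E d → F}
    (hf : Continuous f) : Integrable f (volume.restrict (cube d)) := by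
  have hK : IsCompact (Set.pi Set.univ (fun _ : Fin d => Set.Icc (0 : ℝ) 1)) :=
    isCompact_univ_pi fun _ => isCompact_Icc
  have h := hf.continuousOn.integrableOn_compact hK (μ := volume)
  exact h.mono_set (Set.pi_mono fun _ _ => Set.Ico_subset_Icc_self)

/-- the main identity -/
private theorem cnt_main (d k : ℕ) (s : Finset ℤ) (a : ℤ → ℂ) (M : Fin d → ℕ)
    (hM : ∀ i, 1 ≤ M i) (h : Fin d → ℤ) :
    ∫ x in cube d, ((‖FS d s a x‖ ^ (2 * k) * ∏ i, KF (M i) (x i) : ℝ) : ℂ) *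
      ee (-∑ i, (h i : ℝ) * x i) =
    ∑ n ∈ Fintype.piFinset (fun _ : Fin k => s), ∑ n' ∈ Fintype.piFinset (fun _ : Fin k => s),
      (∏ r, a (n r)) * (starRingEnd ℂ) (∏ r, a (n' r)) *
        ∏ i : Fin d, ((tri (M i) (Sg n n' i - h i) : ℝ) : ℂ) := by
  have h1 : ∀ x : E d, ((‖FS d s a x‖ ^ (2 * k) * ∏ i, KF (M i) (x i) : ℝ) : ℂ) *
      ee (-∑ i, (h i : ℝ) * x i) =
      ∑ n ∈ Fintype.piFinset (fun _ : Fin k => s), ∑ n' ∈ Fintype.piFinset (fun _ : Fin k => s),
      (∏ r, a (n r)) * (starRingEnd ℂ) (∏ r, a (n' r)) *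
        ∏ i : Fin d, ((((KF (M i) (x i) : ℝ) : ℂ)) * ee (((Sg n n' i - h i : ℤ) : ℝ) * x i)) := by
    intro x
    rw [Complex.ofReal_mul, cnt_norm_pow, Finset.sum_mul, Finset.sum_mul]
    refine Finset.sum_congr rfl fun n _ => ?_
    rw [Finset.sum_mul, Finset.sum_mul]
    refine Finset.sum_congr rfl fun n' _ => ?_
    rw [Complex.ofReal_prod, ← Finset.sum_neg_distrib, cnt_ee_sum, mul_assoc, mul_assoc]
    congr 1
    rw [← Finset.prod_mul_distrib, ← Finset.prod_mul_distrib]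
    refine Finset.prod_congr rfl fun i _ => ?_
    have h2 : (((Sg n n' i - h i : ℤ) : ℝ) * x i) =
        (Sg n n' i : ℝ) * x i + -((h i : ℝ) * x i) := by
      push_cast
      ring
    rw [h2, ee_add]
    ring
  rw [integral_congr_ae (Filter.Eventually.of_forall h1)]
  have hc : ∀ (n n' : Fin k → ℤ), Continuous fun x : E d =>
      (∏ r, a (n r)) * (starRingEnd ℂ) (∏ r, a (n' r)) *
        ∏ i : Fin d, ((((KF (M i) (x i) : ℝ) : ℂ)) * ee (((Sg n n' i - h i : ℤ) : ℝ) * x i)) := by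
    intro n n'
    refine continuous_const.mul (continuous_finsetProd _ fun i _ => ?_)
    refine (Complex.continuous_ofReal.comp ((KF_cont (M i)).comp (continuous_apply i))).mul
      (ee_cont.comp (continuous_const.mul (continuous_apply i)))
  rw [integral_finsetSum _ fun n _ => cnt_integrable (continuous_finsetSum _ fun n' _ => hc n n')]
  refine Finset.sum_congr rfl fun n _ => ?_
  rw [integral_finsetSum _ fun n' _ => cnt_integrable (hc n n')]
  refine Finset.sum_congr rfl fun n' _ => ?_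
  rw [integral_const_mul]
  congr 1
  have h3 : (volume : Measure (E d)).restrict (cube d) =
      Measure.pi (fun _ : Fin d => (volume : Measure ℝ).restrict (Set.Ico (0 : ℝ) 1)) := by
    unfold cube
    rw [volume_pi, Measure.restrict_pi_pi]
  rw [h3, integral_fintype_prod_eq_prod (𝕜 := ℂ) (fun (i : Fin d) (t : ℝ) =>
    (((KF (M i) t : ℝ) : ℂ)) * ee (((Sg n n' i - h i : ℤ) : ℝ) * t))]
  refine Finset.prod_congr rfl fun i _ => ?_
  exact cnt_KF1 (M i) (hM i) _

private theorem cnt_VV (d k : ℕ) (s : Finset ℤ) (b : ℤ → ℝ) (M : Fin d → ℕ)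
    (hM : ∀ i, 1 ≤ M i) (h : Fin d → ℤ) :
    ((VV d k s b M h : ℝ) : ℂ) =
    ∫ x in cube d, ((‖FS d s (fun n => ((b n : ℝ) : ℂ)) x‖ ^ (2 * k) *
      ∏ i, KF (M i) (x i) : ℝ) : ℂ) * ee (-∑ i, (h i : ℝ) * x i) := by
  rw [cnt_main d k s _ M hM h]
  unfold VV
  rw [Complex.ofReal_sum]
  refine Finset.sum_congr rfl fun n _ => ?_
  rw [Complex.ofReal_sum]
  refine Finset.sum_congr rfl fun n' _ => ?_
  rw [← Complex.ofReal_prod, ← Complex.ofReal_prod, ← Complex.ofReal_prod, Complex.conj_ofReal]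
  push_cast
  rfl

private theorem cnt_FS_cont (d : ℕ) (s : Finset ℤ) (a : ℤ → ℂ) : Continuous (FS d s a) := by
  unfold FS
  refine continuous_finsetSum _ fun n _ => continuous_const.mul (ee_cont.comp ?_)
  fun_prop

private theorem cnt_cont (d k : ℕ) (s : Finset ℤ) (a : ℤ → ℂ) (M : Fin d → ℕ) :
    Continuous fun x : E d => ‖FS d s a x‖ ^ (2 * k) * ∏ i, KF (M i) (x i) := by
  refine ((cnt_FS_cont d s a).norm.pow _).mul (continuous_finsetProd _ fun i _ => ?_)
  exact (KF_cont (M i)).comp (continuous_apply i)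

private theorem cnt_nn (d k : ℕ) (s : Finset ℤ) (a : ℤ → ℂ) (M : Fin d → ℕ) (x : E d) :
    0 ≤ ‖FS d s a x‖ ^ (2 * k) * ∏ i, KF (M i) (x i) :=
  mul_nonneg (pow_nonneg (norm_nonneg _) _) (Finset.prod_nonneg fun _ _ => KF_nonneg _ _)

/-- the value at zero is a real integral -/
private theorem cnt_zero (d k : ℕ) (s : Finset ℤ) (a : ℤ → ℂ) (M : Fin d → ℕ)
    (hM : ∀ i, 1 ≤ M i) :
    ((∫ x in cube d, ‖FS d s a x‖ ^ (2 * k) * ∏ i, KF (M i) (x i) : ℝ) : ℂ) =
    ∑ n ∈ Fintype.piFinset (fun _ : Fin k => s), ∑ n' ∈ Fintype.piFinset (fun _ : Fin k => s),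
      (∏ r, a (n r)) * (starRingEnd ℂ) (∏ r, a (n' r)) *
        ∏ i : Fin d, ((tri (M i) (Sg n n' i - (0 : Fin d → ℤ) i) : ℝ) : ℂ) := by
  rw [← cnt_main d k s a M hM 0, ← integral_complex_ofReal]
  refine integral_congr_ae (Filter.Eventually.of_forall fun x => ?_)
  show _ = _ * ee (-∑ i : Fin d, (((0 : Fin d → ℤ) i : ℤ) : ℝ) * x i)
  have h : -∑ i : Fin d, (((0 : Fin d → ℤ) i : ℤ) : ℝ) * x i = 0 := by
    simp
  rw [h, ee_zero, mul_one]

private theorem cnt_lint (d k : ℕ) (s : Finset ℤ) (a : ℤ → ℂ) (M : Fin d → ℕ) :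
    ∫⁻ x in cube d, ‖FS d s a x‖ₑ ^ (2 * k) * ∏ i, ENNReal.ofReal (KF (M i) (x i)) =
      ENNReal.ofReal (∫ x in cube d, ‖FS d s a x‖ ^ (2 * k) * ∏ i, KF (M i) (x i)) := by
  rw [ofReal_integral_eq_lintegral_ofReal (cnt_integrable (cnt_cont d k s a M))
    (Filter.Eventually.of_forall fun x => cnt_nn d k s a M x)]
  refine lintegral_congr fun x => ?_
  rw [ENNReal.ofReal_mul (pow_nonneg (norm_nonneg _) _), ENNReal.ofReal_pow (norm_nonneg _),
    ofReal_norm, ENNReal.ofReal_prod_of_nonneg fun i _ => KF_nonneg _ _]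

theorem vv_nonneg {d k : ℕ} {s : Finset ℤ} {b : ℤ → ℝ} (hb : ∀ n, 0 ≤ b n) (M : Fin d → ℕ)
    (h : Fin d → ℤ) : 0 ≤ VV d k s b M h := by
  unfold VV
  refine Finset.sum_nonneg fun n _ => Finset.sum_nonneg fun n' _ => ?_
  refine mul_nonneg (mul_nonneg ?_ ?_) ?_
  · exact Finset.prod_nonneg fun r _ => hb _
  · exact Finset.prod_nonneg fun r _ => hb _
  · exact Finset.prod_nonneg fun i _ => cnt_tri_nonneg _ _

private theorem cnt_VV_zero {d k : ℕ} {s : Finset ℤ} (b : ℤ → ℝ) {M : Fin d → ℕ}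
    (hM : ∀ i, 1 ≤ M i) : VV d k s b M 0 =
      ∫ x in cube d, ‖FS d s (fun n => ((b n : ℝ) : ℂ)) x‖ ^ (2 * k) * ∏ i, KF (M i) (x i) := by
  have h1 := cnt_VV d k s b M hM 0
  rw [cnt_main d k s _ M hM 0] at h1
  have h2 := cnt_zero d k s (fun n => ((b n : ℝ) : ℂ)) M hM
  exact Complex.ofReal_injective (h1.trans h2.symm)

theorem vv_shift {d k : ℕ} {s : Finset ℤ} {b : ℤ → ℝ} (hb : ∀ n, 0 ≤ b n) {M : Fin d → ℕ}
    (hM : ∀ i, 1 ≤ M i) (h : Fin d → ℤ) : VV d k s b M h ≤ VV d k s b M 0 := by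
  have h1 := cnt_VV d k s b M hM h
  have h2 : VV d k s b M h = ‖((VV d k s b M h : ℝ) : ℂ)‖ := by
    rw [Complex.norm_real, Real.norm_of_nonneg (vv_nonneg hb M h)]
  rw [h2, h1, cnt_VV_zero b hM]
  refine (norm_integral_le_integral_norm _).trans (le_of_eq ?_)
  refine integral_congr_ae (Filter.Eventually.of_forall fun x => ?_)
  show ‖_ * ee _‖ = _
  rw [norm_mul, ee_norm, mul_one, Complex.norm_real, Real.norm_of_nonneg (cnt_nn d k s _ M x)]

theorem vv_int {d k : ℕ} {s : Finset ℤ} {b : ℤ → ℝ} (hb : ∀ n, 0 ≤ b n) {M : Fin d → ℕ}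
    (hM : ∀ i, 1 ≤ M i) :
    ∫⁻ x in cube d, ‖FS d s (fun n => ((b n : ℝ) : ℂ)) x‖ₑ ^ (2 * k) *
      ∏ i, ENNReal.ofReal (KF (M i) (x i)) = ENNReal.ofReal (VV d k s b M 0) := by
  have _ := hb
  rw [cnt_lint, cnt_VV_zero b hM]

theorem vv_maj {d k : ℕ} {s : Finset ℤ} (a : ℤ → ℂ) {M : Fin d → ℕ} (hM : ∀ i, 1 ≤ M i) :
    ∫⁻ x in cube d, ‖FS d s a x‖ₑ ^ (2 * k) * ∏ i, ENNReal.ofReal (KF (M i) (x i)) ≤
      ENNReal.ofReal (VV d k s (fun n => ‖a n‖) M 0) := by
  rw [cnt_lint]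
  refine ENNReal.ofReal_le_ofReal ?_
  have h1 := cnt_zero d k s a M hM
  have h0 : 0 ≤ ∫ x in cube d, ‖FS d s a x‖ ^ (2 * k) * ∏ i, KF (M i) (x i) :=
    integral_nonneg fun x => cnt_nn d k s a M x
  have h2 : (∫ x in cube d, ‖FS d s a x‖ ^ (2 * k) * ∏ i, KF (M i) (x i)) =
      ‖((∫ x in cube d, ‖FS d s a x‖ ^ (2 * k) * ∏ i, KF (M i) (x i) : ℝ) : ℂ)‖ := by
    rw [Complex.norm_real, Real.norm_of_nonneg h0]
  rw [h2, h1]
  unfold VV
  refine (norm_sum_le _ _).trans (Finset.sum_le_sum fun n _ => ?_)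
  refine (norm_sum_le _ _).trans (Finset.sum_le_sum fun n' _ => le_of_eq ?_)
  rw [norm_mul, norm_mul, RCLike.norm_conj, norm_prod, norm_prod, ← Complex.ofReal_prod,
    Complex.norm_real, Real.norm_of_nonneg (Finset.prod_nonneg fun i _ => cnt_tri_nonneg _ _)]

end Pool.Agent.Dcs
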