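import Pool.Agent.Dcp.LN
import Pool.Agent.Dcp.EDefs

/-!
# Dcs, module Defs: exponential sums along the moment curve on curved hypersurfaces, definitions

`DD M`, `KF M`, `tri M`: Dirichlet sum, Fejer kernel, its Fourier coefficients.  `Sg n n' i`: difference of the sums of the
`(i+1)`-st powers.  `VV`: weighted number of solutions.  `bx τ r`: the half open box with corner `τ` and sides `r i`.
`S0 ν`: the integers of absolute value at most `2^ν`.  `Sup σ ν n i a`: `a` is supported on the part `2^(ν-1) ≤ |m|` of the arc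
`arc σ ν n i` (length `2^n`).  `BdR l ν n r A`: bound with the constant `A` for averages over boxes with sides `r i` of the
exponential sums of arcs of length `2^n`.  `ex`, `rM`, `rN`: sides of boxes.  `Gr j φ`: the graph `x_j = φ(y)`.
`pd φ i`: partial derivative.  `bN d ν`: the box on which an exponential sum with `|m| ≤ 2^ν` is essentially constant.
-/

set_option autoImplicit false

namespace Pool.Agent.Dcs

open MeasureTheory Finset Pool.Agent.Dcp
open scoped ENNReal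

/-- Dirichlet sum -/
noncomputable def DD (M : ℕ) (x : ℝ) : ℂ := ∑ h ∈ range M, ee (h * x)

/-- Fejer kernel -/
noncomputable def KF (M : ℕ) (x : ℝ) : ℝ := ‖DD M x‖ ^ 2 / M

/-- Fourier coefficients of the Fejer kernel -/
noncomputable def tri (M : ℕ) (h : ℤ) : ℝ := max 0 (1 - |(h : ℝ)| / M)

/-- differences of power sums -/
def Sg {k : ℕ} (n n' : Fin k → ℤ) (i : ℕ) : ℤ := ∑ r, n r ^ (i + 1) - ∑ r, n' r ^ (i + 1)

/-- weighted number of solutions -/
noncomputable def VV (d k : ℕ) (s : Finset ℤ) (b : ℤ → ℝ) (M : Fin d → ℕ) (h : Fin d → ℤ) : ℝ :=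
  ∑ n ∈ Fintype.piFinset (fun _ : Fin k => s), ∑ n' ∈ Fintype.piFinset (fun _ : Fin k => s),
    (∏ r, b (n r)) * (∏ r, b (n' r)) * ∏ i : Fin d, tri (M i) (Sg n n' i - h i)

/-- half open boxes -/
def bx {d : ℕ} (τ r : E d) : Set (E d) := Set.pi Set.univ (fun i => Set.Ico (τ i) (τ i + r i))

/-- the integers of absolute value at most `2^ν` -/
noncomputable def S0 (ν : ℕ) : Finset ℤ := Icc (-(2 ^ ν : ℤ)) (2 ^ ν)

/-- `a` is supported on the part `2^(ν-1) ≤ |m|` of an arc -/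
def Sup (σ ν n i : ℕ) (a : ℤ → ℂ) : Prop :=
  ∀ m : ℤ, a m ≠ 0 → m ∈ arc σ ν n i ∧ (2 : ℤ) ^ ν ≤ 2 * |m|

/-- bound with constant `A` for averages over boxes with sides `r i` -/
def BdR (l ν n : ℕ) (r : E (l + 1)) (A : ℝ≥0∞) : Prop :=
  ∀ (σ i : ℕ) (a : ℤ → ℂ) (τ : E (l + 1)), σ ≤ 1 → i < 2 ^ (ν - n) → Sup σ ν n i a →
    ∫⁻ x in bx τ r, ‖FS (l + 1) (S0 ν) a x‖ₑ ^ P l ≤
      A * (∏ i, ENNReal.ofReal (r i)) * (∑ m ∈ S0 ν, ‖a m‖ₑ ^ 2) ^ (P l / 2)

/-- exponents of the sides of the boxes at level `t` -/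
def ex (l t i : ℕ) : ℕ := min (l ^ 2) ((i + 1) * l ^ 2 - (l + 1) * t)

/-- sides of the boxes at level `t` -/
noncomputable def rM (l μ t : ℕ) : E (l + 1) := fun i => ((2 : ℝ) ^ (μ * ex l t i))⁻¹

/-- sides `2^(-ν)` -/
noncomputable def rN (l ν : ℕ) : E (l + 1) := fun _ => ((2 : ℝ) ^ ν)⁻¹

/-- `a` restricted to an arc -/
noncomputable def res (σ ν n i : ℕ) (a : ℤ → ℂ) : ℤ → ℂ := fun m => if m ∈ arc σ ν n i then a m else 0

/-- the graph `x_j = φ(y)` -/
noncomputable def Gr {m : ℕ} (j : Fin (m + 1)) (φ : E m → ℝ) (y : E m) : E (m + 1) :=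
  Fin.insertNth (α := fun _ => ℝ) j (φ y) y

/-- partial derivative -/
noncomputable def pd {m : ℕ} (φ : E m → ℝ) (i : Fin m) (y : E m) : ℝ := fderiv ℝ φ y (Pi.single i 1)

/-- sides of the box on which the exponential sums are essentially constant -/
noncomputable def bN (d ν : ℕ) : E d := fun i => ((2 : ℝ) ^ (ν * (i.val + 1)))⁻¹

end Pool.Agent.Dcs
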