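import Pool.Agent.Dcs.Defs
import Pool.Agent.Dcp.Boot
import Pool.Agent.Dcp.Snc
import Pool.Agent.Dcp.L1a
import Pool.Agent.Dcp.SpM
import Pool.Agent.Dcp.LN

/-!
# Dcs, module Dln: decoupling of a block on slices `x_0 = u` with an anisotropic weight

Compare Pool/Agent/Dcp/CDc.lean (`cell_dec`), which is the same argument for one special choice of weights and arcs; copy and adapt.
Fix `u`.  Let `N = 2^ν`, `a' = ν - n'` and for `y ∈ E l` put `G_j y = FS (l+1) (S0 ν) (res σ ν n' j a) (cons u (y_i / N^(i+2))) *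
Ph (fun i => (y_i / N^(i+2) - τ i) / L i)`, `j < 2^a'`.  The first factor is a finite sum of characters with frequencies
`((m/N)^2, …, (m/N)^(l+1))` with `m/N ∈ [-σ + j/2^a', -σ + (j+1)/2^a']` and `1/2 ≤ |m/N| ≤ 1`; the weight is a product over `i` of functions of `y_i`
with spectrum in `|ξ_i| ≤ 1/(N^(i+2) L i) ≤ 2^(-l a')` (`ph_spec` with `R = N^(i+2) L i` for every coordinate, and `spec_mul`, as in the
proof of `Ph_spec`); so `Spec (UG 1 l (1/2) 1 (-σ + j/2^a') (1/2^a')) (G_j)` with `c = 0` in the definition of `UG`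
(`pt (1+l) s 0 = mc (1+l) s`, coordinates `Fin.natAdd 1 j`: `s^(j+2)`).
`ln 1 l hl (dec_all l hl) (κ := 1/2) (C := 1)` gives `nI (P l) (∑ G_j) ≤ (K 2^(ε a'))^(P l) (S2 ...)^(P l/2)`; change variables back
(the same Jacobian factor on both sides, see `lint_scale`, CDc), `∑_j res σ ν n' j a = a` (the arcs partition `arc σ ν ν 0`), `a' ≤ ν`.
Then integrate over `u ∈ I`: Minkowski (`mink` from Dcp/L1a with `p = P l ≥ 2`, `H_j u = ∫⁻ x ...`).  Measurability: everything is continuous.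
-/

set_option autoImplicit false

namespace Pool.Agent.Dcs

open MeasureTheory Finset Pool.Agent.Dcp
open scoped ENNReal

/-- the integer of index `j` -/
private def cdn (ν σ j : ℕ) : ℤ := (j : ℤ) - σ * 2 ^ ν

/-- one term -/
private noncomputable def cdT (l : ℕ) (a : ℤ → ℂ) (u : ℝ) (ν σ j : ℕ) (X : E l) : ℂ :=
  (a (cdn ν σ j) * ee ((cdn ν σ j : ℝ) * u)) *
    ee ((fun q : Fin l => ((cdn ν σ j : ℝ) / 2 ^ ν) ^ (q.val + 2)) ⬝ᵥ X)

/-- the weight -/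
private noncomputable def cdH (l ν : ℕ) (τ L X : E l) : ℝ :=
  Ph (fun i => (X i - (2 : ℝ) ^ (ν * (i.val + 2)) * τ i) / ((2 : ℝ) ^ (ν * (i.val + 2)) * L i))

private theorem cdT_cont (l : ℕ) (a : ℤ → ℂ) (u : ℝ) (ν σ j : ℕ) :
    Continuous (cdT l a u ν σ j) := by
  unfold cdT
  refine continuous_const.mul (ee_cont.comp ?_)
  unfold dotProduct
  fun_prop

private theorem cdH_cont (l ν : ℕ) (τ L : E l) : Continuous (cdH l ν τ L) := by
  unfold cdH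
  refine (Ph_cont l).comp ?_
  refine continuous_pi fun i => ?_
  exact ((continuous_apply i).sub continuous_const).div_const _

/-- the spectrum of an anisotropic weight -/
private theorem Ph_spec' (l : ℕ) {R : E l} (hR : ∀ i, 0 < R i) (z : E l) :
    Spec {ξ : E l | ∀ i, |ξ i| ≤ 1 / R i}
      (fun y => ((Ph (fun i => (y i - z i) / R i) : ℝ) : ℂ)) := by
  have key : ∀ s : Finset (Fin l),
      Spec {ξ : E l | (∀ i ∈ s, |ξ i| ≤ 1 / R i) ∧ ∀ i, i ∉ s → ξ i = 0}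
        (fun y => ∏ i ∈ s, ((ph ((y i - z i) / R i) : ℝ) : ℂ)) := by
    intro s
    induction s using Finset.induction_on with
    | empty =>
      have h := spec_exp (0 : E l) 1
      have e : (fun x : E l => (1 : ℂ) * ee ((0 : E l) ⬝ᵥ x)) =
          fun y => ∏ i ∈ (∅ : Finset (Fin l)), ((ph ((y i - z i) / R i) : ℝ) : ℂ) := by
        funext y
        simp [ee_zero]
      rw [e] at h
      refine spec_mono h ?_
      rintro ξ hξ
      rw [Set.mem_singleton_iff] at hξ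
      subst hξ
      simp
    | insert a s ha ih =>
      have h := spec_mul (Ω'' := {ξ : E l | (∀ i ∈ insert a s, |ξ i| ≤ 1 / R i) ∧
        ∀ i, i ∉ insert a s → ξ i = 0}) (ph_spec a (hR a) (z a)) ih ?_
      · have e : (fun y : E l => ∏ i ∈ insert a s, ((ph ((y i - z i) / R i) : ℝ) : ℂ)) =
            fun y => ((ph ((y a - z a) / R a) : ℝ) : ℂ) *
              ∏ i ∈ s, ((ph ((y i - z i) / R i) : ℝ) : ℂ) := by
          funext y
          rw [Finset.prod_insert ha]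
        rw [e]
        exact h
      · rintro ξ ⟨h1, h2⟩ η ⟨h3, h4⟩
        refine ⟨fun i hi => ?_, fun i hi => ?_⟩
        · rcases Finset.mem_insert.1 hi with hia | his
          · subst hia
            rw [Pi.add_apply, h4 i ha, add_zero]
            exact h1
          · have hne : i ≠ a := fun hia => ha (hia ▸ his)
            rw [Pi.add_apply, h2 i hne, zero_add]
            exact h3 i his
        · rw [Finset.mem_insert, not_or] at hi
          rw [Pi.add_apply, h2 i hi.1, h4 i hi.2, add_zero]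
  have h := key Finset.univ
  have e : (fun y : E l => ((Ph (fun i => (y i - z i) / R i) : ℝ) : ℂ)) =
      fun y => ∏ i, ((ph ((y i - z i) / R i) : ℝ) : ℂ) := by
    funext y
    unfold Ph
    push_cast
    rfl
  rw [e]
  refine spec_mono h ?_
  rintro ξ ⟨h1, _⟩ i
  exact h1 i (Finset.mem_univ _)

private theorem cd_FS (l : ℕ) (a : ℤ → ℂ) (u : ℝ) (ν σ m i : ℕ) (x : E l) :
    FS (l + 1) (arc σ ν m i) a (Fin.cons u x) =
      ∑ j ∈ bk m i, cdT l a u ν σ j (fun q => (2 : ℝ) ^ (ν * (q.val + 2)) * x q) := by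
  unfold FS arc
  rw [Finset.sum_image (by
    intro j _ j' _ h
    have h' : (j : ℤ) - σ * 2 ^ ν = (j' : ℤ) - σ * 2 ^ ν := h
    omega)]
  refine Finset.sum_congr rfl fun j _ => ?_
  rw [Fin.sum_univ_succ, ee_add]
  unfold cdT
  change a (cdn ν σ j) * (ee ((cdn ν σ j : ℝ) ^ (0 + 1) * u) *
    ee (∑ q : Fin l, (cdn ν σ j : ℝ) ^ (q.val + 1 + 1) * x q)) = _
  rw [zero_add, pow_one, mul_assoc]
  congr 3
  unfold dotProduct
  refine Finset.sum_congr rfl fun q _ => ?_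
  change (cdn ν σ j : ℝ) ^ (q.val + 1 + 1) * x q =
    ((cdn ν σ j : ℝ) / 2 ^ ν) ^ (q.val + 2) * ((2 : ℝ) ^ (ν * (q.val + 2)) * x q)
  rw [div_pow, ← pow_mul]
  have h2 : (2 : ℝ) ^ (ν * (q.val + 2)) ≠ 0 := by positivity
  field_simp

private theorem cd_wt (l ν : ℕ) {τ L : E l} (hL : ∀ i, 0 < L i) (x : E l) :
    Ph (fun i => (x i - τ i) / L i) =
      cdH l ν τ L (fun q => (2 : ℝ) ^ (ν * (q.val + 2)) * x q) := by
  unfold cdH
  congr 1
  funext q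
  have h2 : (2 : ℝ) ^ (ν * (q.val + 2)) ≠ 0 := by positivity
  have h3 : L q ≠ 0 := (hL q).ne'
  field_simp

private theorem cd_lint (l ν : ℕ) : ∃ Λ : ℝ≥0∞, Λ ≠ 0 ∧ Λ ≠ ⊤ ∧ ∀ G : E l → ℝ≥0∞, Measurable G →
    ∫⁻ x : E l, G (fun q => (2 : ℝ) ^ (ν * (q.val + 2)) * x q) = Λ * ∫⁻ x, G x := by
  have hdet : (Matrix.diagonal (fun q : Fin l => (2 : ℝ) ^ (ν * (q.val + 2)))).det ≠ 0 := by
    rw [Matrix.det_diagonal]
    exact Finset.prod_ne_zero_iff.2 fun q _ => by positivity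
  refine ⟨ENNReal.ofReal |(Matrix.diagonal
    (fun q : Fin l => (2 : ℝ) ^ (ν * (q.val + 2)))).det|⁻¹, ?_, ENNReal.ofReal_ne_top,
    fun G hG => ?_⟩
  · rw [Ne, ENNReal.ofReal_eq_zero, not_le]
    exact inv_pos.2 (abs_pos.2 hdet)
  · rw [← lint_mat _ hdet G hG]
    refine lintegral_congr fun x => ?_
    congr 1
    funext q
    rw [Matrix.mulVec_diagonal]

private theorem cd_key (l : ℕ) {p : ℝ} (hp : 0 ≤ p) (a : ℤ → ℂ) (u : ℝ) (ν σ : ℕ) {τ L : E l}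
    (hL : ∀ i, 0 < L i) :
    ∃ Λ : ℝ≥0∞, Λ ≠ 0 ∧ Λ ≠ ⊤ ∧ ∀ m i : ℕ,
      ∫⁻ x : E l, ‖FS (l + 1) (arc σ ν m i) a (Fin.cons u x)‖ₑ ^ p *
          ENNReal.ofReal (Ph (fun i => (x i - τ i) / L i) ^ p) =
        Λ * nI p (fun X : E l => ∑ j ∈ bk m i, cdT l a u ν σ j X * ((cdH l ν τ L X : ℝ) : ℂ)) := by
  obtain ⟨Λ, h0, ht, hΛ⟩ := cd_lint l ν
  refine ⟨Λ, h0, ht, fun m i => ?_⟩
  have hmeas : Measurable (fun X : E l =>
      ‖∑ j ∈ bk m i, cdT l a u ν σ j X * ((cdH l ν τ L X : ℝ) : ℂ)‖ₑ ^ p) := by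
    have hc : Continuous (fun X : E l =>
        ∑ j ∈ bk m i, cdT l a u ν σ j X * ((cdH l ν τ L X : ℝ) : ℂ)) :=
      continuous_finsetSum _ fun j _ => (cdT_cont l a u ν σ j).mul
        (Complex.continuous_ofReal.comp (cdH_cont l ν τ L))
    exact (hc.measurable.enorm).pow_const p
  unfold nI
  rw [← hΛ _ hmeas]
  refine lintegral_congr fun x => ?_
  rw [cd_FS, cd_wt l ν hL, ← Finset.sum_mul, enorm_mul, ENNReal.mul_rpow_of_nonneg _ _ hp]
  congr 1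
  have hpos : 0 < cdH l ν τ L (fun q => (2 : ℝ) ^ (ν * (q.val + 2)) * x q) := Ph_pos _
  rw [← ENNReal.ofReal_rpow_of_pos hpos]
  congr 1
  rw [← ofReal_norm, Complex.norm_real, Real.norm_of_nonneg hpos.le]

private theorem cd_spec (l ν n' σ i j : ℕ) (a : ℤ → ℂ) (u : ℝ) {τ L : E l} (hσ : σ ≤ 1)
    (hn' : n' ≤ ν) (ha : ∀ n : ℤ, 2 * |n| < 2 ^ ν → a n = 0)
    (hL : ∀ j : Fin l, 0 < L j ∧ (2 : ℝ) ^ (l * (ν - n')) ≤ 2 ^ (ν * (j.val + 2)) * L j)
    (hi : i < 2 ^ (ν - n')) (hj : j ∈ bk n' i) :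
    Spec (UG 1 l (1 / 2) 1 (-(σ : ℝ) + (i : ℝ) / 2 ^ (ν - n')) (1 / 2 ^ (ν - n')))
      (fun X : E l => cdT l a u ν σ j X * ((cdH l ν τ L X : ℝ) : ℂ)) := by
  by_cases ha0 : a (cdn ν σ j) = 0
  · have : (fun X : E l => cdT l a u ν σ j X * ((cdH l ν τ L X : ℝ) : ℂ)) = fun _ => 0 := by
      funext X
      unfold cdT
      rw [ha0]
      ring
    rw [this]
    exact spec_zero _
  have hN : (0 : ℝ) < 2 ^ ν := by positivity
  have hA : (0 : ℝ) < 2 ^ (ν - n') := by positivity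
  have hB : (0 : ℝ) < 2 ^ n' := by positivity
  have eN : (2 : ℝ) ^ ν = 2 ^ (ν - n') * 2 ^ n' := by rw [← pow_add, Nat.sub_add_cancel hn']
  obtain ⟨hj1, hj2⟩ := mem_bk.1 hj
  have hj1' : (i : ℝ) * 2 ^ n' ≤ j := by exact_mod_cast hj1
  have hj2' : (j : ℝ) ≤ ((i : ℝ) + 1) * 2 ^ n' := by exact_mod_cast hj2.le
  have hjN : j < 2 ^ ν := by
    have h := bk_lt (m := ν) (a := ν - n') (i := i) (j := j) (Nat.sub_le _ _) hi
    rw [Nat.sub_sub_self hn'] at h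
    exact h hj
  have hjN' : (j : ℝ) ≤ 2 ^ ν := by exact_mod_cast hjN.le
  have hj0 : (0 : ℝ) ≤ j := Nat.cast_nonneg j
  have hn : ((cdn ν σ j : ℤ) : ℝ) = (j : ℝ) - σ * 2 ^ ν := by
    unfold cdn
    push_cast
    ring
  have hs : ((cdn ν σ j : ℤ) : ℝ) / 2 ^ ν = (j : ℝ) / 2 ^ ν - σ := by
    rw [hn]
    field_simp
  have hR : ∀ q : Fin l, 0 < (2 : ℝ) ^ (ν * (q.val + 2)) * L q := fun q =>
    mul_pos (by positivity) (hL q).1
  refine spec_mul (spec_exp _ _)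
    (Ph_spec' l hR (fun i => (2 : ℝ) ^ (ν * (i.val + 2)) * τ i)) ?_
  rintro ξ hξ η hη
  rw [Set.mem_singleton_iff] at hξ
  subst hξ
  have h1 : (i : ℝ) / 2 ^ (ν - n') ≤ (j : ℝ) / 2 ^ ν := by
    rw [div_le_div_iff₀ hA hN, eN]
    nlinarith
  have h2 : (j : ℝ) / 2 ^ ν ≤ (i : ℝ) / 2 ^ (ν - n') + 1 / 2 ^ (ν - n') := by
    rw [← add_div, div_le_div_iff₀ hN hA, eN]
    nlinarith
  have h3 : (1 : ℝ) / 2 ≤ |((cdn ν σ j : ℤ) : ℝ) / 2 ^ ν| := by
    have h4 : ¬ 2 * |cdn ν σ j| < 2 ^ ν := fun h => ha0 (ha _ h)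
    rw [not_lt] at h4
    have h5 : (2 : ℝ) ^ ν ≤ 2 * |((cdn ν σ j : ℤ) : ℝ)| := by exact_mod_cast h4
    rw [abs_div, abs_of_pos hN, le_div_iff₀ hN]
    linarith
  have h4 : |((cdn ν σ j : ℤ) : ℝ) / 2 ^ ν| ≤ 1 := by
    rw [abs_div, abs_of_pos hN, div_le_one hN, hn, abs_le]
    have hσ' : σ = 0 ∨ σ = 1 := by omega
    rcases hσ' with rfl | rfl
    · simp only [Nat.cast_zero, zero_mul, sub_zero]
      constructor <;> linarith
    · simp only [Nat.cast_one, one_mul]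
      constructor <;> linarith
  have h5 : ∀ q : Fin l, (1 : ℝ) / ((2 : ℝ) ^ (ν * (q.val + 2)) * L q) ≤
      1 * (1 / 2 ^ (ν - n')) ^ l := by
    intro q
    rw [one_mul, div_pow, one_pow, ← pow_mul, mul_comm (ν - n') l]
    exact one_div_le_one_div_of_le (by positivity) (hL q).2
  refine ⟨((cdn ν σ j : ℤ) : ℝ) / 2 ^ ν, 0, η, ?_, ?_, h3, h4, ?_, ?_, ?_⟩
  · rw [hs]
    linarith
  · rw [hs]
    linarith
  · intro q
    rw [Pi.zero_apply, abs_zero]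
    positivity
  · intro q
    exact (hη q).trans (h5 q)
  · funext q
    unfold pt mc
    simp only [Pi.add_apply, Pi.zero_apply, zero_mul, Finset.sum_const_zero, add_zero,
      Fin.val_natAdd]
    congr 2
    omega

/-- the inequality on one slice -/
private theorem slice (l : ℕ) (hl : 1 ≤ l) {ε : ℝ} (hε : 0 < ε) : ∃ K : ℝ≥0∞, K ≠ ⊤ ∧
    ∀ (ν n' σ : ℕ) (a : ℤ → ℂ) (u : ℝ) (τ L : E l), σ ≤ 1 → n' ≤ ν →
      (∀ n : ℤ, 2 * |n| < 2 ^ ν → a n = 0) →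
      (∀ j : Fin l, 0 < L j ∧ (2 : ℝ) ^ (l * (ν - n')) ≤ 2 ^ (ν * (j.val + 2)) * L j) →
      ∫⁻ x : E l, ‖FS (l + 1) (arc σ ν ν 0) a (Fin.cons u x)‖ₑ ^ P l *
          ENNReal.ofReal (Ph (fun i => (x i - τ i) / L i) ^ P l) ≤
        (K * 2 ^ (ε * ν)) ^ P l * (∑ i ∈ range (2 ^ (ν - n')),
          (∫⁻ x : E l, ‖FS (l + 1) (arc σ ν n' i) a (Fin.cons u x)‖ₑ ^ P l *
            ENNReal.ofReal (Ph (fun i => (x i - τ i) / L i) ^ P l)) ^ (2 / P l)) ^ (P l / 2) := by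
  obtain ⟨K, hK, H⟩ := ln 1 l hl (dec_all l hl) (κ := 1 / 2) (by norm_num) (C := 1) le_rfl hε
  refine ⟨K, hK, fun ν n' σ a u τ L hσ hn' ha hL => ?_⟩
  have hlR : (1 : ℝ) ≤ l := by exact_mod_cast hl
  have hP : 0 < P l := by
    unfold P
    positivity
  obtain ⟨Λ, h0, ht, hΛ⟩ := cd_key l hP.le a u ν σ (τ := τ) (fun i => (hL i).1)
  rw [hΛ ν 0]
  simp only [hΛ n']
  set F : ℕ → E l → ℂ := fun i X =>
    ∑ j ∈ bk n' i, cdT l a u ν σ j X * ((cdH l ν τ L X : ℝ) : ℂ) with hF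
  have hspec : ∀ i : ℕ, i < 2 ^ (ν - n') →
      Spec (UG 1 l (1 / 2) 1 (-(σ : ℝ) + (i : ℝ) / 2 ^ (ν - n')) (1 / 2 ^ (ν - n'))) (F i) :=
    fun i hi => spec_sum _ _ fun j hj => cd_spec l ν n' σ i j a u hσ hn' ha hL hi hj
  have h1 := H (ν - n') (-(σ : ℝ)) F hspec
  have hsum : (fun X => ∑ j ∈ bk ν 0, cdT l a u ν σ j X * ((cdH l ν τ L X : ℝ) : ℂ)) =
      fun X => ∑ i ∈ range (2 ^ (ν - n')), F i X := by
    funext X
    rw [← bk_zero, hF]
    have h2 := sum_nest (fun j => cdT l a u ν σ j X * ((cdH l ν τ L X : ℝ) : ℂ)) n'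
      (ν - n') 0
    rw [show n' + (ν - n') = ν by omega] at h2
    exact h2
  rw [hsum]
  have h2 : (∑ i ∈ range (2 ^ (ν - n')), (Λ * nI (P l) (F i)) ^ (2 / P l)) ^ (P l / 2) =
      Λ * S2 (P l) (range (2 ^ (ν - n'))) F ^ (P l / 2) := by
    unfold S2
    have e1 : ∀ i, (Λ * nI (P l) (F i)) ^ (2 / P l) =
        Λ ^ (2 / P l) * nI (P l) (F i) ^ (2 / P l) := fun i =>
      ENNReal.mul_rpow_of_nonneg _ _ (by positivity)
    rw [Finset.sum_congr rfl fun i _ => e1 i, ← Finset.mul_sum,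
      ENNReal.mul_rpow_of_nonneg _ _ (by positivity), ← ENNReal.rpow_mul]
    have e2 : 2 / P l * (P l / 2) = 1 := by field_simp
    rw [e2, ENNReal.rpow_one]
  change Λ * nI (P l) (fun X => ∑ i ∈ range (2 ^ (ν - n')), F i X) ≤
    (K * 2 ^ (ε * ν)) ^ P l *
      (∑ i ∈ range (2 ^ (ν - n')), (Λ * nI (P l) (F i)) ^ (2 / P l)) ^ (P l / 2)
  rw [h2]
  have h3 : (K * 2 ^ (ε * ((ν - n' : ℕ) : ℝ))) ^ P l ≤ (K * 2 ^ (ε * ν)) ^ P l := by
    refine ENNReal.rpow_le_rpow ?_ hP.le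
    refine mul_le_mul_right ?_ K
    refine ENNReal.rpow_le_rpow_of_exponent_le (by norm_num) ?_
    refine mul_le_mul_of_nonneg_left ?_ hε.le
    exact_mod_cast Nat.sub_le _ _
  calc Λ * nI (P l) (fun X => ∑ i ∈ range (2 ^ (ν - n')), F i X)
      ≤ Λ * ((K * 2 ^ (ε * ((ν - n' : ℕ) : ℝ))) ^ P l *
        S2 (P l) (range (2 ^ (ν - n'))) F ^ (P l / 2)) := by gcongr
    _ ≤ Λ * ((K * 2 ^ (ε * ν)) ^ P l * S2 (P l) (range (2 ^ (ν - n'))) F ^ (P l / 2)) := by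
        gcongr
    _ = _ := by ring

/-- arcs are contained in `S0 ν` -/
private theorem arc_sub {σ ν n' i : ℕ} (hσ : σ ≤ 1) (hn' : n' ≤ ν) (hi : i < 2 ^ (ν - n')) :
    arc σ ν n' i ⊆ S0 ν := by
  intro m hm
  unfold arc at hm
  rw [Finset.mem_image] at hm
  obtain ⟨j, hj, rfl⟩ := hm
  have hjN : j < 2 ^ ν := by
    have h := bk_lt (m := ν) (a := ν - n') (i := i) (j := j) (Nat.sub_le _ _) hi
    rw [Nat.sub_sub_self hn'] at h
    exact h hj
  have hjZ : (j : ℤ) < 2 ^ ν := by exact_mod_cast hjN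
  have hp : (0 : ℤ) < 2 ^ ν := by positivity
  have hj0 : (0 : ℤ) ≤ j := Int.natCast_nonneg j
  unfold S0
  rw [Finset.mem_Icc]
  have hσ' : σ = 0 ∨ σ = 1 := by omega
  rcases hσ' with rfl | rfl
  · simp only [Nat.cast_zero, zero_mul, sub_zero]
    constructor <;> linarith
  · simp only [Nat.cast_one, one_mul]
    constructor <;> linarith

private theorem FS_res {l σ ν n' i : ℕ} (a : ℤ → ℂ) (hσ : σ ≤ 1) (hn' : n' ≤ ν)
    (hi : i < 2 ^ (ν - n')) (x : E (l + 1)) :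
    FS (l + 1) (S0 ν) (res σ ν n' i a) x = FS (l + 1) (arc σ ν n' i) a x := by
  unfold FS
  rw [← Finset.sum_subset (arc_sub hσ hn' hi)]
  · refine Finset.sum_congr rfl fun m hm => ?_
    unfold res
    rw [if_pos hm]
  · intro m _ hm
    unfold res
    rw [if_neg hm, zero_mul]

private theorem FS_sup {l σ ν : ℕ} (a : ℤ → ℂ) (hσ : σ ≤ 1) (ha : Sup σ ν ν 0 a) (x : E (l + 1)) :
    FS (l + 1) (S0 ν) a x = FS (l + 1) (arc σ ν ν 0) a x := by
  unfold FS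
  rw [← Finset.sum_subset (arc_sub hσ le_rfl (by positivity))]
  intro m _ hm
  have : a m = 0 := by
    by_contra h
    exact hm (ha m h).1
  rw [this, zero_mul]

private theorem cons_cont (l : ℕ) :
    Continuous (fun p : ℝ × E l => (Fin.cons p.1 p.2 : E (l + 1))) := by
  refine continuous_pi fun i => ?_
  refine Fin.cases ?_ (fun i => ?_) i
  · simpa using continuous_fst
  · have h : Continuous (fun p : ℝ × E l => p.2 i) := (continuous_apply i).comp continuous_snd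
    simpa using h

private theorem FS_meas (l : ℕ) (s : Finset ℤ) (a : ℤ → ℂ) (τ L : E l) :
    Measurable (fun u : ℝ => ∫⁻ x : E l, ‖FS (l + 1) s a (Fin.cons u x)‖ₑ ^ P l *
      ENNReal.ofReal (Ph (fun i => (x i - τ i) / L i) ^ P l)) := by
  have h1 : Continuous (fun p : ℝ × E l => FS (l + 1) s a (Fin.cons p.1 p.2)) := by
    unfold FS
    refine continuous_finsetSum _ fun m _ => continuous_const.mul (ee_cont.comp ?_)
    refine continuous_finsetSum _ fun i _ => continuous_const.mul ?_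
    exact (continuous_apply i).comp (cons_cont l)
  have h2 : Continuous (fun p : ℝ × E l => Ph (fun i => (p.2 i - τ i) / L i)) := by
    refine (Ph_cont l).comp ?_
    refine continuous_pi fun i => ?_
    exact (((continuous_apply i).comp continuous_snd).sub continuous_const).div_const _
  have h3 : Measurable (fun p : ℝ × E l => ‖FS (l + 1) s a (Fin.cons p.1 p.2)‖ₑ ^ P l *
      ENNReal.ofReal (Ph (fun i => (p.2 i - τ i) / L i) ^ P l)) :=
    (h1.measurable.enorm.pow_const _).mul (h2.measurable.pow_const _).ennreal_ofReal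
  exact h3.lintegral_prod_right'

theorem dln (l : ℕ) (hl : 1 ≤ l) {ε : ℝ} (hε : 0 < ε) : ∃ K : ℝ≥0∞, K ≠ ⊤ ∧
    ∀ (ν n' σ : ℕ) (a : ℤ → ℂ) (I : Set ℝ) (τ L : E l), σ ≤ 1 → n' ≤ ν → Sup σ ν ν 0 a →
      MeasurableSet I →
      (∀ j : Fin l, 0 < L j ∧ (2 : ℝ) ^ (l * (ν - n')) ≤ 2 ^ (ν * (j.val + 2)) * L j) →
      ∫⁻ u in I, ∫⁻ x : E l, ‖FS (l + 1) (S0 ν) a (Fin.cons u x)‖ₑ ^ P l *
          ENNReal.ofReal (Ph (fun i => (x i - τ i) / L i) ^ P l) ≤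
        (K * 2 ^ (ε * ν)) ^ P l * (∑ j ∈ range (2 ^ (ν - n')),
          (∫⁻ u in I, ∫⁻ x : E l, ‖FS (l + 1) (S0 ν) (res σ ν n' j a) (Fin.cons u x)‖ₑ ^ P l *
            ENNReal.ofReal (Ph (fun i => (x i - τ i) / L i) ^ P l)) ^ (2 / P l)) ^ (P l / 2) := by
  obtain ⟨K, hK, H⟩ := slice l hl hε
  refine ⟨K, hK, fun ν n' σ a I τ L hσ hn' ha hI hL => ?_⟩
  have hP2 : 2 ≤ P l := ln_P hl
  have hP0 : 0 < P l := by linarith
  have ha' : ∀ n : ℤ, 2 * |n| < 2 ^ ν → a n = 0 := by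
    intro n hn
    by_contra h
    exact absurd (ha n h).2 (not_le.2 hn)
  have hc : (K * 2 ^ (ε * ν)) ^ P l ≠ ⊤ := by
    refine ENNReal.rpow_ne_top_of_nonneg hP0.le (ENNReal.mul_ne_top hK ?_)
    exact ENNReal.rpow_ne_top_of_nonneg (by positivity) ENNReal.ofNat_ne_top
  have e1 : ∀ u : ℝ, ∫⁻ x : E l, ‖FS (l + 1) (S0 ν) a (Fin.cons u x)‖ₑ ^ P l *
      ENNReal.ofReal (Ph (fun i => (x i - τ i) / L i) ^ P l) =
      ∫⁻ x : E l, ‖FS (l + 1) (arc σ ν ν 0) a (Fin.cons u x)‖ₑ ^ P l *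
      ENNReal.ofReal (Ph (fun i => (x i - τ i) / L i) ^ P l) := by
    intro u
    refine lintegral_congr fun x => ?_
    rw [FS_sup a hσ ha]
  have e2 : ∀ j ∈ range (2 ^ (ν - n')), ∀ u : ℝ,
      ∫⁻ x : E l, ‖FS (l + 1) (S0 ν) (res σ ν n' j a) (Fin.cons u x)‖ₑ ^ P l *
      ENNReal.ofReal (Ph (fun i => (x i - τ i) / L i) ^ P l) =
      ∫⁻ x : E l, ‖FS (l + 1) (arc σ ν n' j) a (Fin.cons u x)‖ₑ ^ P l *
      ENNReal.ofReal (Ph (fun i => (x i - τ i) / L i) ^ P l) := by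
    intro j hj u
    refine lintegral_congr fun x => ?_
    rw [FS_res a hσ hn' (mem_range.1 hj)]
  have e3 : (∑ j ∈ range (2 ^ (ν - n')),
      (∫⁻ u in I, ∫⁻ x : E l, ‖FS (l + 1) (S0 ν) (res σ ν n' j a) (Fin.cons u x)‖ₑ ^ P l *
        ENNReal.ofReal (Ph (fun i => (x i - τ i) / L i) ^ P l)) ^ (2 / P l)) =
      ∑ j ∈ range (2 ^ (ν - n')),
      (∫⁻ u in I, ∫⁻ x : E l, ‖FS (l + 1) (arc σ ν n' j) a (Fin.cons u x)‖ₑ ^ P l *
        ENNReal.ofReal (Ph (fun i => (x i - τ i) / L i) ^ P l)) ^ (2 / P l) := by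
    refine Finset.sum_congr rfl fun j hj => ?_
    congr 1
    exact lintegral_congr fun u => e2 j hj u
  rw [e3]
  have h1 := mink (volume.restrict I) hP2 (range (2 ^ (ν - n')))
    (fun j u => ∫⁻ x : E l, ‖FS (l + 1) (arc σ ν n' j) a (Fin.cons u x)‖ₑ ^ P l *
      ENNReal.ofReal (Ph (fun i => (x i - τ i) / L i) ^ P l))
    (fun j _ => (FS_meas l _ a τ L).aemeasurable)
  calc ∫⁻ u in I, ∫⁻ x : E l, ‖FS (l + 1) (S0 ν) a (Fin.cons u x)‖ₑ ^ P l *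
          ENNReal.ofReal (Ph (fun i => (x i - τ i) / L i) ^ P l)
      ≤ ∫⁻ u in I, (K * 2 ^ (ε * ν)) ^ P l * (∑ i ∈ range (2 ^ (ν - n')),
          (∫⁻ x : E l, ‖FS (l + 1) (arc σ ν n' i) a (Fin.cons u x)‖ₑ ^ P l *
            ENNReal.ofReal (Ph (fun i => (x i - τ i) / L i) ^ P l)) ^ (2 / P l)) ^ (P l / 2) := by
        refine lintegral_mono fun u => ?_
        rw [e1 u]
        exact H ν n' σ a u τ L hσ hn' ha' hL
    _ = (K * 2 ^ (ε * ν)) ^ P l * ∫⁻ u in I, (∑ i ∈ range (2 ^ (ν - n')),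
          (∫⁻ x : E l, ‖FS (l + 1) (arc σ ν n' i) a (Fin.cons u x)‖ₑ ^ P l *
            ENNReal.ofReal (Ph (fun i => (x i - τ i) / L i) ^ P l)) ^ (2 / P l)) ^ (P l / 2) :=
        lintegral_const_mul' _ _ hc
    _ ≤ _ := mul_le_mul_right h1 _

end Pool.Agent.Dcs
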