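import Pool.Agent.Dcs.Defs
import Pool.Agent.Dcp.Snc
import Pool.Agent.Dcp.WSm
import Pool.Agent.Dcp.Lin

/-!
# Dcs, module DstX: auxiliary lemmas for the decoupling step (Dst)
-/

set_option autoImplicit false

namespace Pool.Agent.Dcs

open MeasureTheory Finset Pool.Agent.Dcp
open scoped ENNReal

theorem ds_split (l : ℕ) {F : E (l + 1) → ℝ≥0∞} (hF : Measurable F) :
    ∫⁻ x, F x = ∫⁻ s : ℝ, ∫⁻ x : E l, F (Fin.cons s x) := by
  have hmp := volume_preserving_piFinSuccAbove (fun _ : Fin (l + 1) => ℝ) 0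
  have h3 := (MeasurePreserving.symm _ hmp).lintegral_comp hF
  rw [← h3]
  have h4 : ∫⁻ q : ℝ × E l, F (Fin.cons q.1 q.2) =
      ∫⁻ s : ℝ, ∫⁻ x : E l, F (Fin.cons s x) :=
    lintegral_prod _ (hF.comp (wSm_cons_meas l)).aemeasurable
  rw [← h4]
  exact lintegral_congr (fun q => by rw [wSm_symm])

theorem ds_bx_meas {d : ℕ} (τ r : E d) : MeasurableSet (bx τ r) :=
  MeasurableSet.univ_pi (fun _ => measurableSet_Ico)

theorem ds_box (l : ℕ) (τ r : E (l + 1)) {F : E (l + 1) → ℝ≥0∞} (hF : Measurable F) :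
    ∫⁻ x in bx τ r, F x = ∫⁻ u in Set.Ico (τ 0) (τ 0 + r 0),
      ∫⁻ x in bx (fun i : Fin l => τ i.succ) (fun i : Fin l => r i.succ), F (Fin.cons u x) := by
  have hG : Measurable ((bx τ r).indicator F) := hF.indicator (ds_bx_meas _ _)
  rw [← lintegral_indicator (ds_bx_meas τ r), ds_split l hG, ← lintegral_indicator measurableSet_Ico]
  refine lintegral_congr (fun u => ?_)
  by_cases hu : u ∈ Set.Ico (τ 0) (τ 0 + r 0)
  · rw [Set.indicator_of_mem hu, ← lintegral_indicator (ds_bx_meas _ _)]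
    refine lintegral_congr (fun x => ?_)
    by_cases hx : x ∈ bx (fun i : Fin l => τ i.succ) (fun i : Fin l => r i.succ)
    · rw [Set.indicator_of_mem hx, Set.indicator_of_mem]
      intro i _
      refine Fin.cases ?_ (fun j => ?_) i
      · simpa using hu
      · simpa using hx j (Set.mem_univ j)
    · rw [Set.indicator_of_notMem hx, Set.indicator_of_notMem]
      intro h
      exact hx (fun j _ => by simpa using h j.succ (Set.mem_univ j.succ))
  · rw [Set.indicator_of_notMem hu]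
    have : ∀ x : E l, (bx τ r).indicator F (Fin.cons u x) = 0 := by
      intro x
      refine Set.indicator_of_notMem (fun h => hu ?_) _
      simpa using h 0 (Set.mem_univ 0)
    simp only [this, lintegral_zero]

theorem ds_scale (l : ℕ) (τ L : E l) (hL : ∀ i, 0 < L i) (G : E l → ℝ≥0∞) (hG : Measurable G) :
    ∫⁻ x : E l, G (fun i => (x i - τ i) / L i) = ENNReal.ofReal (∏ i, L i) * ∫⁻ x, G x := by
  have hsub := lintegral_sub_right_eq_self (μ := (volume : Measure (E l)))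
    (fun y : E l => G (fun i => y i / L i)) τ
  have h1 : ∫⁻ x : E l, G (fun i => (x i - τ i) / L i) = ∫⁻ y : E l, G (fun i => y i / L i) := by
    rw [← hsub]
    rfl
  rw [h1]
  have hdet : (Matrix.diagonal (fun i => (L i)⁻¹) : Matrix (Fin l) (Fin l) ℝ).det = (∏ i, L i)⁻¹ := by
    rw [Matrix.det_diagonal, Finset.prod_inv_distrib]
  have hpos : 0 < ∏ i, L i := Finset.prod_pos fun i _ => hL i
  have h := lint_mat (Matrix.diagonal (fun i => (L i)⁻¹) : Matrix (Fin l) (Fin l) ℝ)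
    (by rw [hdet]; exact (inv_pos.mpr hpos).ne') G hG
  have h2 : ∀ x : E l, (Matrix.diagonal (fun i => (L i)⁻¹) : Matrix (Fin l) (Fin l) ℝ).mulVec x =
      fun i => x i / L i := by
    intro x
    funext i
    rw [Matrix.mulVec_diagonal, div_eq_inv_mul]
  simp only [h2] at h
  rw [h, hdet, abs_of_pos (inv_pos.mpr hpos), inv_inv]

theorem ds_shift (l : ℕ) {p : ℝ} (hp : 0 ≤ p) : ∃ C : ℝ≥0∞, C ≠ ⊤ ∧ ∀ w v : E l,
    (∀ i, |v i| ≤ 1) → ENNReal.ofReal (Ph w ^ p) ≤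
      C * ENNReal.ofReal (Ph (fun i => w i - v i) ^ p) := by
  obtain ⟨C, hC, h⟩ := Ph_shift l 1
  refine ⟨ENNReal.ofReal (C ^ p), ENNReal.ofReal_ne_top, fun w v hv => ?_⟩
  rw [← ENNReal.ofReal_mul (by positivity)]
  refine ENNReal.ofReal_le_ofReal ?_
  have h1 := h (fun i => w i - v i) (fun i => - v i) (fun i => by rw [abs_neg]; exact hv i)
  have h2 : (fun i => (fun i => w i - v i) i - (fun i => - v i) i) = w := by
    funext i
    simp
  rw [h2] at h1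
  rw [← Real.mul_rpow hC.le (Ph_pos _).le]
  exact Real.rpow_le_rpow (Ph_pos _).le h1 hp

theorem ds_mem_arc {σ ν n j : ℕ} {m : ℤ} (h : m ∈ arc σ ν n j) :
    (m + σ * 2 ^ ν).toNat / 2 ^ n = j ∧ 0 ≤ m + σ * 2 ^ ν := by
  unfold arc bk at h
  rw [Finset.mem_image] at h
  obtain ⟨k, hk, hkm⟩ := h
  rw [Finset.mem_Ico] at hk
  have e : m + σ * 2 ^ ν = (k : ℤ) := by
    rw [← hkm]
    ring
  rw [e, Int.toNat_natCast]
  refine ⟨?_, Int.natCast_nonneg _⟩
  have hpos : 0 < 2 ^ n := Nat.two_pow_pos n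
  rw [Nat.div_eq_iff hpos]
  have h2 : (j + 1) * 2 ^ n = 2 ^ n * j + 2 ^ n := by ring
  have h3 : j * 2 ^ n = 2 ^ n * j := by ring
  constructor
  · omega
  · omega

theorem ds_arc_full {σ ν n i : ℕ} (hn : n ≤ ν) (hi : i < 2 ^ (ν - n)) {m : ℤ}
    (h : m ∈ arc σ ν n i) : m ∈ arc σ ν ν 0 := by
  unfold arc bk at h ⊢
  rw [Finset.mem_image] at h ⊢
  obtain ⟨k, hk, hkm⟩ := h
  refine ⟨k, ?_, hkm⟩
  rw [Finset.mem_Ico] at hk ⊢
  refine ⟨by simp, ?_⟩
  have h1 : (i + 1) * 2 ^ n ≤ 2 ^ (ν - n) * 2 ^ n := Nat.mul_le_mul_right _ hi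
  have h2 : 2 ^ (ν - n) * 2 ^ n = 2 ^ ν := by
    rw [← pow_add]
    congr 1
    omega
  rw [h2] at h1
  omega

theorem ds_res_sum (σ ν n : ℕ) (s : Finset ℤ) (t : Finset ℕ) (a : ℤ → ℂ) :
    ∑ j ∈ t, ∑ m ∈ s, ‖res σ ν n j a m‖ₑ ^ 2 ≤ ∑ m ∈ s, ‖a m‖ₑ ^ 2 := by
  rw [Finset.sum_comm]
  refine Finset.sum_le_sum fun m _ => ?_
  have h1 : ∀ j ∈ t, ‖res σ ν n j a m‖ₑ ^ 2 ≤
      if (m + σ * 2 ^ ν).toNat / 2 ^ n = j then ‖a m‖ₑ ^ 2 else 0 := by
    intro j _
    unfold res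
    by_cases h : m ∈ arc σ ν n j
    · rw [if_pos h, if_pos (ds_mem_arc h).1]
    · rw [if_neg h]
      simp
  refine (Finset.sum_le_sum h1).trans ?_
  rw [Finset.sum_ite_eq]
  split_ifs
  · exact le_rfl
  · exact bot_le

theorem ds_sup_res {σ ν n n' i j : ℕ} {a : ℤ → ℂ} (ha : Sup σ ν n i a) :
    Sup σ ν n' j (res σ ν n' j a) := by
  intro m hm
  unfold res at hm
  by_cases h : m ∈ arc σ ν n' j
  · rw [if_pos h] at hm
    exact ⟨h, (ha m hm).2⟩
  · rw [if_neg h] at hm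
    exact absurd rfl hm

end Pool.Agent.Dcs
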