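import Pool.Agent.Dcs.Bxs
import Pool.Agent.Dcp.Snc

/-!
# Dcs, module Ext: boxes and band limited weights for periodic functions

`c = (min of ph on [0,1])^l`: for `x ∈ τ + ∏ [0, L_i]` the weight `Ph ((x_i - τ_i)/L_i)^p` is at least `c^p > 0` (`ph_lo`).
For `z ∈ ∏ range (q i)` the box `bx (τ + (z_i r_i)) r` is contained in `∏ [τ_i, τ_i + L_i)`, these boxes are disjoint, and
`∫_{bx (τ + z r) r} g = ∫_{bx τ r} g` by periodicity (`z_i r_i` is an integer: either `q i = 1`, `z_i = 0`, or `r i = 1`).  Therefore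
`(∏ q i) ∫_{bx τ r} g = ∑_z ∫_{bx (τ + z r) r} g ≤ c^(-p) ∫ g(x) Ph(..)^p dx`.
-/

set_option autoImplicit false

namespace Pool.Agent.Dcs

open MeasureTheory Finset Pool.Agent.Dcp
open scoped ENNReal

private theorem ext_mem {d : ℕ} {τ r x : E d} :
    x ∈ bx τ r ↔ ∀ i, τ i ≤ x i ∧ x i < τ i + r i := by
  unfold bx
  rw [Set.mem_univ_pi]
  exact Iff.rfl

/-- translation of a box by a vector with integer entries -/
private theorem ext_trans {l : ℕ} (g : E l → ℝ≥0∞) (τ r : E l)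
    (hper : ∀ (x : E l) (z : Fin l → ℤ), g (fun i => x i + z i) = g x) (v : E l) (w : Fin l → ℤ)
    (hv : ∀ i, v i = (w i : ℝ)) :
    ∫⁻ x in bx (fun i => τ i + v i) r, g x = ∫⁻ x in bx τ r, g x := by
  rw [bx_shift (fun i => τ i + v i) r g, bx_shift τ r g]
  refine lintegral_congr fun x => ?_
  rw [← hper (x + τ) w]
  congr 1
  funext i
  simp only [Pi.add_apply]
  rw [hv i]
  ring

private theorem ext_lo (l : ℕ) {p : ℝ} (hp : 1 ≤ p) : ∃ κ : ℝ, 0 < κ ∧ ∀ w : E l,
    (∀ i, 0 ≤ w i ∧ w i ≤ 1) → κ ≤ Ph w ^ p := by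
  obtain ⟨c, hc, h⟩ := ph_lo
  refine ⟨((c / 2) ^ l) ^ p, by positivity, fun w hw => ?_⟩
  have h1 : (c / 2) ^ l ≤ Ph w := by
    unfold Ph
    calc (c / 2) ^ l = ∏ _i : Fin l, (c / 2) := by
          rw [Finset.prod_const, Finset.card_univ, Fintype.card_fin]
      _ ≤ ∏ i, ph (w i) := by
          refine Finset.prod_le_prod (fun i _ => by positivity) fun i _ => ?_
          refine le_trans ?_ (h (w i))
          obtain ⟨h2, h3⟩ := hw i
          have h4 : 1 + w i ^ 2 ≤ 2 := by nlinarith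
          exact div_le_div_of_nonneg_left hc.le (by positivity) h4
  exact Real.rpow_le_rpow (by positivity) h1 (by linarith)

theorem ext_per (l : ℕ) {p : ℝ} (hp : 1 ≤ p) : ∃ C : ℝ≥0∞, C ≠ ⊤ ∧ ∀ (g : E l → ℝ≥0∞) (τ r L : E l)
    (q : Fin l → ℕ), Measurable g → (∀ (x : E l) (z : Fin l → ℤ), g (fun i => x i + z i) = g x) →
    (∀ i, 0 < r i ∧ 1 ≤ q i ∧ L i = q i * r i ∧ (q i = 1 ∨ r i = 1)) →
    ∫⁻ x in bx τ r, g x ≤ C * (∏ i, (q i : ℝ≥0∞)⁻¹) *
      ∫⁻ x, g x * ENNReal.ofReal (Ph (fun i => (x i - τ i) / L i) ^ p) := by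
  classical
  obtain ⟨κ, hκ, hlo⟩ := ext_lo l hp
  have hκ0 : ENNReal.ofReal κ ≠ 0 := by
    rw [Ne, ENNReal.ofReal_eq_zero, not_le]; exact hκ
  refine ⟨(ENNReal.ofReal κ)⁻¹, ENNReal.inv_ne_top.2 hκ0, fun g τ r L q hg hper hr => ?_⟩
  set F : Finset (Fin l → ℕ) := Fintype.piFinset (fun i => range (q i)) with hF
  set B : (Fin l → ℕ) → Set (E l) := fun z => bx (fun i => τ i + (z i : ℝ) * r i) r with hB
  have hqne : ∀ i, (q i : ℝ≥0∞) ≠ 0 := fun i => by
    have := (hr i).2.1
    have h2 : q i ≠ 0 := by omega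
    exact_mod_cast h2
  -- each box has the same integral
  have h1 : ∀ z ∈ F, ∫⁻ x in B z, g x = ∫⁻ x in bx τ r, g x := by
    intro z hz
    rw [hF, Fintype.mem_piFinset] at hz
    refine ext_trans g τ r hper (fun i => (z i : ℝ) * r i) (fun i => (z i : ℤ)) fun i => ?_
    rcases (hr i).2.2.2 with hq | hq
    · have := Finset.mem_range.1 (hz i)
      have h0 : z i = 0 := by omega
      simp [h0]
    · rw [hq]; simp
  -- sum of the integrals
  have h2 : ∑ z ∈ F, ∫⁻ x in B z, g x = (∏ i, (q i : ℝ≥0∞)) * ∫⁻ x in bx τ r, g x := by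
    rw [Finset.sum_congr rfl h1, Finset.sum_const, nsmul_eq_mul, hF, Fintype.card_piFinset]
    congr 1
    push_cast
    exact Finset.prod_congr rfl fun i _ => by rw [Finset.card_range]
  have hBm : ∀ z, MeasurableSet (B z) := fun z => bx_meas _ _
  have h3 : ∑ z ∈ F, ∫⁻ x in B z, g x = ∫⁻ x, ∑ z ∈ F, (B z).indicator g x := by
    rw [lintegral_finsetSum F fun z _ => hg.indicator (hBm z)]
    exact Finset.sum_congr rfl fun z _ => (lintegral_indicator (hBm z) g).symm
  have h4 : ∀ x, ∑ z ∈ F, (B z).indicator g x ≤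
      (ENNReal.ofReal κ)⁻¹ * (g x * ENNReal.ofReal (Ph (fun i => (x i - τ i) / L i) ^ p)) := by
    intro x
    by_cases hx : ∃ z ∈ F, x ∈ B z
    · obtain ⟨z, hz, hxz⟩ := hx
      have hzr : ∀ i, z i < q i := by
        rw [hF, Fintype.mem_piFinset] at hz
        exact fun i => Finset.mem_range.1 (hz i)
      have hxz' := ext_mem.1 hxz
      have h5 : ∑ z' ∈ F, (B z').indicator g x = (B z).indicator g x := by
        refine Finset.sum_eq_single_of_mem z hz fun z' _ hne => ?_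
        refine Set.indicator_of_notMem (fun hx' => hne ?_) g
        have hx'' := ext_mem.1 hx'
        funext i
        obtain ⟨a1, a2⟩ := hxz' i
        obtain ⟨b1, b2⟩ := hx'' i
        have hri := (hr i).1
        have c1 : (z' i : ℝ) < z i + 1 := by
          by_contra hcon
          have := mul_le_mul_of_nonneg_right (not_lt.1 hcon) hri.le
          nlinarith
        have c2 : (z i : ℝ) < z' i + 1 := by
          by_contra hcon
          have := mul_le_mul_of_nonneg_right (not_lt.1 hcon) hri.le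
          nlinarith
        have d1 : z' i < z i + 1 := by exact_mod_cast c1
        have d2 : z i < z' i + 1 := by exact_mod_cast c2
        omega
      rw [h5, Set.indicator_of_mem hxz]
      have h6 : κ ≤ Ph (fun i => (x i - τ i) / L i) ^ p := by
        refine hlo _ fun i => ?_
        obtain ⟨a1, a2⟩ := hxz' i
        obtain ⟨hri, hqi, hL, _⟩ := hr i
        have hq1 : (1 : ℝ) ≤ q i := by exact_mod_cast hqi
        have hLp : 0 < L i := by rw [hL]; positivity
        have hz1 : (z i : ℝ) + 1 ≤ q i := by exact_mod_cast hzr i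
        have hz0 : (0 : ℝ) ≤ z i := Nat.cast_nonneg _
        constructor
        · refine div_nonneg ?_ hLp.le
          have := mul_nonneg hz0 hri.le
          linarith
        · rw [div_le_one hLp, hL]
          have := mul_le_mul_of_nonneg_right hz1 hri.le
          nlinarith
      calc g x = (ENNReal.ofReal κ)⁻¹ * (g x * ENNReal.ofReal κ) := by
            rw [mul_comm (g x), ← mul_assoc, ENNReal.inv_mul_cancel hκ0 ENNReal.ofReal_ne_top,
              one_mul]
        _ ≤ _ := by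
            refine mul_le_mul_right (mul_le_mul_right (ENNReal.ofReal_le_ofReal h6) _) _
    · have h5 : ∑ z' ∈ F, (B z').indicator g x = 0 := by
        refine Finset.sum_eq_zero fun z hz => ?_
        exact Set.indicator_of_notMem (fun h => hx ⟨z, hz, h⟩) g
      rw [h5]
      exact zero_le
  have h7 : (∏ i, (q i : ℝ≥0∞)) * ∫⁻ x in bx τ r, g x ≤
      (ENNReal.ofReal κ)⁻¹ *
        ∫⁻ x, g x * ENNReal.ofReal (Ph (fun i => (x i - τ i) / L i) ^ p) := by
    rw [← h2, h3, ← lintegral_const_mul' _ _ (ENNReal.inv_ne_top.2 hκ0)]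
    exact lintegral_mono h4
  have h8 : (∏ i, (q i : ℝ≥0∞)⁻¹) * (∏ i, (q i : ℝ≥0∞)) = 1 := by
    rw [← Finset.prod_mul_distrib]
    refine Finset.prod_eq_one fun i _ => ?_
    exact ENNReal.inv_mul_cancel (hqne i) (ENNReal.natCast_ne_top _)
  calc ∫⁻ x in bx τ r, g x = (∏ i, (q i : ℝ≥0∞)⁻¹) * ((∏ i, (q i : ℝ≥0∞)) *
        ∫⁻ x in bx τ r, g x) := by rw [← mul_assoc, h8, one_mul]
    _ ≤ (∏ i, (q i : ℝ≥0∞)⁻¹) * ((ENNReal.ofReal κ)⁻¹ *
        ∫⁻ x, g x * ENNReal.ofReal (Ph (fun i => (x i - τ i) / L i) ^ p)) :=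
          mul_le_mul_right h7 _
    _ = _ := by ring

end Pool.Agent.Dcs
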