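import Pool.Agent.Dcs.Defs

/-!
# Dcs, module Slw: integrals against slowly varying weights

`vol = ∏ r_i`.  `∫ g(x) W(x) dx * vol = ∫ g(x) ∫_{s ∈ bx 0 r} W(x) ds dx ≤ ∫ g(x) ∫_{s ∈ bx 0 r} Wb(x - s) ds dx =
∫ Wb(y) ∫_{s ∈ bx 0 r} g(y + s) ds dy = ∫ Wb(y) ∫_{x ∈ bx y r} g(x) dx dy ≤ A vol ∫ Wb` (Tonelli, translation `x = y + s`); divide by
`vol` (`0 < vol < ∞`).
-/

set_option autoImplicit false

namespace Pool.Agent.Dcs

open MeasureTheory Finset Pool.Agent.Dcp
open scoped ENNReal

private theorem slw_meas {d : ℕ} (τ r : E d) : MeasurableSet (bx τ r) :=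
  MeasurableSet.univ_pi fun _ => measurableSet_Ico

private theorem slw_vol {d : ℕ} (τ r : E d) :
    volume (bx τ r) = ∏ i, ENNReal.ofReal (r i) := by
  unfold bx
  rw [Real.volume_pi_Ico]
  refine Finset.prod_congr rfl fun i _ => ?_
  rw [add_sub_cancel_left]

private theorem slw_shift {d : ℕ} (r y : E d) (g : E d → ℝ≥0∞) :
    ∫⁻ s in bx (0 : E d) r, g (y + s) = ∫⁻ x in bx y r, g x := by
  rw [← lintegral_indicator (slw_meas _ _), ← lintegral_indicator (slw_meas _ _),
    ← lintegral_add_left_eq_self ((bx y r).indicator g) y]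
  refine lintegral_congr fun s => ?_
  have hiff : y + s ∈ bx y r ↔ s ∈ bx (0 : E d) r := by
    unfold bx
    simp only [Set.mem_univ_pi, Set.mem_Ico, Pi.add_apply, Pi.zero_apply]
    refine forall_congr' fun i => ?_
    constructor <;> rintro ⟨h1, h2⟩ <;> constructor <;> linarith
  by_cases h : s ∈ bx (0 : E d) r
  · rw [Set.indicator_of_mem h, Set.indicator_of_mem (hiff.2 h)]
  · rw [Set.indicator_of_notMem h, Set.indicator_of_notMem fun h' => h (hiff.1 h')]

theorem slow {d : ℕ} {r : E d} (hr : ∀ i, 0 < r i) {g W Wb : E d → ℝ≥0∞} (hg : Measurable g)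
    (hW : Measurable W) (hWb : Measurable Wb) {A : ℝ≥0∞}
    (h1 : ∀ τ, ∫⁻ x in bx τ r, g x ≤ A * ∏ i, ENNReal.ofReal (r i))
    (h2 : ∀ x, ∀ s ∈ bx (0 : E d) r, W x ≤ Wb (x - s)) :
    ∫⁻ x, g x * W x ≤ A * ∫⁻ x, Wb x := by
  set v : ℝ≥0∞ := ∏ i, ENNReal.ofReal (r i) with hv
  have hv0 : v ≠ 0 := by
    rw [hv, Finset.prod_ne_zero_iff]
    intro i _
    rw [Ne, ENNReal.ofReal_eq_zero, not_le]
    exact hr i
  have hvt : v ≠ ⊤ := ENNReal.prod_ne_top fun i _ => ENNReal.ofReal_ne_top
  have key : (∫⁻ x, g x * W x) * v ≤ (A * ∫⁻ x, Wb x) * v := by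
    calc (∫⁻ x, g x * W x) * v = ∫⁻ x, g x * W x * v :=
          (lintegral_mul_const _ (hg.mul hW)).symm
      _ = ∫⁻ x, ∫⁻ _ in bx (0 : E d) r, g x * W x := by
          refine lintegral_congr fun x => ?_
          rw [setLIntegral_const, slw_vol]
      _ ≤ ∫⁻ x, ∫⁻ s in bx (0 : E d) r, g x * Wb (x - s) := by
          refine lintegral_mono fun x => ?_
          refine setLIntegral_mono' (slw_meas _ _) fun s hs => ?_
          exact mul_le_mul_right (h2 x s hs) _
      _ = ∫⁻ s in bx (0 : E d) r, ∫⁻ x, g x * Wb (x - s) := by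
          refine lintegral_lintegral_swap (Measurable.aemeasurable ?_)
          exact (hg.comp measurable_fst).mul (hWb.comp (measurable_fst.sub measurable_snd))
      _ = ∫⁻ s in bx (0 : E d) r, ∫⁻ y, g (y + s) * Wb y := by
          refine lintegral_congr fun s => ?_
          rw [← lintegral_add_right_eq_self _ s]
          refine lintegral_congr fun y => ?_
          rw [add_sub_cancel_right]
      _ = ∫⁻ y, ∫⁻ s in bx (0 : E d) r, g (y + s) * Wb y := by
          refine lintegral_lintegral_swap (Measurable.aemeasurable ?_)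
          exact (hg.comp (measurable_snd.add measurable_fst)).mul (hWb.comp measurable_snd)
      _ = ∫⁻ y, (∫⁻ x in bx y r, g x) * Wb y := by
          refine lintegral_congr fun y => ?_
          have hm : Measurable fun s => g (y + s) := hg.comp (measurable_const_add y)
          rw [lintegral_mul_const _ hm, slw_shift]
      _ ≤ ∫⁻ y, A * v * Wb y := by
          refine lintegral_mono fun y => ?_
          exact mul_le_mul_left (h1 y) _
      _ = (A * ∫⁻ x, Wb x) * v := by
          rw [lintegral_const_mul _ hWb]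
          ring
  calc ∫⁻ x, g x * W x = (∫⁻ x, g x * W x) * v * v⁻¹ := by
        rw [mul_assoc, ENNReal.mul_inv_cancel hv0 hvt, mul_one]
    _ ≤ (A * ∫⁻ x, Wb x) * v * v⁻¹ := mul_le_mul_left key _
    _ = A * ∫⁻ x, Wb x := by rw [mul_assoc, ENNReal.mul_inv_cancel hv0 hvt, mul_one]

end Pool.Agent.Dcs
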