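import Pool.Agent.Dcs.Dln
import Pool.Agent.Dcs.Ext
import Pool.Agent.Dcs.Slw
import Pool.Agent.Dcs.DstX

/-!
# Dcs, module Dst: the decoupling step for averages over boxes

Let `r i = 2^(-e i)`, `x = cons u x'`, `a' = ν - n'`.  For `j : Fin l` (coordinate `j.succ` of `x`, exponent `j+2`) put
`f j = l a' - ν (j+2)` (truncated subtraction), `q j = 2^(f j)` if `e j.succ = 0`, `q j = 1` otherwise, `L j = q j * r j.succ`.
If `e j.succ = 0`: `r = 1`, `L j = 2^(f j) ≥ 2^(l a' - ν (j+2))`.  Otherwise `e + l a' ≤ (j+2) ν` by hypothesis, `L j = 2^(-e)`,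
`2^(l a') ≤ 2^(ν (j+2)) L j`.  In both cases the hypothesis of `dln` holds.  (In the first case when `l a' ≤ ν (j+2)`: `q j = 1`, `L j = 1`: fine.)
`a` satisfies `Sup σ ν n i a`, hence `Sup σ ν ν 0 a` (the arc is contained in the full block because `i < 2^(ν-n)`).
1. `∫_{bx τ r} ‖FS a‖^P = ∫_{u ∈ [τ_0, τ_0 + r_0)} ∫_{x' ∈ bx τ' r'} ...` (Tonelli, `Fin.cons`; see `wSm_split` in Dcp/WSm or
   `MeasurableEquiv.piFinSuccAbove`) `≤ C ∏ (q j)⁻¹ ∫_u ∫_{x'} ‖FS a (cons u x')‖^P Ph((x' - τ')/L)^P` (`ext_per` for every `u`, `FS_per`).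
2. `dln` with `I = [τ_0, τ_0 + r_0)`.
3. For every `j`: `∫_u ∫_{x'} ‖FS (res j a)‖^P Ph^P = ∫_x g(x) W(x)`, `g = ‖FS (res j a)‖^P`, `W(x) = 1_I(x_0) Ph((x'-τ')/L)^P`.
   `slow` with sides `2^(-ν)`: for `s ∈ bx 0 (rN l ν)`: `W(x) ≤ Wb(x - s)` with `Wb(y) = C 1_{[τ_0 - 2^(-ν), τ_0 + r_0)}(y_0) Ph((y'-τ')/L)^P`
   (`Ph_shift` with shift `s'/L`, `0 ≤ s_i/L_i ≤ 2^(-ν)/L_i ≤ 1` because `L_i ≥ r_i = 2^(-e i) ≥ 2^(-ν)`), and
   `∫ Wb = C (r_0 + 2^(-ν)) ∏ L_j ∫ Ph^P ≤ C' r_0 ∏ L_j` (`psi_fin`, `lint_scale`).  The hypothesis `BdR l ν n' (rN l ν) A` for `res σ ν n' j a`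
   gives `h1` of `slow` with the constant `A (∑ ‖res j a‖²)^(P/2)`.
4. `(∑_j (X (∑_m ‖res j a m‖²)^(P/2))^(2/P))^(P/2) = X ∑ ...`: `= X (∑_j ∑_m ‖res j a m‖²)^(P/2) = X (∑_m ‖a m‖²)^(P/2)` (the arcs `j < 2^(ν-n')`
   partition the full block).  Finally `∏ (q j)⁻¹ * r_0 ∏ L_j = ∏_i r_i`, and the constants `C C'` are absorbed in `K` (`(K)^(P l)`, `P l ≥ 2`).
-/

set_option autoImplicit false

namespace Pool.Agent.Dcs

open MeasureTheory Finset Pool.Agent.Dcp
open scoped ENNReal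

private theorem ds_P (l : ℕ) (hl : 1 ≤ l) : 2 ≤ P l := by
  unfold P
  have h : (1 : ℝ) ≤ l := by exact_mod_cast hl
  nlinarith

private theorem ds_FS_meas (d : ℕ) (s : Finset ℤ) (a : ℤ → ℂ) {p : ℝ} :
    Measurable (fun x : E d => ‖FS d s a x‖ₑ ^ p) := by
  have hc : Continuous (FS d s a) := by
    unfold FS
    refine continuous_finsetSum _ fun n _ => continuous_const.mul (ee_cont.comp ?_)
    fun_prop
  exact (hc.measurable.enorm).pow_const p

private theorem ds_w_meas (l : ℕ) (τ L : E l) {p : ℝ} :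
    Measurable (fun x : E l => ENNReal.ofReal (Ph (fun i => (x i - τ i) / L i) ^ p)) := by
  refine Measurable.ennreal_ofReal ?_
  refine Measurable.pow_const ?_ p
  exact ((Ph_cont l).comp (by fun_prop)).measurable

/-- the integral of one arc against the weight -/
private theorem ds_one (l : ℕ) (hl : 1 ≤ l) : ∃ C : ℝ≥0∞, C ≠ ⊤ ∧
    ∀ (ν n' σ i j n : ℕ) (a : ℤ → ℂ) (τ r : E (l + 1)) (L : E l) (A : ℝ≥0∞), σ ≤ 1 →
      j < 2 ^ (ν - n') → Sup σ ν n i a → ((2 : ℝ) ^ ν)⁻¹ ≤ r 0 → (∀ q, ((2 : ℝ) ^ ν)⁻¹ ≤ L q) →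
      BdR l ν n' (rN l ν) A →
      ∫⁻ u in Set.Ico (τ 0) (τ 0 + r 0), ∫⁻ x : E l,
        ‖FS (l + 1) (S0 ν) (res σ ν n' j a) (Fin.cons u x)‖ₑ ^ P l *
          ENNReal.ofReal (Ph (fun q : Fin l => (x q - τ q.succ) / L q) ^ P l) ≤
        (A * (C * (ENNReal.ofReal (r 0) * ENNReal.ofReal (∏ q, L q)))) *
          (∑ m ∈ S0 ν, ‖res σ ν n' j a m‖ₑ ^ 2) ^ (P l / 2) := by
  have hP := ds_P l hl
  obtain ⟨C2, hC2, hsh⟩ := ds_shift l (p := P l) (by linarith)
  have hfin := psi_fin l (p := P l) (by linarith)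
  set Cp : ℝ≥0∞ := ∫⁻ w : E l, psi l (P l) 1 w with hCp
  refine ⟨C2 * 2 * Cp, ENNReal.mul_ne_top (ENNReal.mul_ne_top hC2 ENNReal.ofNat_ne_top) hfin, ?_⟩
  intro ν n' σ i j n a τ r L A hσ hj ha hr0 hL hA
  have hν : (0 : ℝ) < ((2 : ℝ) ^ ν)⁻¹ := by positivity
  have hLp : ∀ q, 0 < L q := fun q => lt_of_lt_of_le hν (hL q)
  set I : Set ℝ := Set.Ico (τ 0) (τ 0 + r 0) with hI
  set I' : Set ℝ := Set.Ico (τ 0 - ((2 : ℝ) ^ ν)⁻¹) (τ 0 + r 0) with hI'
  set S : ℝ≥0∞ := ∑ m ∈ S0 ν, ‖res σ ν n' j a m‖ₑ ^ 2 with hS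
  let g : E (l + 1) → ℝ≥0∞ := fun x => ‖FS (l + 1) (S0 ν) (res σ ν n' j a) x‖ₑ ^ P l
  let wt0 : E l → ℝ≥0∞ := fun x =>
    ENNReal.ofReal (Ph (fun q : Fin l => (x q - τ q.succ) / L q) ^ P l)
  have hwt0 : Measurable wt0 := ds_w_meas l (fun q => τ q.succ) L
  have htail : Measurable (fun x : E (l + 1) => (fun q : Fin l => x q.succ)) := by
    fun_prop
  let W : E (l + 1) → ℝ≥0∞ := fun x => I.indicator 1 (x 0) * wt0 (fun q => x q.succ)
  let Wb : E (l + 1) → ℝ≥0∞ := fun x => C2 * (I'.indicator 1 (x 0) * wt0 (fun q => x q.succ))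
  have hg : Measurable g := ds_FS_meas _ _ _
  have hI0 : Measurable (fun x : E (l + 1) => I.indicator (1 : ℝ → ℝ≥0∞) (x 0)) :=
    (measurable_one.indicator measurableSet_Ico).comp (measurable_pi_apply 0)
  have hI0' : Measurable (fun x : E (l + 1) => I'.indicator (1 : ℝ → ℝ≥0∞) (x 0)) :=
    (measurable_one.indicator measurableSet_Ico).comp (measurable_pi_apply 0)
  have hW : Measurable W := hI0.mul (hwt0.comp htail)
  have hWb : Measurable Wb := (hI0'.mul (hwt0.comp htail)).const_mul C2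
  have h1 : ∀ τ', ∫⁻ x in bx τ' (rN l ν), g x ≤
      (A * S ^ (P l / 2)) * ∏ i, ENNReal.ofReal (rN l ν i) := by
    intro τ'
    refine (hA σ j (res σ ν n' j a) τ' hσ hj (ds_sup_res ha)).trans (le_of_eq ?_)
    ring
  have h2 : ∀ x, ∀ s ∈ bx (0 : E (l + 1)) (rN l ν), W x ≤ Wb (x - s) := by
    intro x s hs
    have hs' : ∀ i, 0 ≤ s i ∧ s i < ((2 : ℝ) ^ ν)⁻¹ := by
      intro i
      have := hs i (Set.mem_univ i)
      simpa [rN] using this
    by_cases hx : x 0 ∈ I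
    · have hx' : (x - s) 0 ∈ I' := by
        rw [hI, Set.mem_Ico] at hx
        rw [hI', Set.mem_Ico, Pi.sub_apply]
        have := hs' 0
        constructor
        · linarith [hx.1, this.2]
        · linarith [hx.2, this.1]
      show I.indicator 1 (x 0) * wt0 (fun q => x q.succ) ≤
        C2 * (I'.indicator 1 ((x - s) 0) * wt0 (fun q => (x - s) q.succ))
      rw [Set.indicator_of_mem hx, Set.indicator_of_mem hx', Pi.one_apply, Pi.one_apply, one_mul,
        one_mul]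
      have h3 := hsh (fun q : Fin l => (x q.succ - τ q.succ) / L q) (fun q : Fin l => s q.succ / L q)
        (fun q => by
          rw [abs_of_nonneg (div_nonneg (hs' q.succ).1 (hLp q).le), div_le_one (hLp q)]
          exact (hs' q.succ).2.le.trans (hL q))
      have h4 : (fun q : Fin l => (x q.succ - τ q.succ) / L q - s q.succ / L q) =
          fun q : Fin l => ((x - s) q.succ - τ q.succ) / L q := by
        funext q
        rw [Pi.sub_apply]
        ring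
      have h3' : ENNReal.ofReal (Ph (fun q : Fin l => (x q.succ - τ q.succ) / L q) ^ P l) ≤
          C2 * ENNReal.ofReal
            (Ph (fun q : Fin l => (x q.succ - τ q.succ) / L q - s q.succ / L q) ^ P l) := h3
      rw [h4] at h3'
      exact h3'
    · show I.indicator 1 (x 0) * wt0 (fun q => x q.succ) ≤ _
      rw [Set.indicator_of_notMem hx, zero_mul]
      exact bot_le
  have hrN : ∀ i, 0 < rN l ν i := fun i => hν
  have hslow := slow hrN hg hW hWb h1 h2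
  have hJ : ∫⁻ u in I, ∫⁻ x : E l, ‖FS (l + 1) (S0 ν) (res σ ν n' j a) (Fin.cons u x)‖ₑ ^ P l *
      ENNReal.ofReal (Ph (fun q : Fin l => (x q - τ q.succ) / L q) ^ P l) = ∫⁻ x, g x * W x := by
    have hgw : Measurable (fun x => g x * W x) := hg.mul hW
    rw [ds_split l hgw, ← lintegral_indicator measurableSet_Ico]
    refine lintegral_congr (fun u => ?_)
    by_cases hu : u ∈ I
    · rw [Set.indicator_of_mem hu]
      refine lintegral_congr (fun x => ?_)
      show _ = g (Fin.cons u x) * (I.indicator 1 ((Fin.cons u x : E (l + 1)) 0) *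
        wt0 (fun q => (Fin.cons u x : E (l + 1)) q.succ))
      rw [Fin.cons_zero, Set.indicator_of_mem hu, Pi.one_apply, one_mul]
      simp only [Fin.cons_succ]
      rfl
    · rw [Set.indicator_of_notMem hu]
      have : ∀ x : E l, g (Fin.cons u x) * W (Fin.cons u x) = 0 := by
        intro x
        show g (Fin.cons u x) * (I.indicator 1 ((Fin.cons u x : E (l + 1)) 0) * _) = 0
        rw [Fin.cons_zero, Set.indicator_of_notMem hu, zero_mul, mul_zero]
      simp only [this, lintegral_zero]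
  have hWbint : ∫⁻ x, Wb x ≤ C2 * 2 * Cp * (ENNReal.ofReal (r 0) * ENNReal.ofReal (∏ q, L q)) := by
    rw [ds_split l hWb]
    have hin : ∀ u : ℝ, ∫⁻ x : E l, Wb (Fin.cons u x) =
        I'.indicator 1 u * (C2 * (ENNReal.ofReal (∏ q, L q) * Cp)) := by
      intro u
      have e1 : ∀ x : E l, Wb (Fin.cons u x) = (C2 * I'.indicator 1 u) * wt0 x := by
        intro x
        show C2 * (I'.indicator 1 ((Fin.cons u x : E (l + 1)) 0) *
          wt0 (fun q => (Fin.cons u x : E (l + 1)) q.succ)) = _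
        rw [Fin.cons_zero]
        simp only [Fin.cons_succ]
        ring
      simp only [e1]
      have hne : C2 * I'.indicator 1 u ≠ ⊤ := by
        refine ENNReal.mul_ne_top hC2 ?_
        by_cases hu : u ∈ I'
        · rw [Set.indicator_of_mem hu]
          exact ENNReal.one_ne_top
        · rw [Set.indicator_of_notMem hu]
          exact ENNReal.zero_ne_top
      rw [lintegral_const_mul' _ _ hne]
      have hsc := ds_scale l (fun q : Fin l => τ q.succ) L hLp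
        (fun w => ENNReal.ofReal (Ph w ^ P l)) (by
          refine Measurable.ennreal_ofReal ?_
          exact Measurable.pow_const (Ph_cont l).measurable _)
      have hwt : ∫⁻ x : E l, wt0 x = ENNReal.ofReal (∏ q, L q) * Cp := by
        rw [hCp]
        simp only [psi_one]
        exact hsc
      rw [hwt]
      ring
    simp only [hin]
    rw [lintegral_mul_const _ (measurable_one.indicator measurableSet_Ico),
      lintegral_indicator_one measurableSet_Ico, Real.volume_Ico]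
    have h5 : ENNReal.ofReal (τ 0 + r 0 - (τ 0 - ((2 : ℝ) ^ ν)⁻¹)) ≤ 2 * ENNReal.ofReal (r 0) := by
      rw [← ENNReal.ofReal_ofNat 2, ← ENNReal.ofReal_mul (by norm_num)]
      refine ENNReal.ofReal_le_ofReal ?_
      linarith
    refine (mul_le_mul_left h5 _).trans (le_of_eq ?_)
    ring
  rw [hJ]
  refine hslow.trans ?_
  refine (mul_le_mul_right hWbint _).trans (le_of_eq ?_)
  ring

theorem dst (l : ℕ) (hl : 1 ≤ l) {ε : ℝ} (hε : 0 < ε) : ∃ K : ℝ≥0∞, K ≠ ⊤ ∧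
    ∀ (ν n n' : ℕ) (e : Fin (l + 1) → ℕ) (A : ℝ≥0∞), n' ≤ n → n ≤ ν → (∀ i, e i ≤ ν) →
      (∀ i : Fin (l + 1), i ≠ 0 → e i = 0 ∨ e i + l * (ν - n') ≤ (i.val + 1) * ν) →
      BdR l ν n' (rN l ν) A →
      BdR l ν n (fun i => ((2 : ℝ) ^ (e i))⁻¹) ((K * 2 ^ (ε * ν)) ^ P l * A) := by
  have hP := ds_P l hl
  have hP0 : P l ≠ 0 := by linarith
  obtain ⟨C1, hC1, hext⟩ := ext_per l (p := P l) (by linarith)
  obtain ⟨Kd, hKd, hdln⟩ := dln l hl hε
  obtain ⟨C3, hC3, hone⟩ := ds_one l hl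
  set B : ℝ≥0∞ := C1 * C3 + 1 with hB
  have hBtop : B ≠ ⊤ := ENNReal.add_ne_top.mpr ⟨ENNReal.mul_ne_top hC1 hC3, ENNReal.one_ne_top⟩
  refine ⟨B * Kd, ENNReal.mul_ne_top hBtop hKd, ?_⟩
  intro ν n n' e A hn' hn he hcond hA σ i a τ hσ hi ha
  set r : E (l + 1) := fun i => ((2 : ℝ) ^ (e i))⁻¹ with hr
  have hr0 : ∀ i, 0 < r i := fun i => by rw [hr]; positivity
  have hrν : ∀ i, ((2 : ℝ) ^ ν)⁻¹ ≤ r i := by
    intro i
    rw [hr]
    refine inv_anti₀ (by positivity) ?_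
    exact pow_le_pow_right₀ (by norm_num) (he i)
  have hn'ν : n' ≤ ν := hn'.trans hn
  have hafull : Sup σ ν ν 0 a := fun m hm => ⟨ds_arc_full hn hi (ha m hm).1, (ha m hm).2⟩
  -- the numbers q and the lengths L
  let q : Fin l → ℕ := fun j => if e j.succ = 0 then 2 ^ (l * (ν - n') - ν * (j.val + 2)) else 1
  let L : E l := fun j => q j * r j.succ
  have hq1 : ∀ j, 1 ≤ q j := by
    intro j
    show 1 ≤ (if e j.succ = 0 then 2 ^ (l * (ν - n') - ν * (j.val + 2)) else 1)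
    split_ifs
    · exact Nat.one_le_two_pow
    · exact le_rfl
  have hqr : ∀ j, q j = 1 ∨ r j.succ = 1 := by
    intro j
    by_cases h0 : e j.succ = 0
    · right
      rw [hr]
      simp [h0]
    · left
      show (if e j.succ = 0 then _ else 1) = 1
      rw [if_neg h0]
  have hLr : ∀ j, r j.succ ≤ L j := by
    intro j
    show r j.succ ≤ (q j : ℝ) * r j.succ
    have h1 : (1 : ℝ) ≤ q j := by exact_mod_cast hq1 j
    nlinarith [hr0 j.succ]
  have hLpos : ∀ j, 0 < L j := fun j => lt_of_lt_of_le (hr0 _) (hLr j)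
  have hLν : ∀ j, ((2 : ℝ) ^ ν)⁻¹ ≤ L j := fun j => (hrν j.succ).trans (hLr j)
  have hLcond : ∀ j : Fin l, 0 < L j ∧ (2 : ℝ) ^ (l * (ν - n')) ≤ 2 ^ (ν * (j.val + 2)) * L j := by
    intro j
    refine ⟨hLpos j, ?_⟩
    by_cases h0 : e j.succ = 0
    · have h1 : L j = 2 ^ (l * (ν - n') - ν * (j.val + 2)) := by
        show ((if e j.succ = 0 then 2 ^ (l * (ν - n') - ν * (j.val + 2)) else 1 : ℕ) : ℝ) *
          ((2 : ℝ) ^ (e j.succ))⁻¹ = _
        rw [if_pos h0, h0]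
        push_cast
        simp
      rw [h1, ← pow_add]
      refine pow_le_pow_right₀ (by norm_num) ?_
      omega
    · have h1 : L j = ((2 : ℝ) ^ (e j.succ))⁻¹ := by
        show ((if e j.succ = 0 then 2 ^ (l * (ν - n') - ν * (j.val + 2)) else 1 : ℕ) : ℝ) *
          ((2 : ℝ) ^ (e j.succ))⁻¹ = _
        rw [if_neg h0]
        simp
      have h2 := (hcond j.succ (Fin.succ_ne_zero j)).resolve_left h0
      rw [Fin.val_succ] at h2
      have h3 : l * (ν - n') + e j.succ ≤ ν * (j.val + 2) := by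
        have : (j.val + 1 + 1) * ν = ν * (j.val + 2) := by ring
        omega
      rw [h1, ← div_eq_mul_inv, le_div_iff₀ (by positivity), ← pow_add]
      exact pow_le_pow_right₀ (by norm_num) h3
  set S : ℝ≥0∞ := ∑ m ∈ S0 ν, ‖a m‖ₑ ^ 2 with hS
  set D : ℝ≥0∞ := (Kd * 2 ^ (ε * ν)) ^ P l with hD
  set I : Set ℝ := Set.Ico (τ 0) (τ 0 + r 0) with hI
  set Q : ℝ≥0∞ := ∏ j : Fin l, (q j : ℝ≥0∞)⁻¹ with hQ
  set X : ℝ≥0∞ := A * (C3 * (ENNReal.ofReal (r 0) * ENNReal.ofReal (∏ j, L j))) with hX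
  have hQtop : Q ≠ ⊤ := by
    refine ENNReal.prod_ne_top fun j _ => ?_
    refine ENNReal.inv_ne_top.mpr ?_
    have := hq1 j
    exact_mod_cast (by omega : q j ≠ 0)
  -- step 1
  have hFm : Measurable (fun x : E (l + 1) => ‖FS (l + 1) (S0 ν) a x‖ₑ ^ P l) := ds_FS_meas _ _ _
  have s1 : ∫⁻ x in bx τ r, ‖FS (l + 1) (S0 ν) a x‖ₑ ^ P l ≤
      C1 * Q * ∫⁻ u in I, ∫⁻ x : E l, ‖FS (l + 1) (S0 ν) a (Fin.cons u x)‖ₑ ^ P l *
        ENNReal.ofReal (Ph (fun j : Fin l => (x j - τ j.succ) / L j) ^ P l) := by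
    rw [ds_box l τ r hFm, ← lintegral_const_mul' _ _ (ENNReal.mul_ne_top hC1 hQtop)]
    refine lintegral_mono fun u => ?_
    have hcm : Measurable (fun x : E l => (Fin.cons u x : E (l + 1))) :=
      (wSm_cons_meas l).comp (measurable_const.prodMk measurable_id)
    refine hext (fun x : E l => ‖FS (l + 1) (S0 ν) a (Fin.cons u x)‖ₑ ^ P l)
      (fun j : Fin l => τ j.succ) (fun j : Fin l => r j.succ) L q (hFm.comp hcm) ?_ ?_
    · intro x z
      have h1 : (Fin.cons u (fun i => x i + (z i : ℝ)) : E (l + 1)) =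
          fun i => (Fin.cons u x : E (l + 1)) i + ((Fin.cons 0 z : Fin (l + 1) → ℤ) i : ℝ) := by
        funext i
        refine Fin.cases ?_ (fun j => ?_) i
        · simp
        · simp
      show ‖FS (l + 1) (S0 ν) a (Fin.cons u (fun i => x i + (z i : ℝ)))‖ₑ ^ P l = _
      rw [h1, FS_per]
    · intro j
      exact ⟨hr0 _, hq1 j, rfl, hqr j⟩
  -- step 2
  have s2 := hdln ν n' σ a I (fun j : Fin l => τ j.succ) L hσ hn'ν hafull measurableSet_Ico hLcond
  -- step 3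
  have s3 : ∀ j ∈ range (2 ^ (ν - n')),
      (∫⁻ u in I, ∫⁻ x : E l, ‖FS (l + 1) (S0 ν) (res σ ν n' j a) (Fin.cons u x)‖ₑ ^ P l *
        ENNReal.ofReal (Ph (fun q : Fin l => (x q - τ q.succ) / L q) ^ P l)) ^ (2 / P l) ≤
      X ^ (2 / P l) * ∑ m ∈ S0 ν, ‖res σ ν n' j a m‖ₑ ^ 2 := by
    intro j hj
    rw [Finset.mem_range] at hj
    have h1 := hone ν n' σ i j n a τ r L A hσ hj ha (hrν 0) hLν hA
    have h2 := ENNReal.rpow_le_rpow h1 (by positivity : 0 ≤ 2 / P l)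
    refine h2.trans (le_of_eq ?_)
    rw [ENNReal.mul_rpow_of_nonneg _ _ (by positivity), ← ENNReal.rpow_mul]
    congr 1
    have : P l / 2 * (2 / P l) = 1 := by field_simp
    rw [this, ENNReal.rpow_one]
  have s4 : (∑ j ∈ range (2 ^ (ν - n')),
      (∫⁻ u in I, ∫⁻ x : E l, ‖FS (l + 1) (S0 ν) (res σ ν n' j a) (Fin.cons u x)‖ₑ ^ P l *
        ENNReal.ofReal (Ph (fun q : Fin l => (x q - τ q.succ) / L q) ^ P l)) ^ (2 / P l)) ^
          (P l / 2) ≤ X * S ^ (P l / 2) := by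
    have h1 := Finset.sum_le_sum s3
    rw [← Finset.mul_sum] at h1
    have h2 := h1.trans (mul_le_mul_right (ds_res_sum σ ν n' (S0 ν) (range (2 ^ (ν - n'))) a) _)
    refine (ENNReal.rpow_le_rpow h2 (by positivity : 0 ≤ P l / 2)).trans (le_of_eq ?_)
    rw [ENNReal.mul_rpow_of_nonneg _ _ (by positivity), ← ENNReal.rpow_mul]
    have : 2 / P l * (P l / 2) = 1 := by field_simp
    rw [this, ENNReal.rpow_one]
  -- the product of the sides
  have hprod : Q * ENNReal.ofReal (∏ j, L j) = ∏ j : Fin l, ENNReal.ofReal (r j.succ) := by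
    rw [hQ, ENNReal.ofReal_prod_of_nonneg (fun j _ => (hLpos j).le), ← Finset.prod_mul_distrib]
    refine Finset.prod_congr rfl fun j _ => ?_
    have h0 : (q j : ℝ≥0∞) ≠ 0 := by
      have := hq1 j
      exact_mod_cast (by omega : q j ≠ 0)
    show (q j : ℝ≥0∞)⁻¹ * ENNReal.ofReal ((q j : ℝ) * r j.succ) = _
    rw [ENNReal.ofReal_mul (by positivity), ENNReal.ofReal_natCast, ← mul_assoc,
      ENNReal.inv_mul_cancel h0 (ENNReal.natCast_ne_top _), one_mul]
  have hfinal : C1 * Q * (D * (X * S ^ (P l / 2))) =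
      C1 * C3 * D * A * (∏ i, ENNReal.ofReal (r i)) * S ^ (P l / 2) := by
    rw [Fin.prod_univ_succ, ← hprod, hX]
    ring
  have hBD : C1 * C3 * D ≤ (B * Kd * 2 ^ (ε * ν)) ^ P l := by
    rw [mul_assoc B Kd, ENNReal.mul_rpow_of_nonneg _ _ (by linarith : 0 ≤ P l)]
    refine mul_le_mul_left ?_ _
    have h1 : C1 * C3 ≤ B := le_self_add
    have h2 : B ≤ B ^ P l := ENNReal.le_rpow_self_of_one_le le_add_self (by linarith)
    exact h1.trans h2
  calc ∫⁻ x in bx τ r, ‖FS (l + 1) (S0 ν) a x‖ₑ ^ P l ≤ _ := s1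
    _ ≤ C1 * Q * (D * (X * S ^ (P l / 2))) := by
        refine mul_le_mul_right (s2.trans ?_) _
        exact mul_le_mul_right s4 _
    _ = C1 * C3 * D * A * (∏ i, ENNReal.ofReal (r i)) * S ^ (P l / 2) := hfinal
    _ ≤ (B * Kd * 2 ^ (ε * ν)) ^ P l * A * (∏ i, ENNReal.ofReal (r i)) * S ^ (P l / 2) := by
        refine mul_le_mul_left ?_ _
        refine mul_le_mul_left ?_ _
        exact mul_le_mul_left hBD _

end Pool.Agent.Dcs
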