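import Pool.Agent.Dcs.Chn
import Pool.Agent.Dcs.Bxs

/-!
# Dcs, module Enl: enlarging the boxes

Write `d = l + 1`, `N = 2^(l² μ)`, `P l = l (l+1) = 2k` with `k = l (l+1)/2` (natural number, `Nat.even_mul_succ_self`), so
`‖·‖ₑ ^ P l = ‖·‖ₑ ^ (2k)` (`ENNReal.rpow_natCast`).  Let `a` be supported on the arc (`Sup σ ν n i a`), `b m = ‖a m‖`.
1. By `bx_half` (and `bx_shift`, `FS_trans`) it is enough to bound `∫_{bx 0 (1/(2N))} ‖FS a'‖^(2k)`, `a'` = `a` times numbers of norm one.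
2. `bx 0 (1/(2N)) ⊆ cube d` and there `∏ KF N (x i) ≥ (N/4)^d` (`KF_low`), so the integral is at most
   `(4/N)^d ∫_{cube} ‖FS a'‖^(2k) ∏ KF N (x i) ≤ (4/N)^d VV(b; N)` (`vv_maj`).
3. `VV(b; N) ≤ C VV(b; M)`, `M i = 2^(μ ex l t i)` (`vv_chain`; two elements `m, m'` of one arc of length `2^n` satisfy
   `|m - m'| ≤ 2^n`; elements of an arc with `i < 2^(ν-n)`, `σ ≤ 1` satisfy `|m| ≤ 2^ν`).
4. `VV(b; M) = ∫_{cube} ‖FS b‖^(2k) ∏ KF (M i) (x i)` (`vv_int`) `≤ 16^d A (∑ ‖a m‖²)^(P l/2)` by `lint_KF_le` and the hypothesis for the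
   coefficients `b` (which satisfy `Sup`, and `‖(b m : ℂ)‖ₑ = ‖a m‖ₑ`).
-/

set_option autoImplicit false

namespace Pool.Agent.Dcs

open MeasureTheory Finset Pool.Agent.Dcp
open scoped ENNReal

theorem P_even (l : ℕ) : ∃ k : ℕ, P l = ((2 * k : ℕ) : ℝ) := by
  obtain ⟨k, hk⟩ := Nat.even_mul_succ_self l
  refine ⟨k, ?_⟩
  have h : ((l * (l + 1) : ℕ) : ℝ) = ((k + k : ℕ) : ℝ) := by exact_mod_cast hk
  unfold P
  push_cast at h ⊢
  linarith

private theorem enl_arc {σ ν n i : ℕ} {m m' : ℤ} (h : m ∈ arc σ ν n i) (h' : m' ∈ arc σ ν n i) :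
    |m - m'| ≤ 2 ^ n := by
  unfold arc bk at h h'
  simp only [Finset.mem_image, Finset.mem_Ico] at h h'
  obtain ⟨j, ⟨h1, h2⟩, rfl⟩ := h
  obtain ⟨j', ⟨h1', h2'⟩, rfl⟩ := h'
  have e : (i + 1) * 2 ^ n = i * 2 ^ n + 2 ^ n := by ring
  rw [e] at h2 h2'
  zify at h1 h2 h1' h2'
  rw [abs_le]
  constructor <;> linarith

private theorem enl_ee (t : ℝ) : ‖ee t‖ = 1 := by
  unfold ee
  rw [show (2 * (Real.pi : ℂ) * (t : ℂ) * Complex.I) = ((2 * Real.pi * t : ℝ) : ℂ) * Complex.I by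
    push_cast; ring]
  exact Complex.norm_exp_ofReal_mul_I _

private theorem enl_kf (d ν : ℕ) (g : E d → ℝ≥0∞) :
    ∫⁻ x in bx (0 : E d) (fun _ => ((2 : ℝ) ^ ν)⁻¹ / 2), g x ≤
      ENNReal.ofReal (4 * ((2 : ℝ) ^ ν)⁻¹) ^ d *
        ∫⁻ x in cube d, g x * ∏ i, ENNReal.ofReal (KF (2 ^ ν) (x i)) := by
  have hN : (0 : ℝ) < 2 ^ ν := by positivity
  have hN1 : (1 : ℝ) ≤ 2 ^ ν := one_le_pow₀ (by norm_num)
  have hsub : bx (0 : E d) (fun _ => ((2 : ℝ) ^ ν)⁻¹ / 2) ⊆ cube d := by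
    intro x hx
    unfold bx at hx
    unfold cube
    rw [Set.mem_univ_pi] at hx ⊢
    intro i
    have h1 := hx i
    simp only [Pi.zero_apply, zero_add, Set.mem_Ico] at h1 ⊢
    refine ⟨h1.1, lt_of_lt_of_le h1.2 ?_⟩
    have : ((2 : ℝ) ^ ν)⁻¹ ≤ 1 := inv_le_one_of_one_le₀ hN1
    linarith
  calc ∫⁻ x in bx (0 : E d) (fun _ => ((2 : ℝ) ^ ν)⁻¹ / 2), g x
      ≤ ∫⁻ x in bx (0 : E d) (fun _ => ((2 : ℝ) ^ ν)⁻¹ / 2),
          ENNReal.ofReal (4 * ((2 : ℝ) ^ ν)⁻¹) ^ d *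
            (g x * ∏ i, ENNReal.ofReal (KF (2 ^ ν) (x i))) := by
        refine setLIntegral_mono' (bx_meas _ _) ?_
        intro x hx
        unfold bx at hx
        rw [Set.mem_univ_pi] at hx
        have h1 : 1 ≤ ENNReal.ofReal (4 * ((2 : ℝ) ^ ν)⁻¹) ^ d *
            ∏ i, ENNReal.ofReal (KF (2 ^ ν) (x i)) := by
          have e : ENNReal.ofReal (4 * ((2 : ℝ) ^ ν)⁻¹) ^ d *
              ∏ i, ENNReal.ofReal (KF (2 ^ ν) (x i)) =
              ∏ i : Fin d, (ENNReal.ofReal (4 * ((2 : ℝ) ^ ν)⁻¹) *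
                ENNReal.ofReal (KF (2 ^ ν) (x i))) := by
            rw [Finset.prod_mul_distrib, Finset.prod_const, Finset.card_univ, Fintype.card_fin]
          rw [e]
          refine Finset.one_le_prod' (fun i _ => ?_)
          rw [← ENNReal.ofReal_mul (by positivity)]
          rw [ENNReal.one_le_ofReal]
          have h2 := hx i
          simp only [Pi.zero_apply, zero_add, Set.mem_Ico] at h2
          have h3 : |x i| ≤ 1 / (2 * ((2 ^ ν : ℕ) : ℝ)) := by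
            rw [abs_of_nonneg h2.1]
            push_cast
            refine h2.2.le.trans (le_of_eq ?_)
            field_simp
          have h4 := KF_low (2 ^ ν) Nat.one_le_two_pow (x i) h3
          push_cast at h4
          calc (1 : ℝ) = 4 * ((2 : ℝ) ^ ν)⁻¹ * ((2 : ℝ) ^ ν / 4) := by field_simp
            _ ≤ 4 * ((2 : ℝ) ^ ν)⁻¹ * KF (2 ^ ν) (x i) :=
              mul_le_mul_of_nonneg_left h4 (by positivity)
        calc g x = 1 * g x := (one_mul _).symm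
          _ ≤ (ENNReal.ofReal (4 * ((2 : ℝ) ^ ν)⁻¹) ^ d *
            ∏ i, ENNReal.ofReal (KF (2 ^ ν) (x i))) * g x := mul_le_mul_left h1 _
          _ = _ := by ring
    _ = ENNReal.ofReal (4 * ((2 : ℝ) ^ ν)⁻¹) ^ d *
          ∫⁻ x in bx (0 : E d) (fun _ => ((2 : ℝ) ^ ν)⁻¹ / 2),
            (g x * ∏ i, ENNReal.ofReal (KF (2 ^ ν) (x i))) :=
        lintegral_const_mul' _ _ (ENNReal.pow_ne_top ENNReal.ofReal_ne_top)
    _ ≤ _ := by
        refine mul_le_mul' le_rfl ?_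
        exact lintegral_mono_set hsub

theorem enl (l : ℕ) (hl : 1 ≤ l) : ∃ C : ℝ≥0∞, C ≠ ⊤ ∧ ∀ (μ t : ℕ) (A : ℝ≥0∞), l ≤ t → t < l ^ 2 →
    BdR l (l ^ 2 * μ) ((l ^ 2 - t) * μ) (rM l μ t) A →
    BdR l (l ^ 2 * μ) ((l ^ 2 - t) * μ) (rN l (l ^ 2 * μ)) (C * A) := by
  obtain ⟨k, hk⟩ := P_even l
  obtain ⟨C0, hC0, hch⟩ := vv_chain l k hl
  refine ⟨2 ^ (l + 1) * ENNReal.ofReal 4 ^ (l + 1) * ENNReal.ofReal C0 * 16 ^ (l + 1), ?_, ?_⟩
  · refine ENNReal.mul_ne_top (ENNReal.mul_ne_top (ENNReal.mul_ne_top ?_ ?_) ?_) ?_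
    · exact ENNReal.pow_ne_top (by norm_num)
    · exact ENNReal.pow_ne_top ENNReal.ofReal_ne_top
    · exact ENNReal.ofReal_ne_top
    · exact ENNReal.pow_ne_top (by norm_num)
  intro μ t A hlt ht hB σ i a τ hσ hi hsup
  set ν := l ^ 2 * μ with hν
  set n := (l ^ 2 - t) * μ with hn
  set X : ℝ≥0∞ := (∑ m ∈ S0 ν, ‖a m‖ₑ ^ 2) ^ (P l / 2) with hX
  have hpow : ∀ z : ℂ, ‖z‖ₑ ^ P l = ‖z‖ₑ ^ (2 * k) := by
    intro z
    rw [hk, ENNReal.rpow_natCast]
  -- bound for the weighted number of solutions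
  have hVV : ENNReal.ofReal (VV (l + 1) k (S0 ν) (fun m => ‖a m‖) (fun _ => 2 ^ ν) 0) ≤
      ENNReal.ofReal C0 * (16 ^ (l + 1) * (A * X)) := by
    have h1 := hch μ t (S0 ν) (fun m => ‖a m‖) hlt ht (fun _ => norm_nonneg _)
      (by
        intro m hm hm0
        have hm0' : a m ≠ 0 := by simpa using hm0
        refine ⟨(hsup m hm0').2, ?_⟩
        unfold S0 at hm
        rw [Finset.mem_Icc] at hm
        exact abs_le.mpr hm)
      (by
        intro m _ m' _ hm hm'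
        have hm0 : a m ≠ 0 := by simpa using hm
        have hm0' : a m' ≠ 0 := by simpa using hm'
        exact enl_arc (hsup m hm0).1 (hsup m' hm0').1)
    have h2 : ENNReal.ofReal (VV (l + 1) k (S0 ν) (fun m => ‖a m‖)
        (fun i : Fin (l + 1) => 2 ^ (μ * ex l t i)) 0) ≤ 16 ^ (l + 1) * (A * X) := by
      rw [← vv_int (k := k) (d := l + 1) (s := S0 ν) (b := fun m => ‖a m‖)
        (M := fun i : Fin (l + 1) => 2 ^ (μ * ex l t i)) (fun _ => norm_nonneg _)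
        (fun _ => Nat.one_le_two_pow)]
      refine lint_KF_le (fun i : Fin (l + 1) => 2 ^ (μ * ex l t i)) (fun _ => Nat.one_le_two_pow)
        _ (A * X) ?_
      intro τ'
      have h3 := hB σ i (fun m => ((‖a m‖ : ℝ) : ℂ)) τ' hσ hi (by
        intro m hm
        refine hsup m ?_
        intro h0
        apply hm
        simp [h0])
      have e1 : (fun i : Fin (l + 1) => (((2 ^ (μ * ex l t i) : ℕ) : ℝ))⁻¹) = rM l μ t := by
        funext i
        unfold rM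
        push_cast
        rfl
      have e2 : (∏ i : Fin (l + 1), ENNReal.ofReal ((((2 ^ (μ * ex l t i) : ℕ) : ℝ))⁻¹)) =
          ∏ i, ENNReal.ofReal (rM l μ t i) := by
        refine Finset.prod_congr rfl (fun i _ => ?_)
        rw [← e1]
      rw [e1, e2]
      have e3 : (∑ m ∈ S0 ν, ‖((‖a m‖ : ℝ) : ℂ)‖ₑ ^ 2) = ∑ m ∈ S0 ν, ‖a m‖ₑ ^ 2 := by
        refine Finset.sum_congr rfl (fun m _ => ?_)
        congr 1
        rw [← ofReal_norm, ← ofReal_norm]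
        simp
      rw [e3] at h3
      simp only [hpow] at h3
      refine h3.trans (le_of_eq ?_)
      rw [hX]
      ring
    calc ENNReal.ofReal (VV (l + 1) k (S0 ν) (fun m => ‖a m‖) (fun _ => 2 ^ ν) 0)
        ≤ ENNReal.ofReal (C0 * VV (l + 1) k (S0 ν) (fun m => ‖a m‖)
          (fun i : Fin (l + 1) => 2 ^ (μ * ex l t i)) 0) := ENNReal.ofReal_le_ofReal h1
      _ = ENNReal.ofReal C0 * ENNReal.ofReal (VV (l + 1) k (S0 ν) (fun m => ‖a m‖)
          (fun i : Fin (l + 1) => 2 ^ (μ * ex l t i)) 0) := ENNReal.ofReal_mul hC0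
      _ ≤ _ := mul_le_mul' le_rfl h2
  have hmain := bx_half τ (rN l ν) (fun i => by unfold rN; positivity)
    (fun x => ‖FS (l + 1) (S0 ν) a x‖ₑ ^ P l)
    (ENNReal.ofReal (4 * ((2 : ℝ) ^ ν)⁻¹) ^ (l + 1) *
      (ENNReal.ofReal C0 * (16 ^ (l + 1) * (A * X)))) (by
      intro τ'
      rw [bx_shift]
      simp only [FS_trans, hpow]
      refine (enl_kf (l + 1) ν _).trans ?_
      refine mul_le_mul' le_rfl ?_
      refine (vv_maj (k := k) _ (M := fun _ : Fin (l + 1) => 2 ^ ν)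
        (fun _ => Nat.one_le_two_pow)).trans ?_
      have e4 : (fun m => ‖a m * ee (∑ i : Fin (l + 1), (m : ℝ) ^ (i.val + 1) * τ' i)‖) =
          fun m => ‖a m‖ := by
        funext m
        rw [norm_mul, enl_ee, mul_one]
      rw [e4]
      exact hVV)
  refine hmain.trans (le_of_eq ?_)
  have e5 : (∏ i, ENNReal.ofReal (rN l ν i)) = ENNReal.ofReal (((2 : ℝ) ^ ν)⁻¹) ^ (l + 1) := by
    unfold rN
    rw [Finset.prod_const, Finset.card_univ, Fintype.card_fin]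
  rw [e5, ENNReal.ofReal_mul (by norm_num), mul_pow]
  ring

end Pool.Agent.Dcs
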