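import Pool.Agent.Dcs.Kcv
import Pool.Agent.Dcp.ThA
import Pool.Agent.Dcp.Fin

/-!
# Dcs, module Fnl: the theorem

`cfull`: as `full` in Pool/Agent/Dcp/ThA.lean: `FS (Icc (-N) N) a = ∑_{q = (ν, σ)}` of the sums over `{n | idx n = q}`, at most
`2 (log₂ N + 2)` parts with `2^(ν-1) ≤ |n| < 2^ν` (sign `σ`), each part is `FS (S0 ν) (a 1_{idx n = q, |n| ≤ N})` with `Sup σ ν ν 0`, `2^ν ≤ 2N`; the part
`ν = 0` is `n = 0` (`idx 0 = (0, 0)`), a constant `‖a 0‖` (treat it directly: `volume K < ∞`; `Sup 0 0 0 0` requires `1 ≤ 2|m|` and fails for `m = 0`).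
`tha_pow_sum`, `parts_bound`.
`cfull_low`: Hölder as in `full_low` (Dcp/ThA).
`main_thm`: `real_of_lint` and `insert_cont` from Dcp/Fin.
-/

set_option autoImplicit false

namespace Pool.Agent.Dcs

open MeasureTheory Finset Pool.Agent.Dcp
open scoped ENNReal

private theorem fnl_cont {l : ℕ} (j : Fin (l + 1)) {φ : E l → ℝ} (hφ : Continuous φ)
    (s : Finset ℤ) (a : ℤ → ℂ) : Continuous fun y : E l => FS (l + 1) s a (Gr j φ y) :=
  (FS_cont (l + 1) s a).comp (insert_cont j hφ)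

theorem cfull (l : ℕ) (hl : 1 ≤ l) (j : Fin (l + 1)) {φ : E l → ℝ} (hφ : ContDiff ℝ 2 φ)
    {K : Set (E l)} (hK : IsCompact K)
    (h : ∀ y ∈ K, Function.Injective (fderiv ℝ (fderiv ℝ φ) y)) {ε : ℝ} (hε : 0 < ε) :
    ∃ A : ℝ≥0∞, A ≠ ⊤ ∧ ∀ (N : ℕ) (a : ℤ → ℂ), 1 ≤ N →
      ∫⁻ y in K, ‖FS (l + 1) (Icc (-(N : ℤ)) N) a (Gr j φ y)‖ₑ ^ P l ≤
        A * (N : ℝ≥0∞) ^ ε * (∑ n ∈ Icc (-(N : ℤ)) N, ‖a n‖ₑ ^ 2) ^ (P l / 2) := by
  have hP1 := P_pos hl
  have hP0 : 0 < P l := by linarith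
  obtain ⟨A, hA, hblock⟩ := blk l hl j hφ hK h (ε := ε / 2) (by positivity)
  obtain ⟨C, hC, hparts⟩ := parts_bound (p := P l + 1) (η := ε / 2) (by linarith) (by positivity)
  have hSf : volume K ≠ ⊤ := hK.measure_lt_top.ne
  refine ⟨C * ((A + volume K) * 2 ^ (ε / 2)), ?_, ?_⟩
  · refine ENNReal.mul_ne_top hC (ENNReal.mul_ne_top (ENNReal.add_ne_top.2 ⟨hA, hSf⟩) ?_)
    exact ENNReal.rpow_ne_top_of_nonneg (by positivity) (by norm_num)
  intro N a hN
  set M : ℕ := Nat.log 2 N + 1 with hM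
  have hNM : N < 2 ^ M := Nat.lt_pow_succ_log_self (by norm_num) N
  have hMN : 2 ^ M ≤ 2 * N := by
    rw [hM, pow_succ, mul_comm]
    exact Nat.mul_le_mul_left 2 (Nat.pow_log_le_self 2 (by omega))
  set s : Finset ℤ := Icc (-(N : ℤ)) N with hs
  set X : ℝ≥0∞ := ∑ n ∈ s, ‖a n‖ₑ ^ 2 with hX
  set I : Finset (ℕ × ℕ) := (range (M + 1)) ×ˢ (range 2) with hI
  have hIcard : I.card = 2 * (Nat.log 2 N + 2) := by
    rw [hI, Finset.card_product, Finset.card_range, Finset.card_range, hM]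
    ring
  have hN1 : (1 : ℝ≥0∞) ≤ N := by exact_mod_cast hN
  -- every part
  have hpart : ∀ q ∈ I, ∫⁻ y in K, ‖FS (l + 1) (s.filter (fun n => idx n = q)) a
      (Gr j φ y)‖ₑ ^ P l ≤
        ((A + volume K) * 2 ^ (ε / 2)) * (N : ℝ≥0∞) ^ (ε / 2) * X ^ (P l / 2) := by
    rintro ⟨ν, σ⟩ hq
    rw [hI, Finset.mem_product, Finset.mem_range, Finset.mem_range] at hq
    have hq1 : ν < M + 1 := hq.1
    have hq2 : σ < 2 := hq.2
    rcases Nat.eq_zero_or_pos ν with h0 | hν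
    · -- the part `n = 0`
      have hbd : ∀ y : E l, ‖FS (l + 1) (s.filter (fun n => idx n = (ν, σ))) a
          (Gr j φ y)‖ₑ ^ P l ≤ X ^ (P l / 2) := by
        intro y
        have hsub : s.filter (fun n => idx n = (ν, σ)) ⊆ {0} := by
          intro n hn
          rw [Finset.mem_filter] at hn
          have h1 : Nat.size n.natAbs = 0 := by
            have := congrArg Prod.fst hn.2
            simp only [idx] at this
            omega
          rw [Nat.size_eq_zero] at h1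
          rw [Finset.mem_singleton]
          omega
        have h2 : ‖FS (l + 1) (s.filter (fun n => idx n = (ν, σ))) a (Gr j φ y)‖ₑ ≤
            ‖a 0‖ₑ := by
          rcases Finset.subset_singleton_iff.1 hsub with h3 | h3
          · rw [h3]
            unfold FS
            simp
          · rw [h3]
            unfold FS
            rw [Finset.sum_singleton, enorm_mul, enorm_ee, mul_one]
        have h4 : ‖a 0‖ₑ ^ 2 ≤ X := by
          rw [hX]
          refine Finset.single_le_sum (f := fun n => ‖a n‖ₑ ^ 2) (fun _ _ => zero_le) ?_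
          rw [hs, Finset.mem_Icc]
          omega
        calc ‖FS (l + 1) (s.filter (fun n => idx n = (ν, σ))) a (Gr j φ y)‖ₑ ^ P l
            ≤ ‖a 0‖ₑ ^ P l := ENNReal.rpow_le_rpow h2 hP0.le
          _ = (‖a 0‖ₑ ^ 2) ^ (P l / 2) := by
              rw [← ENNReal.rpow_natCast, ← ENNReal.rpow_mul]
              congr 1
              push_cast
              ring
          _ ≤ X ^ (P l / 2) := ENNReal.rpow_le_rpow h4 (by positivity)
      calc ∫⁻ y in K, ‖FS (l + 1) (s.filter (fun n => idx n = (ν, σ))) a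
              (Gr j φ y)‖ₑ ^ P l ≤ ∫⁻ _ in K, X ^ (P l / 2) := lintegral_mono (fun y => hbd y)
        _ = X ^ (P l / 2) * volume K := by rw [setLIntegral_const]
        _ = (volume K * 1) * 1 * X ^ (P l / 2) := by ring
        _ ≤ ((A + volume K) * 2 ^ (ε / 2)) * (N : ℝ≥0∞) ^ (ε / 2) * X ^ (P l / 2) := by
            gcongr
            · exact le_add_self
            · exact ENNReal.one_le_rpow (by norm_num) (by positivity)
            · exact ENNReal.one_le_rpow hN1 (by positivity)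
    · -- the parts `ν ≥ 1`
      set t : Finset ℤ := s.filter (fun n => idx n = (ν, σ)) with ht
      have hsub : t ⊆ S0 ν := by
        intro n hn
        rw [ht, Finset.mem_filter] at hn
        have h1 : n.natAbs < 2 ^ Nat.size n.natAbs := Nat.lt_size_self n.natAbs
        have h2 : Nat.size n.natAbs = ν := congrArg Prod.fst hn.2
        rw [h2] at h1
        have h3 : |n| < 2 ^ ν := by
          rw [Int.abs_eq_natAbs]
          exact_mod_cast h1
        have h4 := abs_lt.1 h3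
        unfold S0
        rw [Finset.mem_Icc]
        exact ⟨h4.1.le, h4.2.le⟩
      have hsup : Sup σ ν ν 0 (fun n => if n ∈ t then a n else 0) := by
        intro m hm
        by_cases hmt : m ∈ t
        · rw [ht, Finset.mem_filter] at hmt
          refine ⟨?_, ?_⟩
          · have := @mem_arc_of_idx m
            rw [hmt.2] at this
            exact this
          · by_contra hc
            exact idx_lower (not_le.1 hc) (by rw [hmt.2]) hν
        · simp [hmt] at hm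
      have h1 := hblock ν σ (fun n => if n ∈ t then a n else 0) (by omega) hsup
      have h2 : ∀ y : E l, FS (l + 1) t a (Gr j φ y) =
          FS (l + 1) (S0 ν) (fun n => if n ∈ t then a n else 0) (Gr j φ y) :=
        fun y => FS_ext t _ hsub a _
      have h3 : ∑ n ∈ S0 ν, ‖(if n ∈ t then a n else 0 : ℂ)‖ₑ ^ 2 ≤ X := by
        calc ∑ n ∈ S0 ν, ‖(if n ∈ t then a n else 0 : ℂ)‖ₑ ^ 2
            = ∑ n ∈ t, ‖(if n ∈ t then a n else 0 : ℂ)‖ₑ ^ 2 := by
              refine (Finset.sum_subset hsub ?_).symm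
              intro n _ hn
              simp [hn]
          _ = ∑ n ∈ t, ‖a n‖ₑ ^ 2 := by
              refine Finset.sum_congr rfl (fun n hn => ?_)
              simp [hn]
          _ ≤ X := Finset.sum_le_sum_of_subset (Finset.filter_subset _ _)
      have h4 : (2 : ℝ≥0∞) ^ (ε / 2 * ν) ≤ 2 ^ (ε / 2) * (N : ℝ≥0∞) ^ (ε / 2) := by
        have h5 : (2 : ℝ≥0∞) ^ ν ≤ 2 * (N : ℝ≥0∞) := by
          calc (2 : ℝ≥0∞) ^ ν ≤ 2 ^ M := pow_le_pow_right₀ (by norm_num) (by omega)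
            _ ≤ 2 * (N : ℝ≥0∞) := by exact_mod_cast hMN
        calc (2 : ℝ≥0∞) ^ (ε / 2 * ν) = ((2 : ℝ≥0∞) ^ ν) ^ (ε / 2) := by
              rw [mul_comm, ENNReal.rpow_mul, ENNReal.rpow_natCast]
          _ ≤ (2 * (N : ℝ≥0∞)) ^ (ε / 2) := ENNReal.rpow_le_rpow h5 (by positivity)
          _ = 2 ^ (ε / 2) * (N : ℝ≥0∞) ^ (ε / 2) := ENNReal.mul_rpow_of_nonneg _ _ (by positivity)
      calc ∫⁻ y in K, ‖FS (l + 1) t a (Gr j φ y)‖ₑ ^ P l
          = ∫⁻ y in K, ‖FS (l + 1) (S0 ν) (fun n => if n ∈ t then a n else 0)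
              (Gr j φ y)‖ₑ ^ P l := by
            simp only [h2]
        _ ≤ A * 2 ^ (ε / 2 * ν) *
            (∑ n ∈ S0 ν, ‖(if n ∈ t then a n else 0 : ℂ)‖ₑ ^ 2) ^ (P l / 2) := h1
        _ ≤ (A + volume K) * (2 ^ (ε / 2) * (N : ℝ≥0∞) ^ (ε / 2)) * X ^ (P l / 2) := by
            gcongr
            exact le_self_add
        _ = ((A + volume K) * 2 ^ (ε / 2)) * (N : ℝ≥0∞) ^ (ε / 2) * X ^ (P l / 2) := by ring
  -- the assembly
  have hmeas : ∀ q ∈ I, AEMeasurable (fun y => ‖FS (l + 1) (s.filter (fun n => idx n = q)) a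
      (Gr j φ y)‖ₑ ^ P l) (volume.restrict K) := by
    intro q _
    have h1 := (fnl_cont j hφ.continuous (s.filter (fun n => idx n = q)) a).aemeasurable
      (μ := volume.restrict K)
    exact h1.enorm.pow_const _
  calc ∫⁻ y in K, ‖FS (l + 1) s a (Gr j φ y)‖ₑ ^ P l
      ≤ ∫⁻ y in K, (I.card : ℝ≥0∞) ^ P l * ∑ q ∈ I,
          ‖FS (l + 1) (s.filter (fun n => idx n = q)) a (Gr j φ y)‖ₑ ^ P l := by
        refine lintegral_mono (fun y => ?_)
        have h1 := FS_split N M hNM a (Gr j φ y : E (l + 1))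
        calc ‖FS (l + 1) s a (Gr j φ y)‖ₑ ^ P l
            ≤ (∑ q ∈ I, ‖FS (l + 1) (s.filter (fun n => idx n = q)) a
                (Gr j φ y)‖ₑ) ^ P l := by
              refine ENNReal.rpow_le_rpow ?_ hP0.le
              rw [h1]
              exact enorm_sum_le _ _
          _ ≤ _ := tha_pow_sum hP0 I _
    _ = (I.card : ℝ≥0∞) ^ P l * ∑ q ∈ I, ∫⁻ y in K,
          ‖FS (l + 1) (s.filter (fun n => idx n = q)) a (Gr j φ y)‖ₑ ^ P l := by
        rw [lintegral_const_mul' _ _ (ENNReal.rpow_ne_top_of_nonneg hP0.le (by simp)),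
          lintegral_finsetSum' _ hmeas]
    _ ≤ (I.card : ℝ≥0∞) ^ P l * ∑ q ∈ I,
          ((A + volume K) * 2 ^ (ε / 2)) * (N : ℝ≥0∞) ^ (ε / 2) * X ^ (P l / 2) := by
        gcongr with q hq
        exact hpart q hq
    _ = (I.card : ℝ≥0∞) ^ (P l + 1) *
          (((A + volume K) * 2 ^ (ε / 2)) * (N : ℝ≥0∞) ^ (ε / 2) * X ^ (P l / 2)) := by
        rw [Finset.sum_const, nsmul_eq_mul, ← mul_assoc]
        congr 1
        rw [ENNReal.rpow_add_of_nonneg _ _ hP0.le zero_le_one, ENNReal.rpow_one]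
    _ ≤ (C * (N : ℝ≥0∞) ^ (ε / 2)) *
          (((A + volume K) * 2 ^ (ε / 2)) * (N : ℝ≥0∞) ^ (ε / 2) * X ^ (P l / 2)) := by
        gcongr
        rw [hIcard]
        exact hparts N hN
    _ = C * ((A + volume K) * 2 ^ (ε / 2)) * ((N : ℝ≥0∞) ^ (ε / 2) * (N : ℝ≥0∞) ^ (ε / 2)) *
          X ^ (P l / 2) := by ring
    _ = C * ((A + volume K) * 2 ^ (ε / 2)) * (N : ℝ≥0∞) ^ ε * X ^ (P l / 2) := by
        rw [← ENNReal.rpow_add_of_nonneg _ _ (by positivity) (by positivity), add_halves]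

theorem cfull_low (l : ℕ) (hl : 1 ≤ l) (j : Fin (l + 1)) {φ : E l → ℝ} (hφ : ContDiff ℝ 2 φ)
    {K : Set (E l)} (hK : IsCompact K)
    (h : ∀ y ∈ K, Function.Injective (fderiv ℝ (fderiv ℝ φ) y)) {p : ℝ} (hp : 0 < p)
    (hp' : p ≤ P l) {ε : ℝ} (hε : 0 < ε) :
    ∃ A : ℝ≥0∞, A ≠ ⊤ ∧ ∀ (N : ℕ) (a : ℤ → ℂ), 1 ≤ N →
      ∫⁻ y in K, ‖FS (l + 1) (Icc (-(N : ℤ)) N) a (Gr j φ y)‖ₑ ^ p ≤
        A * (N : ℝ≥0∞) ^ ε * (∑ n ∈ Icc (-(N : ℤ)) N, ‖a n‖ₑ ^ 2) ^ (p / 2) := by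
  have hP1 := P_pos hl
  have hP0 : 0 < P l := by linarith
  obtain ⟨A, hA, hfull⟩ := cfull l hl j hφ hK h (ε := ε * P l / p) (by positivity)
  have hSf : volume K ≠ ⊤ := hK.measure_lt_top.ne
  have hr0 : 0 ≤ p / P l := by positivity
  have hr1 : 0 ≤ 1 - p / P l := by
    rw [sub_nonneg, div_le_one hP0]
    exact hp'
  refine ⟨A ^ (p / P l) * volume K ^ (1 - p / P l), ?_, ?_⟩
  · exact ENNReal.mul_ne_top (ENNReal.rpow_ne_top_of_nonneg hr0 hA)
      (ENNReal.rpow_ne_top_of_nonneg hr1 hSf)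
  intro N a hN
  set F : E l → ℂ := fun y => FS (l + 1) (Icc (-(N : ℤ)) N) a (Gr j φ y) with hF
  have hFm : AEStronglyMeasurable F (volume.restrict K) :=
    (fnl_cont j hφ.continuous _ a).aestronglyMeasurable
  have h1 := eLpNorm'_le_eLpNorm'_mul_rpow_measure_univ hp hp' hFm
  have h2 : ∫⁻ y in K, ‖F y‖ₑ ^ p ≤
      (∫⁻ y in K, ‖F y‖ₑ ^ P l) ^ (p / P l) * volume K ^ (1 - p / P l) := by
    have h3 := ENNReal.rpow_le_rpow h1 hp.le
    unfold eLpNorm' at h3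
    rw [ENNReal.mul_rpow_of_nonneg _ _ hp.le, ← ENNReal.rpow_mul, ← ENNReal.rpow_mul,
      ← ENNReal.rpow_mul, one_div_mul_cancel hp.ne', ENNReal.rpow_one,
      Measure.restrict_apply_univ] at h3
    refine h3.trans (le_of_eq ?_)
    congr 2
    · ring
    · field_simp
  refine h2.trans ?_
  have h4 := hfull N a hN
  calc (∫⁻ y in K, ‖F y‖ₑ ^ P l) ^ (p / P l) * volume K ^ (1 - p / P l)
      ≤ (A * (N : ℝ≥0∞) ^ (ε * P l / p) * (∑ n ∈ Icc (-(N : ℤ)) N, ‖a n‖ₑ ^ 2) ^ (P l / 2)) ^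
          (p / P l) * volume K ^ (1 - p / P l) := by
        gcongr
    _ = A ^ (p / P l) * volume K ^ (1 - p / P l) * (N : ℝ≥0∞) ^ ε *
          (∑ n ∈ Icc (-(N : ℤ)) N, ‖a n‖ₑ ^ 2) ^ (p / 2) := by
        rw [ENNReal.mul_rpow_of_nonneg _ _ hr0, ENNReal.mul_rpow_of_nonneg _ _ hr0,
          ← ENNReal.rpow_mul, ← ENNReal.rpow_mul]
        have e1 : ε * P l / p * (p / P l) = ε := by field_simp
        have e2 : P l / 2 * (p / P l) = p / 2 := by field_simp
        rw [e1, e2]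
        ring

theorem main_thm (m : ℕ) (hm : 1 ≤ m) (j : Fin (m + 1)) {φ : E m → ℝ} (hφ : ContDiff ℝ 2 φ)
    {K : Set (E m)} (hK : IsCompact K)
    (h : ∀ y ∈ K, Function.Injective (fderiv ℝ (fderiv ℝ φ) y)) {p : ℝ} (hp : 0 < p)
    (hp' : p ≤ ((m + 1 : ℝ) * (m : ℝ))) {ε : ℝ} (hε : 0 < ε) : ∃ C : ℝ, ∀ N : ℕ, 1 ≤ N → ∀ a : ℤ → ℂ,
      (∫ y in K, ‖∑ n ∈ Finset.Icc (-(N : ℤ)) N,
          a n * Complex.exp (2 * (Real.pi : ℂ) * Complex.I *
            (((∑ k : Fin (m + 1), ((n : ℝ) ^ (k.val + 1)) *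
                (Fin.insertNth (α := fun _ => ℝ) j (φ y) y) k : ℝ)) : ℂ))‖ ^ p) ^ (1 / p)
        ≤ C * (N : ℝ) ^ ε * Real.sqrt (∑ n ∈ Finset.Icc (-(N : ℤ)) N, ‖a n‖ ^ 2) := by
  have hP : p ≤ P m := by
    unfold P
    linarith
  exact real_of_lint (insert_cont j hφ.continuous) hp
    (cfull_low m hm j hφ hK h hp hP (ε := p * ε) (by positivity))

end Pool.Agent.Dcs
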