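import Pool.Agent.Dcs.Defs

/-!
# Dcs, module Gmp: the Gauss map

`g y = (pd φ i y)_i : E m → E m` is `C^1` (`φ` is `C^2`), its derivative at `y` is `v ↦ (fderiv (fderiv φ) y v (Pi.single i 1))_i`, injective at `y0` because a
functional vanishing on all `Pi.single i 1` is zero; so it is a linear isomorphism of `E m` (finite dimension,
`LinearEquiv.ofInjectiveEndo`, `ContinuousLinearEquiv`).  By the inverse function theorem (`ContDiffAt.toOpenPartialHomeomorph` or
`HasStrictFDerivAt.toOpenPartialHomeomorph`; name may be `toPartialHomeomorph`) `g` is injective on a neighbourhood of `y0`; by continuity of the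
determinant `|det g'(y)| ≥ c > 0` on a ball around `y0`.  For a measurable set `B'` contained in such a ball
`c volume B' ≤ ∫⁻_{B'} |det g'| = volume (g '' B')` (`MeasureTheory.lintegral_abs_det_fderiv_eq_addHaar_image`), and for
`B' = {y ∈ ball y0 r | ∀ i, |pd φ i y| ≤ ρ i}` the image is contained in `∏ [-ρ i, ρ i]`, of volume `∏ ofReal (2 ρ i)`.
-/

set_option autoImplicit false

namespace Pool.Agent.Dcs

open MeasureTheory Finset Pool.Agent.Dcp
open scoped ENNReal

theorem pd_cont {m : ℕ} {φ : E m → ℝ} (hφ : ContDiff ℝ 1 φ) (i : Fin m) : Continuous (pd φ i) := by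
  exact (hφ.continuous_fderiv (by norm_num)).clm_apply continuous_const

/-- evaluation of a functional at the standard basis -/
private noncomputable def gmpL (m : ℕ) : (E m →L[ℝ] ℝ) →L[ℝ] E m :=
  ContinuousLinearMap.pi (fun i => ContinuousLinearMap.apply ℝ ℝ (Pi.single i (1 : ℝ)))

private theorem gmpL_apply {m : ℕ} (l : E m →L[ℝ] ℝ) (i : Fin m) :
    gmpL m l i = l (Pi.single i 1) := rfl

private theorem gmpL_inj (m : ℕ) : Function.Injective (gmpL m) := by
  intro l l' h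
  refine ContinuousLinearMap.coe_injective ((Pi.basisFun ℝ (Fin m)).ext fun i => ?_)
  rw [Pi.basisFun_apply]
  exact congrFun h i

theorem gm_vol {m : ℕ} {φ : E m → ℝ} (hφ : ContDiff ℝ 2 φ) (y0 : E m)
    (h : Function.Injective (fderiv ℝ (fderiv ℝ φ) y0)) :
    ∃ r : ℝ, 0 < r ∧ ∃ C : ℝ≥0∞, C ≠ ⊤ ∧ ∀ ρ : Fin m → ℝ,
      volume {y : E m | y ∈ Metric.ball y0 r ∧ ∀ i, |pd φ i y| ≤ ρ i} ≤
        C * ∏ i, ENNReal.ofReal (ρ i) := by
  have hφ1 : ContDiff ℝ 1 (fderiv ℝ φ) := hφ.fderiv_right (by norm_num)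
  obtain ⟨g, hg⟩ : ∃ g : E m → E m, g = fun y => gmpL m (fderiv ℝ φ y) := ⟨_, rfl⟩
  obtain ⟨g', hg'⟩ : ∃ g' : E m → E m →L[ℝ] E m, g' = fun y =>
      (gmpL m).comp (fderiv ℝ (fderiv ℝ φ) y) := ⟨_, rfl⟩
  have hgi : ∀ y i, g y i = pd φ i y := by
    intro y i
    rw [hg]
    rfl
  have hgC : ContDiff ℝ 1 g := by
    rw [hg]
    exact (gmpL m).contDiff.comp hφ1
  have hd : ∀ y, HasFDerivAt g (g' y) y := by
    intro y
    rw [hg, hg']
    have h1 : HasFDerivAt (fderiv ℝ φ) (fderiv ℝ (fderiv ℝ φ) y) y :=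
      (hφ1.differentiable (by norm_num) y).hasFDerivAt
    exact (gmpL m).hasFDerivAt.comp y h1
  have hg'c : Continuous g' := by
    rw [hg']
    exact continuous_const.clm_comp (hφ1.continuous_fderiv (by norm_num))
  have hinj : Function.Injective (g' y0) := by
    rw [hg']
    exact (gmpL_inj m).comp h
  have hdet : (g' y0).det ≠ 0 := by
    intro h0
    have h1 := LinearMap.bot_lt_ker_of_det_eq_zero (f := ((g' y0 : E m →L[ℝ] E m) : E m →ₗ[ℝ] E m)) h0
    rw [LinearMap.ker_eq_bot.2 hinj] at h1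
    exact lt_irrefl _ h1
  obtain ⟨e, he⟩ : ∃ e : E m ≃L[ℝ] E m, (e : E m →L[ℝ] E m) = g' y0 := by
    refine ⟨(LinearEquiv.ofInjectiveEndo ((g' y0 : E m →L[ℝ] E m) : E m →ₗ[ℝ] E m)
      hinj).toContinuousLinearEquiv, ?_⟩
    ext v
    rfl
  have hst : HasStrictFDerivAt g (e : E m →L[ℝ] E m) y0 := by
    rw [he]
    exact hgC.contDiffAt.hasStrictFDerivAt' (hd y0) (by norm_num)
  have hinjOn := (hst.toOpenPartialHomeomorph g).injOn
  have hsrc := (hst.toOpenPartialHomeomorph g).open_source.mem_nhds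
    hst.mem_toOpenPartialHomeomorph_source
  rw [HasStrictFDerivAt.toOpenPartialHomeomorph_coe] at hinjOn
  obtain ⟨c, hc⟩ : ∃ c, c = |(g' y0).det| / 2 := ⟨_, rfl⟩
  have hc0 : 0 < c := by
    rw [hc]
    have := abs_pos.2 hdet
    linarith
  have hdc : Continuous fun y => |(g' y).det| :=
    (ContinuousLinearMap.continuous_det.comp hg'c).abs
  have hcn : {y : E m | c < |(g' y).det|} ∈ nhds y0 := by
    refine (isOpen_lt continuous_const hdc).mem_nhds ?_
    change c < |(g' y0).det|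
    rw [hc]
    have := abs_pos.2 hdet
    linarith
  obtain ⟨r, hr, hball⟩ := Metric.mem_nhds_iff.1 (Filter.inter_mem hsrc hcn)
  refine ⟨r, hr, (ENNReal.ofReal c)⁻¹ * 2 ^ m, ?_, ?_⟩
  · refine ENNReal.mul_ne_top (ENNReal.inv_ne_top.2 ?_) (ENNReal.pow_ne_top (by norm_num))
    exact (ENNReal.ofReal_pos.2 hc0).ne'
  intro ρ
  obtain ⟨B, hB⟩ : ∃ B : Set (E m), B = {y : E m | y ∈ Metric.ball y0 r ∧ ∀ i, |pd φ i y| ≤ ρ i} :=
    ⟨_, rfl⟩
  rw [← hB]
  have hBm : MeasurableSet B := by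
    have h1 : B = Metric.ball y0 r ∩ ⋂ i, {y : E m | |pd φ i y| ≤ ρ i} := by
      rw [hB]
      ext y
      simp only [Set.mem_ofPred_eq, Set.mem_inter_iff, Set.mem_iInter]
    rw [h1]
    refine measurableSet_ball.inter (MeasurableSet.iInter fun i => ?_)
    exact (isClosed_le (pd_cont (hφ.of_le (by norm_num)) i).abs continuous_const).measurableSet
  have hBball : ∀ y ∈ B, y ∈ Metric.ball y0 r := by
    intro y hy
    rw [hB] at hy
    exact hy.1
  have hBρ : ∀ y ∈ B, ∀ i, |pd φ i y| ≤ ρ i := by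
    intro y hy
    rw [hB] at hy
    exact hy.2
  have h1 := lintegral_abs_det_fderiv_eq_addHaar_image (volume : Measure (E m)) hBm
    (fun y _ => (hd y).hasFDerivWithinAt) (hinjOn.mono fun y hy => (hball (hBball y hy)).1)
  have h2 : ENNReal.ofReal c * volume B ≤ ∫⁻ y in B, ENNReal.ofReal |(g' y).det| := by
    rw [← setLIntegral_const]
    refine setLIntegral_mono' hBm fun y hy => ?_
    exact ENNReal.ofReal_le_ofReal (hball (hBball y hy)).2.le
  have h3 : volume (g '' B) ≤ 2 ^ m * ∏ i, ENNReal.ofReal (ρ i) := by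
    have h4 : g '' B ⊆ Set.pi Set.univ (fun i => Set.Icc (-ρ i) (ρ i)) := by
      rintro _ ⟨y, hy, rfl⟩ i _
      rw [hgi]
      exact abs_le.1 (hBρ y hy i)
    refine (measure_mono h4).trans (le_of_eq ?_)
    rw [volume_pi_pi]
    have h5 : ∀ i : Fin m, volume (Set.Icc (-ρ i) (ρ i)) = 2 * ENNReal.ofReal (ρ i) := by
      intro i
      rw [Real.volume_Icc, sub_neg_eq_add, ← two_mul, ENNReal.ofReal_mul (by norm_num)]
      norm_num
    rw [Finset.prod_congr rfl fun i _ => h5 i, Finset.prod_mul_distrib, Finset.prod_const,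
      Finset.card_univ, Fintype.card_fin]
  have h6 : ENNReal.ofReal c * volume B ≤ 2 ^ m * ∏ i, ENNReal.ofReal (ρ i) :=
    h2.trans (h1.le.trans h3)
  rw [ENNReal.mul_le_iff_le_inv (ENNReal.ofReal_pos.2 hc0).ne' ENNReal.ofReal_ne_top] at h6
  rw [mul_assoc]
  exact h6

end Pool.Agent.Dcs
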