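import Pool.Agent.Dcs.Lmv
import Pool.Agent.Dcp.Lin

/-!
# Dcs, module Rsc: the local mean value theorem for all `ν`

Given `ν` let `μ = (ν + l² - 1)/l²` (natural division), `ν' = l² μ`, `c = ν' - ν ≤ l²`, `ν ≤ ν'`, `μ ≤ ν + 1`.  For `a` with `Sup σ ν ν 0 a` put
`a' m' = a (m'/2^c)` if `2^c ∣ m'`, else `0`.  Then `Sup σ ν' ν' 0 a'` (`arc σ ν ν 0` is `[0, 2^ν)` for `σ = 0`, `[-2^ν, 0)` for `σ = 1`),
`∑ ‖a'‖² = ∑ ‖a‖²` and `FS (S0 ν) a x = FS (S0 ν') a' (fun i => x i / 2^(c (i+1)))` (the map `m ↦ 2^c m` is a bijection from the support of `a` to the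
support of `a'`; terms outside the supports vanish).  Change of variables `x_i = 2^(c (i+1)) y_i` (`lint_scale`-like lemma for a diagonal map, or
`MeasureTheory.Measure.addHaar_preimage_linearMap`/`lint_mat` from Dcp/Lin): `∫_{bx τ (2^(-ν))} g(x_i/2^(c(i+1))) dx =
∏ 2^(c(i+1)) ∫_{bx τ' (2^(-ν-c(i+1)))} g ≤ ∏ 2^(c(i+1)) ∫_{bx τ' (2^(-ν'))} g` (`ν + c (i+1) ≥ ν'`), `∏ 2^(c(i+1)) ≤ 2^(l² (l+1)²)`, and
`2^(-ν' (l+1)) ≤ 2^(-ν (l+1))`.
-/

set_option autoImplicit false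

namespace Pool.Agent.Dcs

open MeasureTheory Finset Pool.Agent.Dcp
open scoped ENNReal

private theorem rsc_cont (d : ℕ) (s : Finset ℤ) (a : ℤ → ℂ) : Continuous (FS d s a) := by
  unfold FS
  refine continuous_finset_sum _ fun n _ => ?_
  refine continuous_const.mul (ee_cont.comp ?_)
  exact continuous_finset_sum _ fun i _ => continuous_const.mul (continuous_apply i)

/-- the coefficients moved to the multiples of `2^c` -/
private noncomputable def dil (c : ℕ) (a : ℤ → ℂ) : ℤ → ℂ :=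
  fun m => if (2 : ℤ) ^ c ∣ m then a (m / 2 ^ c) else 0

private theorem dil_mul (c : ℕ) (a : ℤ → ℂ) (m : ℤ) : dil c a (2 ^ c * m) = a m := by
  have h : (2 : ℤ) ^ c ≠ 0 := pow_ne_zero _ (by norm_num)
  rw [dil, if_pos (Dvd.intro _ rfl), Int.mul_ediv_cancel_left _ h]

private theorem dil_zero (c : ℕ) (a : ℤ → ℂ) (m : ℤ) (h : ¬ (2 : ℤ) ^ c ∣ m) : dil c a m = 0 := by
  rw [dil, if_neg h]

private theorem sum_dil {M : Type*} [AddCommMonoid M] (ν c : ℕ) (g : ℤ → M)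
    (hg : ∀ m', ¬ (2 : ℤ) ^ c ∣ m' → g m' = 0) :
    ∑ m ∈ S0 ν, g (2 ^ c * m) = ∑ m' ∈ S0 (ν + c), g m' := by
  classical
  have hc : (0 : ℤ) < 2 ^ c := by positivity
  have hinj : Set.InjOn (fun m : ℤ => 2 ^ c * m) (S0 ν) := by
    intro x _ y _ h
    exact mul_left_cancel₀ hc.ne' h
  have h1 : ∑ m ∈ S0 ν, g (2 ^ c * m) = ∑ m' ∈ (S0 ν).image (fun m : ℤ => 2 ^ c * m), g m' :=
    (Finset.sum_image hinj).symm
  rw [h1]
  refine Finset.sum_subset ?_ ?_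
  · intro m' hm'
    obtain ⟨m, hm, rfl⟩ := Finset.mem_image.1 hm'
    rw [S0, Finset.mem_Icc] at hm ⊢
    rw [pow_add]
    constructor
    · nlinarith [hm.1]
    · nlinarith [hm.2]
  · intro m' hm' hn
    apply hg
    rintro ⟨m, rfl⟩
    apply hn
    refine Finset.mem_image.2 ⟨m, ?_, rfl⟩
    rw [S0, Finset.mem_Icc, pow_add] at hm'
    rw [S0, Finset.mem_Icc]
    constructor
    · by_contra hcon
      push Not at hcon
      nlinarith [hm'.1]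
    · by_contra hcon
      push Not at hcon
      nlinarith [hm'.2]

private theorem FS_dil (l ν c : ℕ) (a : ℤ → ℂ) (x : E (l + 1)) :
    FS (l + 1) (S0 ν) a x =
      FS (l + 1) (S0 (ν + c)) (dil c a) (fun i => x i / 2 ^ (c * (i.val + 1))) := by
  unfold FS
  rw [← sum_dil ν c (fun m' => dil c a m' * ee (∑ i : Fin (l + 1), (m' : ℝ) ^ (i.val + 1) *
    (x i / 2 ^ (c * (i.val + 1)))))]
  · refine Finset.sum_congr rfl fun m _ => ?_
    rw [dil_mul]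
    congr 2
    refine Finset.sum_congr rfl fun i _ => ?_
    have h2 : ((2 : ℝ) ^ (c * (i.val + 1))) ≠ 0 := pow_ne_zero _ (by norm_num)
    push_cast
    rw [mul_pow, ← pow_mul]
    field_simp
  · intro m' hm'
    rw [dil_zero c a m' hm', zero_mul]

private theorem norm_dil (ν c : ℕ) (a : ℤ → ℂ) :
    ∑ m ∈ S0 (ν + c), ‖dil c a m‖ₑ ^ 2 = ∑ m ∈ S0 ν, ‖a m‖ₑ ^ 2 := by
  rw [← sum_dil ν c (fun m' => ‖dil c a m'‖ₑ ^ 2)]
  · refine Finset.sum_congr rfl fun m _ => ?_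
    rw [dil_mul]
  · intro m' hm'
    rw [dil_zero c a m' hm']
    simp

private theorem Sup_dil {σ ν : ℕ} (c : ℕ) {a : ℤ → ℂ} (h : Sup σ ν ν 0 a) :
    Sup σ (ν + c) (ν + c) 0 (dil c a) := by
  intro m' hm'
  have hd : (2 : ℤ) ^ c ∣ m' := by
    by_contra hcon
    exact hm' (dil_zero c a m' hcon)
  obtain ⟨m, rfl⟩ := hd
  rw [dil_mul] at hm'
  obtain ⟨h1, h2⟩ := h m hm'
  have hc : (0 : ℤ) < 2 ^ c := by positivity
  constructor
  · rw [arc, Finset.mem_image] at h1 ⊢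
    obtain ⟨j, hj, rfl⟩ := h1
    rw [bk, Finset.mem_Ico] at hj
    refine ⟨2 ^ c * j, ?_, ?_⟩
    · rw [bk, Finset.mem_Ico]
      constructor
      · simp
      · have h3 : j < 2 ^ ν := by simpa using hj.2
        have h4 : (0 : ℕ) < 2 ^ c := by positivity
        rw [zero_add, one_mul, pow_add, mul_comm (2 ^ ν)]
        exact (Nat.mul_lt_mul_left h4).2 h3
    · push_cast
      rw [pow_add]
      ring
  · rw [abs_mul, abs_of_pos hc, pow_add]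
    nlinarith

private theorem key {l : ℕ} (ν c : ℕ) (hc : c ≤ l ^ 2) (a : ℤ → ℂ) (τ : E (l + 1)) :
    ∫⁻ x in bx τ (rN l ν), ‖FS (l + 1) (S0 ν) a x‖ₑ ^ P l ≤
      (∏ i : Fin (l + 1), ENNReal.ofReal ((2 : ℝ) ^ (l ^ 2 * (i.val + 1)))) *
        ∫⁻ y in bx (fun i => τ i / 2 ^ (c * (i.val + 1))) (rN l (ν + c)),
          ‖FS (l + 1) (S0 (ν + c)) (dil c a) y‖ₑ ^ P l := by
  classical
  have hq : ∀ i : Fin (l + 1), (0 : ℝ) < 2 ^ (c * (i.val + 1)) := fun i => by positivity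
  set D : Matrix (Fin (l + 1)) (Fin (l + 1)) ℝ :=
    Matrix.diagonal (fun i => ((2 : ℝ) ^ (c * (i.val + 1)))⁻¹) with hD
  have hDx : ∀ x : E (l + 1), D.mulVec x = fun i => x i / 2 ^ (c * (i.val + 1)) := by
    intro x
    funext i
    rw [hD, Matrix.mulVec_diagonal, div_eq_inv_mul]
  have hdet : D.det = ∏ i : Fin (l + 1), ((2 : ℝ) ^ (c * (i.val + 1)))⁻¹ := by
    rw [hD, Matrix.det_diagonal]
  have hdpos : 0 < D.det := by
    rw [hdet]
    exact Finset.prod_pos fun i _ => inv_pos.2 (hq i)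
  set G : E (l + 1) → ℝ≥0∞ := fun y => ‖FS (l + 1) (S0 (ν + c)) (dil c a) y‖ₑ ^ P l with hG
  have hGm : Measurable G := (rsc_cont _ _ _).measurable.enorm.pow_const _
  set τ' : E (l + 1) := fun i => τ i / 2 ^ (c * (i.val + 1)) with hτ'
  set r' : E (l + 1) := fun i => ((2 : ℝ) ^ ν)⁻¹ / 2 ^ (c * (i.val + 1)) with hr'
  have hmem : ∀ x : E (l + 1), x ∈ bx τ (rN l ν) ↔ D.mulVec x ∈ bx τ' r' := by
    intro x
    rw [hDx, bx, bx, Set.mem_univ_pi, Set.mem_univ_pi]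
    refine forall_congr' fun i => ?_
    rw [Set.mem_Ico, Set.mem_Ico]
    simp only [hτ', hr', rN]
    rw [← add_div, div_le_div_iff_of_pos_right (hq i), div_lt_div_iff_of_pos_right (hq i)]
  have h1 : ∫⁻ x in bx τ (rN l ν), ‖FS (l + 1) (S0 ν) a x‖ₑ ^ P l =
      ∫⁻ x, (bx τ' r').indicator G (D.mulVec x) := by
    rw [← lintegral_indicator (bx_meas _ _)]
    refine lintegral_congr fun x => ?_
    by_cases hx : x ∈ bx τ (rN l ν)
    · rw [Set.indicator_of_mem hx, Set.indicator_of_mem ((hmem x).1 hx), hG]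
      simp only
      rw [FS_dil l ν c a x, hDx]
    · rw [Set.indicator_of_notMem hx, Set.indicator_of_notMem (fun h => hx ((hmem x).2 h))]
  have h2 := lint_mat D hdpos.ne' ((bx τ' r').indicator G) (hGm.indicator (bx_meas _ _))
  rw [h1, h2, lintegral_indicator (bx_meas _ _)]
  refine mul_le_mul' ?_ ?_
  · rw [← ENNReal.ofReal_prod_of_nonneg (fun i _ => by positivity)]
    refine ENNReal.ofReal_le_ofReal ?_
    rw [abs_of_pos hdpos, hdet, ← Finset.prod_inv_distrib]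
    refine Finset.prod_le_prod (fun i _ => by simp only [inv_inv]; exact (hq i).le) fun i _ => ?_
    rw [inv_inv]
    exact pow_le_pow_right₀ (by norm_num) (Nat.mul_le_mul_right _ hc)
  · refine lintegral_mono_set ?_
    intro y hy
    rw [bx, Set.mem_univ_pi] at hy ⊢
    intro i
    obtain ⟨h3, h4⟩ := hy i
    refine ⟨h3, h4.trans_le ?_⟩
    have h5 : r' i ≤ rN l (ν + c) i := by
      simp only [hr', rN]
      rw [div_eq_mul_inv, ← mul_inv, ← pow_add]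
      refine inv_anti₀ (by positivity) (pow_le_pow_right₀ (by norm_num) ?_)
      nlinarith
    linarith

theorem lmv (l : ℕ) (hl : 1 ≤ l) {ε : ℝ} (hε : 0 < ε) : ∃ K : ℝ≥0∞, K ≠ ⊤ ∧
    ∀ ν : ℕ, BdR l ν ν (rN l ν) (K * 2 ^ (ε * ν)) := by
  obtain ⟨K, hK, h0⟩ := lmv0 l hl hε
  set C : ℝ≥0∞ := ∏ i : Fin (l + 1), ENNReal.ofReal ((2 : ℝ) ^ (l ^ 2 * (i.val + 1))) with hC
  have hCt : C ≠ ⊤ := ENNReal.prod_ne_top fun i _ => ENNReal.ofReal_ne_top
  refine ⟨C * K, ENNReal.mul_ne_top hCt hK, fun ν => ?_⟩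
  have hl2 : 1 ≤ l ^ 2 := Nat.one_le_pow _ _ hl
  obtain ⟨μ, c, hc, hcl, hμ⟩ : ∃ μ c : ℕ, l ^ 2 * μ = ν + c ∧ c ≤ l ^ 2 ∧ μ ≤ ν := by
    have h1 := Nat.mul_div_le (ν + l ^ 2 - 1) (l ^ 2)
    have h2 := Nat.lt_mul_div_succ (ν + l ^ 2 - 1) (show 0 < l ^ 2 by omega)
    rw [Nat.mul_add, mul_one] at h2
    refine ⟨(ν + l ^ 2 - 1) / l ^ 2, l ^ 2 * ((ν + l ^ 2 - 1) / l ^ 2) - ν, ?_, ?_, ?_⟩
    · omega
    · omega
    · refine Nat.le_of_lt_succ (Nat.div_lt_of_lt_mul ?_)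
      have h3 : ν ≤ l ^ 2 * ν := Nat.le_mul_of_pos_left _ (by omega)
      rw [Nat.mul_succ]
      omega
  intro σ i a τ hσ hi hS
  have hi0 : i = 0 := by
    rw [Nat.sub_self, pow_zero] at hi
    omega
  subst hi0
  have h1 := h0 μ
  rw [hc] at h1
  have h2 := h1 σ 0 (dil c a) (fun i => τ i / 2 ^ (c * (i.val + 1))) hσ (by simp) (Sup_dil c hS)
  rw [norm_dil] at h2
  refine (key ν c hcl a τ).trans ((mul_le_mul_right h2 _).trans ?_)
  rw [← hC]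
  have h3 : (2 : ℝ≥0∞) ^ (ε * (μ : ℝ)) ≤ 2 ^ (ε * (ν : ℝ)) := by
    refine ENNReal.rpow_le_rpow_of_exponent_le one_le_two ?_
    exact mul_le_mul_of_nonneg_left (by exact_mod_cast hμ) hε.le
  have h4 : (∏ i : Fin (l + 1), ENNReal.ofReal (rN l (ν + c) i)) ≤
      ∏ i : Fin (l + 1), ENNReal.ofReal (rN l ν i) := by
    refine Finset.prod_le_prod' fun i _ => ENNReal.ofReal_le_ofReal ?_
    simp only [rN]
    exact inv_anti₀ (by positivity) (pow_le_pow_right₀ (by norm_num) (by omega))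
  calc C * (K * 2 ^ (ε * (μ : ℝ)) * (∏ i, ENNReal.ofReal (rN l (ν + c) i)) *
        (∑ m ∈ S0 ν, ‖a m‖ₑ ^ 2) ^ (P l / 2))
      ≤ C * (K * 2 ^ (ε * (ν : ℝ)) * (∏ i, ENNReal.ofReal (rN l ν i)) *
        (∑ m ∈ S0 ν, ‖a m‖ₑ ^ 2) ^ (P l / 2)) := by gcongr
    _ = C * K * 2 ^ (ε * (ν : ℝ)) * (∏ i, ENNReal.ofReal (rN l ν i)) *
        (∑ m ∈ S0 ν, ‖a m‖ₑ ^ 2) ^ (P l / 2) := by ring

end Pool.Agent.Dcs
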