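import Pool.Agent.Dcs.Pce
import Pool.Agent.Dcs.Rsc

/-!
# Dcs, module Kcv: one dyadic block on a compact piece

Cover `K` by finitely many balls of `piece`; `ν ≥ max ν0`: sum of the bounds with `A = K' 2^((ε/2) ν)` (`lmv`), and `ν + 1 ≤ C_ε 2^((ε/2) ν)`.
For the finitely many `ν < ν0` use the trivial bound `‖FS a x‖ ≤ ∑ ‖a m‖ ≤ (2^(ν+1)+1)^(1/2) (∑ ‖a m‖²)^(1/2)` (Cauchy-Schwarz) and `volume K < ∞`.
-/

set_option autoImplicit false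

namespace Pool.Agent.Dcs

open MeasureTheory Finset Pool.Agent.Dcp
open scoped ENNReal

private theorem kcv_lin {ε : ℝ} (hε : 0 < ε) :
    ∃ C : ℝ≥0∞, C ≠ ⊤ ∧ ∀ ν : ℕ, ((ν : ℝ≥0∞) + 1) ≤ C * 2 ^ (ε * ν) := by
  have hlog : 0 < Real.log 2 := Real.log_pos one_lt_two
  refine ⟨ENNReal.ofReal (1 / (ε * Real.log 2) + 1), ENNReal.ofReal_ne_top, fun ν => ?_⟩
  have h1 : (2 : ℝ≥0∞) ^ (ε * ν) = ENNReal.ofReal ((2 : ℝ) ^ (ε * ν)) := by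
    rw [← ENNReal.ofReal_rpow_of_pos two_pos, ENNReal.ofReal_ofNat]
  have h2 : ((ν : ℝ≥0∞) + 1) = ENNReal.ofReal ((ν : ℝ) + 1) := by
    rw [ENNReal.ofReal_add (by positivity) (by norm_num), ENNReal.ofReal_natCast,
      ENNReal.ofReal_one]
  rw [h1, h2, ← ENNReal.ofReal_mul (by positivity)]
  apply ENNReal.ofReal_le_ofReal
  have h3 : (2 : ℝ) ^ (ε * ν) = Real.exp (Real.log 2 * (ε * ν)) := Real.rpow_def_of_pos two_pos _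
  have h4 : Real.log 2 * (ε * ν) + 1 ≤ (2 : ℝ) ^ (ε * ν) := by
    rw [h3]
    exact Real.add_one_le_exp _
  have h5 : (1 : ℝ) ≤ (2 : ℝ) ^ (ε * ν) := Real.one_le_rpow (by norm_num) (by positivity)
  have h6 : (ν : ℝ) ≤ 1 / (ε * Real.log 2) * (2 : ℝ) ^ (ε * ν) := by
    rw [div_mul_eq_mul_div, one_mul, le_div_iff₀ (by positivity)]
    nlinarith
  nlinarith

private theorem kcv_cs (s : Finset ℤ) (a : ℤ → ℂ) {p : ℝ} (hp : 0 ≤ p) :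
    (∑ m ∈ s, ‖a m‖ₑ) ^ p ≤ (s.card : ℝ≥0∞) ^ (p / 2) * (∑ m ∈ s, ‖a m‖ₑ ^ 2) ^ (p / 2) := by
  have h1 : (∑ m ∈ s, ‖a m‖ₑ) ^ 2 ≤ (s.card : ℝ≥0∞) * ∑ m ∈ s, ‖a m‖ₑ ^ 2 := by
    have h := sq_sum_le_card_mul_sum_sq (s := s) (f := fun m => ‖a m‖₊)
    have h' : (((∑ m ∈ s, ‖a m‖₊) ^ 2 : NNReal) : ℝ≥0∞) ≤
        ((s.card * ∑ m ∈ s, ‖a m‖₊ ^ 2 : NNReal) : ℝ≥0∞) := by exact_mod_cast h
    push_cast at h'
    exact h'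
  rw [← ENNReal.mul_rpow_of_nonneg _ _ (by positivity : 0 ≤ p / 2)]
  calc (∑ m ∈ s, ‖a m‖ₑ) ^ p = ((∑ m ∈ s, ‖a m‖ₑ) ^ 2) ^ (p / 2) := by
        rw [← ENNReal.rpow_natCast, ← ENNReal.rpow_mul]
        congr 1
        push_cast
        ring
    _ ≤ _ := ENNReal.rpow_le_rpow h1 (by positivity)

private theorem kcv_FS (d : ℕ) (s : Finset ℤ) (a : ℤ → ℂ) (x : E d) :
    ‖FS d s a x‖ₑ ≤ ∑ m ∈ s, ‖a m‖ₑ := by
  unfold FS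
  refine (enorm_sum_le _ _).trans (le_of_eq ?_)
  refine Finset.sum_congr rfl fun m _ => ?_
  rw [enorm_mul]
  have h : ‖ee (∑ i : Fin d, (m : ℝ) ^ (i.val + 1) * x i)‖ₑ = 1 := by
    unfold ee
    rw [← ofReal_norm]
    have h1 : (2 * Real.pi * ((∑ i : Fin d, (m : ℝ) ^ (i.val + 1) * x i : ℝ) : ℂ) * Complex.I) =
        ((2 * Real.pi * (∑ i : Fin d, (m : ℝ) ^ (i.val + 1) * x i) : ℝ) : ℂ) * Complex.I := by
      push_cast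
      ring
    rw [h1, Complex.norm_exp_ofReal_mul_I, ENNReal.ofReal_one]
  rw [h, mul_one]

private theorem kcv_cover (l : ℕ) (hl : 1 ≤ l) (j : Fin (l + 1)) {φ : E l → ℝ}
    (hφ : ContDiff ℝ 2 φ) {K : Set (E l)} (hK : IsCompact K)
    (h : ∀ y ∈ K, Function.Injective (fderiv ℝ (fderiv ℝ φ) y)) :
    ∃ C : ℝ≥0∞, C ≠ ⊤ ∧ ∃ ν0 : ℕ, ∀ (ν σ : ℕ) (A : ℝ≥0∞), ν0 ≤ ν → σ ≤ 1 →
      BdR l ν ν (rN l ν) A → ∀ a : ℤ → ℂ, Sup σ ν ν 0 a →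
      ∫⁻ y in K, ‖FS (l + 1) (S0 ν) a (Gr j φ y)‖ₑ ^ P l ≤
        C * (ν + 1) * A * (∑ m ∈ S0 ν, ‖a m‖ₑ ^ 2) ^ (P l / 2) := by
  refine hK.induction_on (p := fun s => ∃ C : ℝ≥0∞, C ≠ ⊤ ∧ ∃ ν0 : ℕ,
      ∀ (ν σ : ℕ) (A : ℝ≥0∞), ν0 ≤ ν → σ ≤ 1 →
      BdR l ν ν (rN l ν) A → ∀ a : ℤ → ℂ, Sup σ ν ν 0 a →
      ∫⁻ y in s, ‖FS (l + 1) (S0 ν) a (Gr j φ y)‖ₑ ^ P l ≤
        C * (ν + 1) * A * (∑ m ∈ S0 ν, ‖a m‖ₑ ^ 2) ^ (P l / 2)) ?_ ?_ ?_ ?_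
  · refine ⟨0, ENNReal.zero_ne_top, 0, fun ν σ A _ _ _ a _ => ?_⟩
    rw [Measure.restrict_empty, lintegral_zero_measure]
    exact bot_le
  · rintro s t hst ⟨C, hC, ν0, hp⟩
    exact ⟨C, hC, ν0, fun ν σ A h1 h2 h3 a h4 =>
      (lintegral_mono_set hst).trans (hp ν σ A h1 h2 h3 a h4)⟩
  · rintro s t ⟨C, hC, ν0, hp⟩ ⟨C', hC', ν0', hp'⟩
    refine ⟨C + C', ENNReal.add_ne_top.2 ⟨hC, hC'⟩, max ν0 ν0', fun ν σ A h1 h2 h3 a h4 => ?_⟩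
    refine (lintegral_union_le _ _ _).trans ?_
    rw [add_mul, add_mul, add_mul]
    exact add_le_add (hp ν σ A ((le_max_left _ _).trans h1) h2 h3 a h4)
      (hp' ν σ A ((le_max_right _ _).trans h1) h2 h3 a h4)
  · intro y hy
    obtain ⟨r, hr, C, hC, ν0, hp⟩ := piece l hl j hφ y (h y hy)
    exact ⟨Metric.ball y r, mem_nhdsWithin_of_mem_nhds (Metric.ball_mem_nhds y hr), C, hC, ν0, hp⟩

theorem blk (l : ℕ) (hl : 1 ≤ l) (j : Fin (l + 1)) {φ : E l → ℝ} (hφ : ContDiff ℝ 2 φ)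
    {K : Set (E l)} (hK : IsCompact K)
    (h : ∀ y ∈ K, Function.Injective (fderiv ℝ (fderiv ℝ φ) y)) {ε : ℝ} (hε : 0 < ε) :
    ∃ C : ℝ≥0∞, C ≠ ⊤ ∧ ∀ (ν σ : ℕ) (a : ℤ → ℂ), σ ≤ 1 → Sup σ ν ν 0 a →
      ∫⁻ y in K, ‖FS (l + 1) (S0 ν) a (Gr j φ y)‖ₑ ^ P l ≤
        C * 2 ^ (ε * ν) * (∑ m ∈ S0 ν, ‖a m‖ₑ ^ 2) ^ (P l / 2) := by
  obtain ⟨C1, hC1, ν0, hp⟩ := kcv_cover l hl j hφ hK h
  obtain ⟨K', hK', hlmv⟩ := lmv l hl (half_pos hε)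
  obtain ⟨C2, hC2, hlin⟩ := kcv_lin (half_pos hε)
  have hP : 0 ≤ P l := by
    unfold P
    positivity
  have hKv : volume K ≠ ⊤ := hK.measure_lt_top.ne
  refine ⟨C1 * C2 * K' + volume K * ((S0 ν0).card : ℝ≥0∞) ^ (P l / 2),
    ENNReal.add_ne_top.2 ⟨ENNReal.mul_ne_top (ENNReal.mul_ne_top hC1 hC2) hK',
      ENNReal.mul_ne_top hKv (ENNReal.rpow_ne_top_of_nonneg (by positivity)
        (ENNReal.natCast_ne_top _))⟩, fun ν σ a hσ hsup => ?_⟩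
  rcases le_or_gt ν0 ν with hν | hν
  · refine (hp ν σ _ hν hσ (hlmv ν) a hsup).trans ?_
    refine mul_le_mul_left ?_ _
    have h2 : (2 : ℝ≥0∞) ^ (ε * ν) = 2 ^ (ε / 2 * ν) * 2 ^ (ε / 2 * ν) := by
      rw [← ENNReal.rpow_add _ _ two_ne_zero ENNReal.ofNat_ne_top]
      congr 1
      ring
    calc C1 * ((ν : ℝ≥0∞) + 1) * (K' * 2 ^ (ε / 2 * ν))
        ≤ C1 * (C2 * 2 ^ (ε / 2 * ν)) * (K' * 2 ^ (ε / 2 * ν)) := by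
          gcongr
          exact hlin ν
      _ = C1 * C2 * K' * 2 ^ (ε * ν) := by
          rw [h2]
          ring
      _ ≤ _ := by
          gcongr
          exact le_self_add
  · have h1 : ∫⁻ y in K, ‖FS (l + 1) (S0 ν) a (Gr j φ y)‖ₑ ^ P l ≤
        ∫⁻ _ in K, ((S0 ν0).card : ℝ≥0∞) ^ (P l / 2) *
          (∑ m ∈ S0 ν, ‖a m‖ₑ ^ 2) ^ (P l / 2) := by
      refine lintegral_mono fun y => ?_
      refine (ENNReal.rpow_le_rpow (kcv_FS _ _ _ _) hP).trans ((kcv_cs _ _ hP).trans ?_)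
      refine mul_le_mul_left ?_ _
      refine ENNReal.rpow_le_rpow ?_ (by positivity)
      have h2 : S0 ν ⊆ S0 ν0 := by
        unfold S0
        have h3 : (2 : ℤ) ^ ν ≤ 2 ^ ν0 := pow_le_pow_right₀ (by norm_num) hν.le
        exact Finset.Icc_subset_Icc (neg_le_neg h3) h3
      exact_mod_cast Finset.card_le_card h2
    refine h1.trans ?_
    rw [lintegral_const, Measure.restrict_apply_univ]
    have h4 : (1 : ℝ≥0∞) ≤ 2 ^ (ε * ν) := by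
      rw [← ENNReal.one_rpow (ε * ν)]
      exact ENNReal.rpow_le_rpow one_le_two (by positivity)
    calc ((S0 ν0).card : ℝ≥0∞) ^ (P l / 2) * (∑ m ∈ S0 ν, ‖a m‖ₑ ^ 2) ^ (P l / 2) * volume K
        = (volume K * ((S0 ν0).card : ℝ≥0∞) ^ (P l / 2)) * 1 *
          (∑ m ∈ S0 ν, ‖a m‖ₑ ^ 2) ^ (P l / 2) := by ring
      _ ≤ _ := by
          gcongr
          exact le_add_self

end Pool.Agent.Dcs
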