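import Pool.Agent.Dcs.Dst
import Pool.Agent.Dcs.Enl

/-!
# Dcs, module Lmv: the local mean value theorem for `N = 2^(l² μ)`

Put `ν = l² μ`, level `t` = arcs of length `2^((l²-t) μ)`.
`lmv_top`: level `l²`: arcs of length `2^0 = 1`; `a` has at most one nonzero value `a m`, `‖FS a x‖ = ‖a m‖`, the volume of the box is `∏ r i`;
`‖a m‖^P ≤ (∑ ‖a‖²)^(P/2)`; so `A = 1`.
Step `t + 1 → t` for `l ≤ t < l²`: `dst` with `n = (l²-t) μ`, `n' = (l²-t-1) μ`, `ν - n' = (t+1) μ`, `e i = μ ex l t i`: for `i ≥ 1` either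
`ex = 0` or `ex ≤ (i+1) l² - (l+1) t` (true subtraction) and then `e i + l (t+1) μ ≤ μ ((i+1) l² - (l+1) t + l t + l) ≤ μ (i+1) l² = (i+1) ν`
because `l ≤ t`; `ex ≤ l²` gives `e i ≤ ν`.  This yields `BdR l ν n (rM l μ t) (..)` and `enl` gives `BdR l ν n (rN l ν) (C (K 2^(ε ν))^P A)`.
Last step `l → 0` (`l ≤ l²`; for `l = 1` this is the only step): `dst` with `n = ν`, `n' = (l²-l) μ`, `ν - n' = l μ`, `e i = ν`: `ν + l l μ = 2ν ≤ (i+1) ν`
for `i ≥ 1`.
Altogether at most `l²` steps; use `ε' = ε/(l^2 (P l) l^2 + 1)` or similar in `dst`, so that the product of the factors `(2^(ε' ν))^(P l)` over all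
the steps is at most `2^(ε μ)`.
-/

set_option autoImplicit false

namespace Pool.Agent.Dcs

open MeasureTheory Finset Pool.Agent.Dcp
open scoped ENNReal

theorem lmv_top (l : ℕ) (hl : 1 ≤ l) (ν : ℕ) : BdR l ν 0 (rN l ν) 1 := by
  intro σ i a τ _ _ ha
  have hP : 0 < P l := by
    unfold P
    have : (0 : ℝ) < l := by exact_mod_cast hl
    positivity
  obtain ⟨m0, hm0⟩ : ∃ m0 : ℤ, m0 = (i : ℤ) - σ * 2 ^ ν := ⟨_, rfl⟩
  have hz : ∀ m : ℤ, m ≠ m0 → a m = 0 := by
    intro m hm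
    by_contra h
    have h1 := (ha m h).1
    unfold arc bk at h1
    rw [mem_image] at h1
    obtain ⟨j, hj, hjm⟩ := h1
    rw [mem_Ico] at hj
    have hji : j = i := by
      have h2 := hj.1
      have h3 := hj.2
      simp only [pow_zero, mul_one] at h2 h3
      omega
    exact hm (by rw [hm0, ← hjm, hji])
  have hvol : volume (bx τ (rN l ν)) = ∏ k, ENNReal.ofReal (rN l ν k) := by
    unfold bx
    rw [Real.volume_pi_Ico]
    refine Finset.prod_congr rfl fun k _ => ?_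
    rw [add_sub_cancel_left]
  rw [one_mul]
  by_cases hm : m0 ∈ S0 ν
  · have h1 : ∀ x : E (l + 1), ‖FS (l + 1) (S0 ν) a x‖ₑ = ‖a m0‖ₑ := by
      intro x
      unfold FS
      rw [Finset.sum_eq_single_of_mem m0 hm (fun b _ hb => by rw [hz b hb, zero_mul]), enorm_mul]
      have h2 : ∀ t : ℝ, ‖ee t‖ₑ = 1 := by
        intro t
        have h3 : ‖ee t‖ = 1 := by
          unfold ee
          have : (2 * (Real.pi : ℂ) * (t : ℂ) * Complex.I) = ((2 * Real.pi * t : ℝ) : ℂ) * Complex.I := by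
            push_cast; ring
          rw [this, Complex.norm_exp_ofReal_mul_I]
        rw [← ofReal_norm, h3, ENNReal.ofReal_one]
      rw [h2, mul_one]
    have h4 : (∑ m ∈ S0 ν, ‖a m‖ₑ ^ 2) = ‖a m0‖ₑ ^ 2 := by
      refine Finset.sum_eq_single_of_mem m0 hm (fun b _ hb => ?_)
      rw [hz b hb, enorm_zero]
      simp
    simp only [h1]
    rw [h4, lintegral_const, Measure.restrict_apply_univ, hvol, mul_comm, ← ENNReal.rpow_natCast,
      ← ENNReal.rpow_mul]
    refine le_of_eq ?_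
    congr 2
    push_cast
    ring
  · have h1 : ∀ x : E (l + 1), ‖FS (l + 1) (S0 ν) a x‖ₑ = 0 := by
      intro x
      unfold FS
      rw [Finset.sum_eq_zero, enorm_zero]
      intro b hb
      rw [hz b (fun h => hm (h ▸ hb)), zero_mul]
    simp only [h1]
    rw [ENNReal.zero_rpow_of_pos hP]
    simp

theorem lmv0 (l : ℕ) (hl : 1 ≤ l) {ε : ℝ} (hε : 0 < ε) : ∃ K : ℝ≥0∞, K ≠ ⊤ ∧
    ∀ μ : ℕ, BdR l (l ^ 2 * μ) (l ^ 2 * μ) (rN l (l ^ 2 * μ)) (K * 2 ^ (ε * μ)) := by
  have hl0 : (0 : ℝ) < l := by exact_mod_cast hl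
  have hP : 0 < P l := by
    unfold P
    positivity
  obtain ⟨C, hC, hCe⟩ := enl l hl
  obtain ⟨N, hN⟩ : ∃ N : ℕ, N = l ^ 2 - l := ⟨_, rfl⟩
  have hll : l ≤ l ^ 2 := by nlinarith
  have hD : (0 : ℝ) < (l : ℝ) ^ 2 * P l * ((N : ℝ) + 1) := by positivity
  obtain ⟨K1, hK1, hK1e⟩ := dst l hl (ε := ε / ((l : ℝ) ^ 2 * P l * ((N : ℝ) + 1))) (div_pos hε hD)
  refine ⟨C ^ N * (K1 ^ P l) ^ (N + 1), ?_, ?_⟩
  · refine ENNReal.mul_ne_top (ENNReal.pow_ne_top hC) (ENNReal.pow_ne_top ?_)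
    exact ENNReal.rpow_ne_top_of_nonneg hP.le hK1
  intro μ
  obtain ⟨F, hF⟩ : ∃ F : ℝ≥0∞, F = (K1 * 2 ^ (ε / ((l : ℝ) ^ 2 * P l * ((N : ℝ) + 1)) *
      ((l ^ 2 * μ : ℕ) : ℝ))) ^ P l := ⟨_, rfl⟩
  have step : ∀ s : ℕ, s ≤ l ^ 2 - l → BdR l (l ^ 2 * μ) (s * μ) (rN l (l ^ 2 * μ)) ((C * F) ^ s) := by
    intro s
    induction s with
    | zero =>
      intro _
      rw [zero_mul, pow_zero]
      exact lmv_top l hl _
    | succ s ih =>
      intro hs
      have ih' := ih (by omega)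
      obtain ⟨t, ht⟩ : ∃ t : ℕ, l ^ 2 = t + s + 1 := ⟨l ^ 2 - s - 1, by omega⟩
      have htl : l ≤ t := by omega
      have e1 : l ^ 2 - t = s + 1 := by omega
      have hsub : l ^ 2 * μ - s * μ = (t + 1) * μ := by
        rw [ht]
        have : (t + s + 1) * μ = (t + 1) * μ + s * μ := by ring
        rw [this, Nat.add_sub_cancel]
      have h1 := hK1e (l ^ 2 * μ) ((s + 1) * μ) (s * μ) (fun i => μ * ex l t i.val) ((C * F) ^ s)
        (Nat.mul_le_mul_right _ (Nat.le_succ s)) (Nat.mul_le_mul_right _ (by omega))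
        (fun i => by
          rw [mul_comm (l ^ 2) μ]
          exact Nat.mul_le_mul_left _ (min_le_left _ _))
        (fun i _ => by
          rw [hsub]
          rcases Nat.eq_zero_or_pos (ex l t i.val) with h0 | h0
          · left
            simp only [h0, mul_zero]
          · right
            have h2 : ex l t i.val ≤ (i.val + 1) * l ^ 2 - (l + 1) * t := min_le_right _ _
            have h3 : ex l t i.val + (l + 1) * t ≤ (i.val + 1) * l ^ 2 := by omega
            have h4 : ex l t i.val + l * (t + 1) ≤ (i.val + 1) * l ^ 2 := by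
              have : l * (t + 1) ≤ (l + 1) * t := by nlinarith
              omega
            calc μ * ex l t i.val + l * ((t + 1) * μ) = (ex l t i.val + l * (t + 1)) * μ := by ring
              _ ≤ ((i.val + 1) * l ^ 2) * μ := Nat.mul_le_mul_right _ h4
              _ = (i.val + 1) * (l ^ 2 * μ) := by ring)
        ih'
      rw [← hF] at h1
      have h5 := hCe μ t (F * (C * F) ^ s) htl (by omega) (by
        rw [e1]
        exact h1)
      rw [e1] at h5
      have h6 : C * (F * (C * F) ^ s) = (C * F) ^ (s + 1) := by ring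
      rw [h6] at h5
      exact h5
  have hlast := step (l ^ 2 - l) le_rfl
  have hsub : l ^ 2 * μ - (l ^ 2 - l) * μ = l * μ := by
    have : l ^ 2 * μ = l * μ + (l ^ 2 - l) * μ := by
      rw [← add_mul]
      congr 1
      omega
    rw [this, Nat.add_sub_cancel]
  have h7 := hK1e (l ^ 2 * μ) (l ^ 2 * μ) ((l ^ 2 - l) * μ) (fun _ => l ^ 2 * μ)
    ((C * F) ^ (l ^ 2 - l)) (Nat.mul_le_mul_right _ (Nat.sub_le _ _)) le_rfl (fun _ => le_rfl)
    (fun i hi => by
      right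
      rw [hsub]
      have hi1 : 1 ≤ i.val := by
        rcases Nat.eq_zero_or_pos i.val with h | h
        · exact absurd (Fin.ext h) hi
        · exact h
      calc l ^ 2 * μ + l * (l * μ) = 2 * (l ^ 2 * μ) := by ring
        _ ≤ (i.val + 1) * (l ^ 2 * μ) := Nat.mul_le_mul_right _ (by omega))
    hlast
  rw [← hF, ← hN] at h7
  have h8 : F * (C * F) ^ N = C ^ N * (K1 ^ P l) ^ (N + 1) * 2 ^ (ε * μ) := by
    have h9 : F = K1 ^ P l * 2 ^ (ε / ((N : ℝ) + 1) * μ) := by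
      rw [hF, ENNReal.mul_rpow_of_nonneg _ _ hP.le, ← ENNReal.rpow_mul]
      congr 2
      push_cast
      field_simp
    have h10 : (2 : ℝ≥0∞) ^ (ε * μ) = (2 ^ (ε / ((N : ℝ) + 1) * μ)) ^ (N + 1) := by
      rw [← ENNReal.rpow_natCast, ← ENNReal.rpow_mul]
      congr 1
      push_cast
      field_simp
    rw [h10, h9]
    ring
  rw [h8] at h7
  exact h7

end Pool.Agent.Dcs
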