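import Pool.Agent.Dcs.Defs

/-!
# Dcs, module Tub: tubular neighbourhoods of a graph

`tub_vol`: `x ↦ (x_j, (x_σ(l))_l)` is measure preserving (`MeasureTheory.volume_preserving_piFinSuccAbove`), and for fixed `y = (x_σ(l))` the set of the
`x_j` with `|x_j - φ y| ≤ δ` has measure `2 δ`: Tonelli.
`lip_ball`: a `C^2` function has Lipschitz first derivatives and is Lipschitz on a ball, and its derivatives are bounded there: a continuous function on the
compact closed ball is bounded (`IsCompact.exists_bound_of_continuousOn`); mean value theorem on the convex ball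
(`Convex.norm_image_sub_le_of_norm_fderiv_le`); `|pd φ i y - pd φ i y'| ≤ ‖fderiv φ y - fderiv φ y'‖ ‖Pi.single i 1‖`.
-/

set_option autoImplicit false

namespace Pool.Agent.Dcs

open MeasureTheory Finset Pool.Agent.Dcp
open scoped ENNReal

private theorem tub_meas_prod {m : ℕ} {φ : E m → ℝ} (hφ : Continuous φ) {F : Set (E m)}
    (hF : MeasurableSet F) (δ : ℝ) :
    MeasurableSet {p : ℝ × E m | p.2 ∈ F ∧ |p.1 - φ p.2| ≤ δ} := by
  have h1 : MeasurableSet {p : ℝ × E m | p.2 ∈ F} := measurable_snd hF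
  have h2 : IsClosed {p : ℝ × E m | |p.1 - φ p.2| ≤ δ} :=
    isClosed_le ((continuous_fst.sub (hφ.comp continuous_snd)).abs) continuous_const
  exact h1.inter h2.measurableSet

theorem tub_vol {m : ℕ} (j : Fin (m + 1)) {φ : E m → ℝ} (hφ : Continuous φ) {F : Set (E m)}
    (hF : MeasurableSet F) (δ : ℝ) :
    volume {x : E (m + 1) | (fun l => x (j.succAbove l)) ∈ F ∧
      |x j - φ (fun l => x (j.succAbove l))| ≤ δ} ≤ ENNReal.ofReal (2 * δ) * volume F := by
  have hS := tub_meas_prod hφ hF δ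
  have hmp := volume_preserving_piFinSuccAbove (fun _ : Fin (m + 1) => ℝ) j
  have h1 : {x : E (m + 1) | (fun l => x (j.succAbove l)) ∈ F ∧
      |x j - φ (fun l => x (j.succAbove l))| ≤ δ} =
      (MeasurableEquiv.piFinSuccAbove (fun _ : Fin (m + 1) => ℝ) j) ⁻¹'
        {p : ℝ × E m | p.2 ∈ F ∧ |p.1 - φ p.2| ≤ δ} := rfl
  rw [h1, hmp.measure_preimage hS.nullMeasurableSet, Measure.volume_eq_prod,
    Measure.prod_apply_symm hS]
  have h2 : ∀ y : E m, volume ((fun x : ℝ => (x, y)) ⁻¹'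
      {p : ℝ × E m | p.2 ∈ F ∧ |p.1 - φ p.2| ≤ δ}) ≤
      F.indicator (fun _ => ENNReal.ofReal (2 * δ)) y := by
    intro y
    by_cases hy : y ∈ F
    · rw [Set.indicator_of_mem hy]
      have h3 : ((fun x : ℝ => (x, y)) ⁻¹' {p : ℝ × E m | p.2 ∈ F ∧ |p.1 - φ p.2| ≤ δ}) ⊆
          Set.Icc (φ y - δ) (φ y + δ) := by
        intro x hx
        have h4 : |x - φ y| ≤ δ := hx.2
        rw [abs_le] at h4
        exact ⟨by linarith [h4.1], by linarith [h4.2]⟩
      refine (measure_mono h3).trans ?_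
      rw [Real.volume_Icc]
      exact le_of_eq (by congr 1; ring)
    · rw [Set.indicator_of_notMem hy]
      have h3 : ((fun x : ℝ => (x, y)) ⁻¹' {p : ℝ × E m | p.2 ∈ F ∧ |p.1 - φ p.2| ≤ δ}) = ∅ := by
        ext x
        constructor
        · exact fun hx => absurd hx.1 hy
        · exact fun hx => absurd hx (Set.notMem_empty x)
      rw [h3, measure_empty]
  refine (lintegral_mono h2).trans ?_
  rw [lintegral_indicator hF, lintegral_const, Measure.restrict_apply MeasurableSet.univ,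
    Set.univ_inter]

theorem tub_meas {m : ℕ} (j : Fin (m + 1)) {φ : E m → ℝ} (hφ : Continuous φ) {F : Set (E m)}
    (hF : MeasurableSet F) (δ : ℝ) :
    MeasurableSet {x : E (m + 1) | (fun l => x (j.succAbove l)) ∈ F ∧
      |x j - φ (fun l => x (j.succAbove l))| ≤ δ} :=
  (MeasurableEquiv.piFinSuccAbove (fun _ : Fin (m + 1) => ℝ) j).measurable (tub_meas_prod hφ hF δ)

private theorem norm_single_le {m : ℕ} (i : Fin m) : ‖(Pi.single i 1 : E m)‖ ≤ 1 := by
  rw [pi_norm_le_iff_of_nonneg zero_le_one]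
  intro l
  by_cases h : l = i
  · subst h
    rw [Pi.single_eq_same, norm_one]
  · rw [Pi.single_eq_of_ne h, norm_zero]
    exact zero_le_one

theorem lip_ball {m : ℕ} {φ : E m → ℝ} (hφ : ContDiff ℝ 2 φ) (y0 : E m) (r : ℝ) :
    ∃ Λ : ℝ, 1 ≤ Λ ∧ ∀ y ∈ Metric.ball y0 r, ∀ y' ∈ Metric.ball y0 r,
      |φ y - φ y'| ≤ Λ * dist y y' ∧
      ∀ i, |pd φ i y| ≤ Λ ∧ |pd φ i y - pd φ i y'| ≤ Λ * dist y y' := by
  have hd : ContDiff ℝ 1 (fderiv ℝ φ) := hφ.fderiv_right (by norm_num)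
  have hc1 : Continuous (fderiv ℝ φ) := hd.continuous
  have hc2 : Continuous (fderiv ℝ (fderiv ℝ φ)) := hd.continuous_fderiv (by norm_num)
  obtain ⟨K1, hK1⟩ := (isCompact_closedBall y0 r).exists_bound_of_continuousOn hc1.continuousOn
  obtain ⟨K2, hK2⟩ := (isCompact_closedBall y0 r).exists_bound_of_continuousOn
    (f := fderiv ℝ (fderiv ℝ φ)) hc2.continuousOn
  refine ⟨max 1 (max K1 K2), le_max_left _ _, ?_⟩
  intro y hy y' hy'
  have hΛ1 : K1 ≤ max 1 (max K1 K2) := (le_max_left _ _).trans (le_max_right _ _)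
  have hΛ2 : K2 ≤ max 1 (max K1 K2) := (le_max_right _ _).trans (le_max_right _ _)
  have hb : ∀ z ∈ Metric.ball y0 r, z ∈ Metric.closedBall y0 r :=
    fun z hz => Metric.ball_subset_closedBall hz
  have h1 : ‖φ y - φ y'‖ ≤ K1 * ‖y - y'‖ :=
    (convex_ball y0 r).norm_image_sub_le_of_norm_fderiv_le
      (fun z _ => (hφ.differentiable (by norm_num)).differentiableAt)
      (fun z hz => hK1 z (hb z hz)) hy' hy
  have h2 : ‖fderiv ℝ φ y - fderiv ℝ φ y'‖ ≤ K2 * ‖y - y'‖ :=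
    (convex_ball y0 r).norm_image_sub_le_of_norm_fderiv_le
      (fun z _ => (hd.differentiable (by norm_num)).differentiableAt)
      (fun z hz => hK2 z (hb z hz)) hy' hy
  refine ⟨?_, ?_⟩
  · rw [← Real.norm_eq_abs, dist_eq_norm]
    exact h1.trans (mul_le_mul_of_nonneg_right hΛ1 (norm_nonneg _))
  · intro i
    refine ⟨?_, ?_⟩
    · have h3 : ‖fderiv ℝ φ y (Pi.single i 1)‖ ≤ ‖fderiv ℝ φ y‖ * ‖(Pi.single i 1 : E m)‖ :=
        (fderiv ℝ φ y).le_opNorm _
      have h4 : ‖fderiv ℝ φ y‖ * ‖(Pi.single i 1 : E m)‖ ≤ ‖fderiv ℝ φ y‖ * 1 :=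
        mul_le_mul_of_nonneg_left (norm_single_le i) (norm_nonneg _)
      have h5 := hK1 y (hb y hy)
      unfold pd
      rw [← Real.norm_eq_abs]
      linarith
    · have h3 : ‖(fderiv ℝ φ y - fderiv ℝ φ y') (Pi.single i 1)‖ ≤
          ‖fderiv ℝ φ y - fderiv ℝ φ y'‖ * ‖(Pi.single i 1 : E m)‖ :=
        (fderiv ℝ φ y - fderiv ℝ φ y').le_opNorm _
      have h4 : ‖fderiv ℝ φ y - fderiv ℝ φ y'‖ * ‖(Pi.single i 1 : E m)‖ ≤
          ‖fderiv ℝ φ y - fderiv ℝ φ y'‖ * 1 :=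
        mul_le_mul_of_nonneg_left (norm_single_le i) (norm_nonneg _)
      have h5 : K2 * ‖y - y'‖ ≤ max 1 (max K1 K2) * ‖y - y'‖ :=
        mul_le_mul_of_nonneg_right hΛ2 (norm_nonneg _)
      unfold pd
      rw [← Real.norm_eq_abs, dist_eq_norm]
      have h6 : (fderiv ℝ φ y - fderiv ℝ φ y') (Pi.single i 1) =
          fderiv ℝ φ y (Pi.single i 1) - fderiv ℝ φ y' (Pi.single i 1) := rfl
      rw [← h6]
      linarith

end Pool.Agent.Dcs
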