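import Pool.Agent.Dcs.Smo
import Pool.Agent.Dcs.Slw
import Pool.Agent.Dcs.Tub

/-!
# Dcs, module Pc0: one piece of the surface, abstract form

`F ⊆ F'` are measurable sets, `W0` bounds the normalised measure of the part of `Gr j φ '' F` in the translates of the box `bx 0 bN` (`hW`), and `F'`
contains the `2 · 2^(-ν)` neighbourhood of `F` (`hF'`).  Claim: `∫_F ‖FS a (Gr j φ y)‖^P ≤ C A W0 2^(-ν) volume F' (∑ ‖a‖²)^(P/2)`.
Proof: `smooth` with `ω = (volume.restrict F).map (Gr j φ)` (finite or s-finite; `lintegral_map`), `T = {m | m ∈ arc σ ν ν 0 ∧ 2^ν ≤ 2|m|}`.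
We must bound `∫_{y ∈ F} ∫_{z ∈ bx 0 bN} g(Gr j φ y + z) dz dy`, `g = ‖FS a‖^P`; substituting `x = Gr j φ y + z` and by Tonelli this is
`∫_x g(x) W(x) dx`, `W(x) = volume {y ∈ F | x - Gr j φ y ∈ bx 0 bN} ≤ W0 vol(bN)`, `W(x) = 0` unless `x - Gr j φ y ∈ bx 0 bN` for some `y ∈ F`.
`Wb(x) = W0 vol(bN)` on `U = {x | (x_σ(l)) ∈ F', |x_j - φ(x_σ)| ≤ (2 Λ + 2) 2^(-ν)}` and `0` outside.  For `s ∈ bx 0 (rN l ν)` and `W(x) ≠ 0`: the point
`x' = x - s` satisfies `|x'_r - (Gr j φ y)_r| ≤ 2^(-ν)` for all `r` (`x_r - Gr_r ∈ [0, 2^(-ν(r+1)))`, `s_r ∈ [0, 2^(-ν))`), so `x'_σ` is within `2^(-ν)` of `y ∈ F`,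
`x'_σ ∈ F'`, `|x'_j - φ(x'_σ)| ≤ |x'_j - φ y| + Λ 2^(-ν) ≤ (1+Λ) 2^(-ν)`.  `slow` and `tub_vol`:
`∫ g W ≤ A (∑‖a‖²)^(P/2) W0 vol(bN) ofReal (2 (2Λ+2) 2^(-ν)) volume F'`.
(`d = l + 1`, `m = l`.)  The constant `C` is `C_smooth * (4Λ+4)`.
-/

set_option autoImplicit false

namespace Pool.Agent.Dcs

open MeasureTheory Finset Pool.Agent.Dcp
open scoped ENNReal

private theorem pc0_bxm {d : ℕ} (τ r : E d) : MeasurableSet (bx τ r) :=
  MeasurableSet.univ_pi fun _ => measurableSet_Ico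

private theorem pc0_ee : Continuous ee := by
  unfold ee
  fun_prop

private theorem pc0_FS {d : ℕ} (s : Finset ℤ) (a : ℤ → ℂ) : Continuous (FS d s a) := by
  unfold FS
  refine continuous_finsetSum _ fun n _ => ?_
  refine continuous_const.mul (pc0_ee.comp ?_)
  refine continuous_finsetSum _ fun i _ => ?_
  exact continuous_const.mul (continuous_apply i)

private theorem pc0_Gr {m : ℕ} (j : Fin (m + 1)) {φ : E m → ℝ} (hφ : Continuous φ) :
    Continuous (Gr j φ) := by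
  unfold Gr
  refine continuous_pi fun i => ?_
  rcases Fin.eq_self_or_eq_succAbove j i with h | ⟨k, h⟩
  · subst h
    simp only [Fin.insertNth_apply_same]
    exact hφ
  · subst h
    simp only [Fin.insertNth_apply_succAbove]
    exact continuous_apply k

private theorem pc0_bN_le (d ν : ℕ) (i : Fin d) : bN d ν i ≤ ((2 : ℝ) ^ ν)⁻¹ := by
  unfold bN
  refine inv_anti₀ (by positivity) ?_
  refine pow_le_pow_right₀ (by norm_num) ?_
  exact Nat.le_mul_of_pos_right _ (Nat.succ_pos _)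

/-- the geometric point: near a point of the graph over `F` -/
private theorem pc0_geo {l : ℕ} (Λ : ℝ) (hΛ : 0 ≤ Λ) (j : Fin (l + 1)) (φ : E l → ℝ) (ν : ℕ)
    (F F' : Set (E l))
    (hnear : ∀ y ∈ F, ∀ y' : E l, dist y' y ≤ 2 * ((2 : ℝ) ^ ν)⁻¹ →
      y' ∈ F' ∧ |φ y' - φ y| ≤ Λ * dist y' y) (x s : E (l + 1))
    (hs : s ∈ bx (0 : E (l + 1)) (rN l ν)) (y : E l) (hy : y ∈ F)
    (hx : x - Gr j φ y ∈ bx (0 : E (l + 1)) (bN (l + 1) ν)) :
    (fun k => (x - s) (j.succAbove k)) ∈ F' ∧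
      |(x - s) j - φ (fun k => (x - s) (j.succAbove k))| ≤ (2 * Λ + 2) * ((2 : ℝ) ^ ν)⁻¹ := by
  have hpos : (0 : ℝ) < ((2 : ℝ) ^ ν)⁻¹ := by positivity
  have hc : ∀ r, |(x - s) r - Gr j φ y r| ≤ ((2 : ℝ) ^ ν)⁻¹ := by
    intro r
    have h1 := Set.mem_univ_pi.1 hx r
    have h2 := Set.mem_univ_pi.1 hs r
    simp only [Pi.zero_apply, zero_add, Set.mem_Ico, Pi.sub_apply] at h1 h2
    have h3 := pc0_bN_le (l + 1) ν r
    have h4 : rN l ν r = ((2 : ℝ) ^ ν)⁻¹ := rfl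
    rw [h4] at h2
    rw [abs_le, Pi.sub_apply]
    constructor
    · linarith [h1.1, h2.2]
    · linarith [h1.2, h2.1]
  have hd : dist (fun k => (x - s) (j.succAbove k)) y ≤ ((2 : ℝ) ^ ν)⁻¹ := by
    rw [dist_pi_le_iff hpos.le]
    intro k
    have h1 := hc (j.succAbove k)
    have h2 : Gr j φ y (j.succAbove k) = y k := by
      unfold Gr
      exact Fin.insertNth_apply_succAbove _ _ _ _
    rw [h2] at h1
    rw [Real.dist_eq]
    exact h1
  obtain ⟨h1, h2⟩ := hnear y hy (fun k => (x - s) (j.succAbove k)) (by linarith)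
  refine ⟨h1, ?_⟩
  have h3 := hc j
  have h4 : Gr j φ y j = φ y := by
    unfold Gr
    exact Fin.insertNth_apply_same _ _ _
  rw [h4] at h3
  have h5 : Λ * dist (fun k => (x - s) (j.succAbove k)) y ≤ Λ * ((2 : ℝ) ^ ν)⁻¹ :=
    mul_le_mul_of_nonneg_left hd hΛ
  have h6 : (x - s) j - φ (fun k => (x - s) (j.succAbove k)) =
      ((x - s) j - φ y) - (φ (fun k => (x - s) (j.succAbove k)) - φ y) := by ring
  rw [h6]
  refine (abs_sub _ _).trans ?_
  have h7 : 0 ≤ Λ * ((2 : ℝ) ^ ν)⁻¹ := mul_nonneg hΛ hpos.le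
  nlinarith

private theorem pc0_swap {l : ℕ} (j : Fin (l + 1)) {φ : E l → ℝ} (hφ : Continuous φ)
    (F : Set (E l)) (r : E (l + 1)) {g : E (l + 1) → ℝ≥0∞} (hg : Measurable g) :
    ∫⁻ y in F, (∫⁻ z in bx 0 r, g (Gr j φ y + z)) =
      ∫⁻ x, g x * ∫⁻ y in F, ({p : E (l + 1) × E l | p.1 - Gr j φ p.2 ∈ bx 0 r}.indicator
        (fun _ => (1 : ℝ≥0∞))) (x, y) := by
  have hm : Measurable fun p : E (l + 1) × E l => p.1 - Gr j φ p.2 :=
    measurable_fst.sub ((pc0_Gr j hφ).measurable.comp measurable_snd)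
  have hS : MeasurableSet {p : E (l + 1) × E l | p.1 - Gr j φ p.2 ∈ bx 0 r} := hm (pc0_bxm _ _)
  have hI : Measurable ({p : E (l + 1) × E l | p.1 - Gr j φ p.2 ∈ bx 0 r}.indicator
        (fun _ => (1 : ℝ≥0∞))) := measurable_const.indicator hS
  calc ∫⁻ y in F, (∫⁻ z in bx 0 r, g (Gr j φ y + z)) =
      ∫⁻ y in F, (∫⁻ x, g x * ({p : E (l + 1) × E l | p.1 - Gr j φ p.2 ∈ bx 0 r}.indicator
        (fun _ => (1 : ℝ≥0∞))) (x, y)) := by
        refine lintegral_congr fun y => ?_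
        rw [← lintegral_indicator (pc0_bxm _ _),
          ← lintegral_add_left_eq_self (fun x => g x * ({p : E (l + 1) × E l |
            p.1 - Gr j φ p.2 ∈ bx 0 r}.indicator (fun _ => (1 : ℝ≥0∞))) (x, y)) (Gr j φ y)]
        refine lintegral_congr fun z => ?_
        by_cases hz : z ∈ bx (0 : E (l + 1)) r
        · rw [Set.indicator_of_mem hz, Set.indicator_of_mem, mul_one]
          rw [Set.mem_ofPred_eq, add_sub_cancel_left]
          exact hz
        · rw [Set.indicator_of_notMem hz, Set.indicator_of_notMem, mul_zero]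
          rw [Set.mem_ofPred_eq, add_sub_cancel_left]
          exact hz
    _ = ∫⁻ x, (∫⁻ y in F, g x * ({p : E (l + 1) × E l | p.1 - Gr j φ p.2 ∈ bx 0 r}.indicator
        (fun _ => (1 : ℝ≥0∞))) (x, y)) := by
        refine lintegral_lintegral_swap (Measurable.aemeasurable ?_)
        exact (hg.comp measurable_snd).mul (hI.comp measurable_swap)
    _ = _ := by
        refine lintegral_congr fun x => ?_
        exact lintegral_const_mul _ (hI.comp measurable_prodMk_left)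

theorem pc0 (l : ℕ) (hl : 1 ≤ l) (Λ : ℝ) (hΛ : 0 ≤ Λ) : ∃ C : ℝ≥0∞, C ≠ ⊤ ∧
    ∀ (j : Fin (l + 1)) (φ : E l → ℝ) (ν σ : ℕ) (F F' : Set (E l)) (W0 A : ℝ≥0∞), Continuous φ →
      σ ≤ 1 → MeasurableSet F → MeasurableSet F' → volume F ≠ ⊤ →
      (∀ y ∈ F, ∀ y' : E l, dist y' y ≤ 2 * ((2 : ℝ) ^ ν)⁻¹ → y' ∈ F' ∧ |φ y' - φ y| ≤ Λ * dist y' y) →
      (∀ x : E (l + 1), volume {y : E l | y ∈ F ∧ x - Gr j φ y ∈ bx 0 (bN (l + 1) ν)} ≤
        W0 * ∏ r, ENNReal.ofReal (bN (l + 1) ν r)) →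
      BdR l ν ν (rN l ν) A → ∀ a : ℤ → ℂ, Sup σ ν ν 0 a →
      ∫⁻ y in F, ‖FS (l + 1) (S0 ν) a (Gr j φ y)‖ₑ ^ P l ≤
        C * A * W0 * ENNReal.ofReal ((2 : ℝ) ^ ν)⁻¹ * volume F' *
          (∑ m ∈ S0 ν, ‖a m‖ₑ ^ 2) ^ (P l / 2) := by
  have hp : 1 ≤ P l := by
    unfold P
    have h : (1 : ℝ) ≤ l := by exact_mod_cast hl
    nlinarith
  obtain ⟨C0, hC0, hsm⟩ := smooth (l + 1) hp
  refine ⟨C0 * ENNReal.ofReal (4 * Λ + 4), ENNReal.mul_ne_top hC0 ENNReal.ofReal_ne_top, ?_⟩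
  intro j φ ν σ F F' W0 A hφ hσ hF hF' _ hnear hW hBd a ha
  have hGm : Measurable (Gr j φ) := (pc0_Gr j hφ).measurable
  have hFSm : ∀ b, Measurable fun x => ‖FS (l + 1) (S0 ν) b x‖ₑ ^ P l := fun b =>
    (pc0_FS (S0 ν) b).measurable.enorm.pow_const _
  have hmap : ∀ f : E (l + 1) → ℝ≥0∞, Measurable f →
      ∫⁻ x, f x ∂((volume.restrict F).map (Gr j φ)) = ∫⁻ y in F, f (Gr j φ y) :=
    fun f hf => lintegral_map hf hGm
  have hsm' := hsm ν {m | m ∈ arc σ ν ν 0 ∧ (2 : ℤ) ^ ν ≤ 2 * |m|}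
    ((volume.restrict F).map (Gr j φ))
    (A * W0 * (ENNReal.ofReal (4 * Λ + 4) * ENNReal.ofReal ((2 : ℝ) ^ ν)⁻¹) * volume F')
    inferInstance ?_ a ha
  · rw [hmap _ (hFSm a)] at hsm'
    refine hsm'.trans (le_of_eq ?_)
    ring
  · intro b hb
    set g : E (l + 1) → ℝ≥0∞ := fun x => ‖FS (l + 1) (S0 ν) b x‖ₑ ^ P l with hg
    have hgm : Measurable g := hFSm b
    set V : ℝ≥0∞ := ∏ i, ENNReal.ofReal (bN (l + 1) ν i) with hV
    set S : ℝ≥0∞ := (∑ m ∈ S0 ν, ‖b m‖ₑ ^ 2) ^ (P l / 2) with hS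
    set U : Set (E (l + 1)) := {x | (fun k => x (j.succAbove k)) ∈ F' ∧
      |x j - φ (fun k => x (j.succAbove k))| ≤ (2 * Λ + 2) * ((2 : ℝ) ^ ν)⁻¹} with hU
    have hUm : MeasurableSet U := tub_meas j hφ hF' _
    have hUv : volume U ≤ ENNReal.ofReal (4 * Λ + 4) * ENNReal.ofReal ((2 : ℝ) ^ ν)⁻¹ *
        volume F' := by
      refine (tub_vol j hφ hF' _).trans (le_of_eq ?_)
      rw [← ENNReal.ofReal_mul (by linarith)]
      congr 2
      ring
    have hm : Measurable fun p : E (l + 1) × E l => p.1 - Gr j φ p.2 :=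
      measurable_fst.sub (hGm.comp measurable_snd)
    have hSm : MeasurableSet {p : E (l + 1) × E l | p.1 - Gr j φ p.2 ∈
        bx (0 : E (l + 1)) (bN (l + 1) ν)} := hm (pc0_bxm _ _)
    set I : E (l + 1) × E l → ℝ≥0∞ := {p : E (l + 1) × E l | p.1 - Gr j φ p.2 ∈
        bx (0 : E (l + 1)) (bN (l + 1) ν)}.indicator (fun _ => (1 : ℝ≥0∞)) with hI
    have hIm : Measurable I := measurable_const.indicator hSm
    have hWm : Measurable fun x => ∫⁻ y in F, I (x, y) := hIm.lintegral_prod_right'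
    have hWeq : ∀ x, ∫⁻ y in F, I (x, y) =
        volume {y : E l | y ∈ F ∧ x - Gr j φ y ∈ bx 0 (bN (l + 1) ν)} := by
      intro x
      have h1 : ∀ y, I (x, y) = {y : E l | x - Gr j φ y ∈ bx (0 : E (l + 1))
          (bN (l + 1) ν)}.indicator (fun _ => (1 : ℝ≥0∞)) y := fun y => rfl
      have h2 : MeasurableSet {y : E l | x - Gr j φ y ∈ bx (0 : E (l + 1)) (bN (l + 1) ν)} :=
        (measurable_const.sub hGm) (pc0_bxm _ _)
      simp only [h1]
      rw [lintegral_indicator h2, lintegral_const, one_mul, Measure.restrict_apply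
        MeasurableSet.univ, Set.univ_inter, Measure.restrict_apply h2, Set.inter_comm]
      rfl
    have hfn : Measurable fun x : E (l + 1) =>
        ∫⁻ z in bx 0 (bN (l + 1) ν), ‖FS (l + 1) (S0 ν) b (x + z)‖ₑ ^ P l := by
      refine Measurable.lintegral_prod_right'
        (f := fun p : E (l + 1) × E (l + 1) => g (p.1 + p.2)) ?_
      exact hgm.comp (measurable_fst.add measurable_snd)
    rw [hmap _ hfn]
    have hsw := pc0_swap j hφ F (bN (l + 1) ν) hgm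
    have hsl := slow (d := l + 1) (r := rN l ν) (g := g)
      (W := fun x => ∫⁻ y in F, I (x, y)) (Wb := U.indicator fun _ => W0 * V) (A := A * S)
      (fun i => by show 0 < ((2 : ℝ) ^ ν)⁻¹; positivity) hgm hWm (measurable_const.indicator hUm)
      ?_ ?_
    · calc ∫⁻ y in F, (∫⁻ z in bx 0 (bN (l + 1) ν), ‖FS (l + 1) (S0 ν) b (Gr j φ y + z)‖ₑ ^ P l)
          = ∫⁻ x, g x * ∫⁻ y in F, I (x, y) := hsw
        _ ≤ A * S * ∫⁻ x, U.indicator (fun _ => W0 * V) x := hsl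
        _ = A * S * (W0 * V * volume U) := by
            rw [lintegral_indicator hUm, setLIntegral_const]
        _ ≤ A * S * (W0 * V * (ENNReal.ofReal (4 * Λ + 4) * ENNReal.ofReal ((2 : ℝ) ^ ν)⁻¹ *
              volume F')) := by gcongr
        _ = _ := by ring
    · intro τ
      refine (hBd σ 0 b τ hσ (by simp) hb).trans (le_of_eq ?_)
      ring
    · intro x s hs
      show ∫⁻ y in F, I (x, y) ≤ U.indicator (fun _ => W0 * V) (x - s)
      rw [hWeq]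
      by_cases hne : ∃ y, y ∈ F ∧ x - Gr j φ y ∈ bx (0 : E (l + 1)) (bN (l + 1) ν)
      · obtain ⟨y, hy, hxy⟩ := hne
        have hmem : x - s ∈ U := pc0_geo Λ hΛ j φ ν F F' hnear x s hs y hy hxy
        rw [Set.indicator_of_mem hmem]
        exact hW x
      · have hemp : {y : E l | y ∈ F ∧ x - Gr j φ y ∈ bx (0 : E (l + 1)) (bN (l + 1) ν)} = ∅ := by
          ext y
          constructor
          · exact fun h => absurd ⟨y, h⟩ hne
          · exact fun h => absurd h (Set.notMem_empty y)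
        rw [hemp, measure_empty]
        exact zero_le

end Pool.Agent.Dcs
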