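import Pool.Agent.Dcs.Defs

/-!
# Dcs, module Wbd: measure of the part of the surface in a small box

Let `x : E (m+1)`.  `x - Gr j φ y ∈ bx 0 (bN (m+1) ν)` means `y_l ∈ (x_σ(l) - 2^(-ν(σ(l)+1)), x_σ(l)]` for all `l : Fin m`, `σ = j.succAbove`, and
`φ y ∈ (x_j - 2^(-ν(j+1)), x_j]`.
`w_eq`: drop the last condition: the volume is at most `∏_l 2^(-ν(σ(l)+1)) = 2^(ν(j+1)) ∏_r bN r` (`Fin.prod_univ_succAbove`).
`w_lt`: `i < j` (as numbers), so `σ i` has value `i`.  Fix all the coordinates of `y` except `y_i`.  Let `t, t'` be two values of `y_i` such that the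
corresponding points `y, y'` lie in the set.  The segment between them is in the convex set `S`, `|t - t'| ≤ 2^(-ν(i+1))`,
`φ y - φ y' = pd φ i ξ (t - t')` for a point `ξ` of the segment (mean value theorem in one variable), `|pd φ i ξ - pd φ i y| ≤ Λ |t - t'| ≤ Λ 2^(-ν(i+1)) ≤ η/2`,
so `|φ y - φ y'| ≥ (η/2) |t - t'|`, `|t - t'| ≤ 2 · 2^(-ν(j+1))/η`.  So the set of the values `t` has diameter, hence measure, at most
`2 · 2^(-ν(j+1))/η` (`Real.volume_le_diam`), and the other coordinates lie in a box of volume `∏_{l ≠ i} 2^(-ν(σ(l)+1))` (Tonelli with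
`MeasurableEquiv.piFinSuccAbove` or `MeasureTheory.lmarginal`; the set need not be measurable, enlarge it or use
`measure_mono` with a measurable hull; `E` is assumed measurable and `φ` continuous, so the set is measurable).  The product is
`(2/η) 2^(ν(i+1)) ∏_r bN r`.
-/

set_option autoImplicit false

namespace Pool.Agent.Dcs

open MeasureTheory Finset Pool.Agent.Dcp
open scoped ENNReal

theorem wbd_bN_pos (d ν : ℕ) (i : Fin d) : 0 < bN d ν i := by
  unfold bN; positivity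

theorem wbd_two_mul_bN {m : ℕ} (ν : ℕ) (r : Fin (m + 1)) :
    (2 : ℝ≥0∞) ^ (ν * (r.val + 1)) * ENNReal.ofReal (bN (m + 1) ν r) = 1 := by
  unfold bN
  rw [ENNReal.ofReal_inv_of_pos (by positivity), ENNReal.ofReal_pow (by norm_num)]
  rw [show ENNReal.ofReal 2 = 2 from by norm_num]
  exact ENNReal.mul_inv_cancel (pow_ne_zero _ (by norm_num)) (ENNReal.pow_ne_top (by norm_num))

/-- membership in the shifted box, coordinatewise -/
theorem wbd_mem_bx {m : ℕ} (j : Fin (m + 1)) (φ : E m → ℝ) (ν : ℕ) (x : E (m + 1)) (y : E m) :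
    x - Gr j φ y ∈ bx 0 (bN (m + 1) ν) ↔
      (0 ≤ x j - φ y ∧ x j - φ y < bN (m + 1) ν j) ∧
      ∀ l : Fin m, 0 ≤ x (j.succAbove l) - y l ∧
        x (j.succAbove l) - y l < bN (m + 1) ν (j.succAbove l) := by
  unfold bx
  rw [Set.mem_univ_pi]
  rw [Fin.forall_iff_succAbove j]
  simp only [Pi.sub_apply, Pi.zero_apply, zero_add, Set.mem_Ico, Gr, Fin.insertNth_apply_same,
    Fin.insertNth_apply_succAbove]

theorem w_eq {m : ℕ} (j : Fin (m + 1)) (φ : E m → ℝ) (ν : ℕ) (F : Set (E m)) (x : E (m + 1)) :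
    volume {y : E m | y ∈ F ∧ x - Gr j φ y ∈ bx 0 (bN (m + 1) ν)} ≤
      2 ^ (ν * (j.val + 1)) * ∏ r, ENNReal.ofReal (bN (m + 1) ν r) := by
  have hsub : {y : E m | y ∈ F ∧ x - Gr j φ y ∈ bx 0 (bN (m + 1) ν)} ⊆
      Set.univ.pi (fun l : Fin m => Set.Ioc (x (j.succAbove l) - bN (m + 1) ν (j.succAbove l))
        (x (j.succAbove l))) := by
    rintro y ⟨-, hy⟩
    rw [wbd_mem_bx] at hy
    rw [Set.mem_univ_pi]
    intro l
    have h := hy.2 l
    exact ⟨by linarith [h.2], by linarith [h.1]⟩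
  refine (measure_mono hsub).trans ?_
  rw [Real.volume_pi_Ioc, Fin.prod_univ_succAbove (fun r => ENNReal.ofReal (bN (m + 1) ν r)) j,
    ← mul_assoc]
  have h1 : (2 : ℝ≥0∞) ^ (ν * (j.val + 1)) * ENNReal.ofReal (bN (m + 1) ν j) = 1 := wbd_two_mul_bN ν j
  rw [h1, one_mul]
  refine le_of_eq (Finset.prod_congr rfl fun l _ => ?_)
  congr 1
  ring

theorem wbd_hasDeriv_ins {m : ℕ} {φ : E (m + 1) → ℝ} (hφ : ContDiff ℝ 1 φ) (i : Fin (m + 1))
    (z : Fin m → ℝ) (t : ℝ) :
    HasDerivAt (fun s : ℝ => φ (Fin.insertNth (α := fun _ => ℝ) i s z))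
      (pd φ i (Fin.insertNth (α := fun _ => ℝ) i t z)) t := by
  have h1 : HasDerivAt (fun s : ℝ => Fin.insertNth (α := fun _ => ℝ) i s z)
      (Pi.single i 1) t := by
    rw [hasDerivAt_pi, Fin.forall_iff_succAbove i]
    refine ⟨?_, fun l => ?_⟩
    · simp only [Fin.insertNth_apply_same, Pi.single_eq_same]
      exact hasDerivAt_id t
    · simp only [Fin.insertNth_apply_succAbove]
      rw [Pi.single_eq_of_ne (Fin.succAbove_ne i l)]
      exact hasDerivAt_const t (z l)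
  have h2 : HasFDerivAt φ (fderiv ℝ φ (Fin.insertNth (α := fun _ => ℝ) i t z))
      (Fin.insertNth (α := fun _ => ℝ) i t z) :=
    ((hφ.differentiable (by norm_num)) _).hasFDerivAt
  exact h2.comp_hasDerivAt t h1

theorem wbd_dist_ins {m : ℕ} (i : Fin (m + 1)) (z : Fin m → ℝ) (s t : ℝ) :
    dist (Fin.insertNth (α := fun _ => ℝ) i s z) (Fin.insertNth (α := fun _ => ℝ) i t z) ≤
      |s - t| := by
  rw [dist_pi_le_iff (abs_nonneg _), Fin.forall_iff_succAbove i]
  refine ⟨?_, fun l => ?_⟩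
  · simp only [Fin.insertNth_apply_same, Real.dist_eq]
    exact le_refl _
  · simp only [Fin.insertNth_apply_succAbove, dist_self]
    exact abs_nonneg _

theorem wbd_ins_mem {m : ℕ} {S : Set (E (m + 1))} (hS : Convex ℝ S) (i : Fin (m + 1)) (z : Fin m → ℝ)
    {a b c : ℝ} (hc : c ∈ Set.Ioo a b) (ha : Fin.insertNth (α := fun _ => ℝ) i a z ∈ S)
    (hb : Fin.insertNth (α := fun _ => ℝ) i b z ∈ S) :
    Fin.insertNth (α := fun _ => ℝ) i c z ∈ S := by
  have hab : 0 < b - a := by linarith [hc.1, hc.2]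
  have hu : (c - a) / (b - a) ∈ Set.Icc (0 : ℝ) 1 :=
    ⟨div_nonneg (by linarith [hc.1]) hab.le, (div_le_one hab).2 (by linarith [hc.2])⟩
  have h := hS.add_smul_sub_mem ha hb hu
  have he : Fin.insertNth (α := fun _ => ℝ) i a z + ((c - a) / (b - a)) •
      (Fin.insertNth (α := fun _ => ℝ) i b z - Fin.insertNth (α := fun _ => ℝ) i a z) =
      Fin.insertNth (α := fun _ => ℝ) i c z := by
    funext l
    revert l
    rw [Fin.forall_iff_succAbove i]
    refine ⟨?_, fun l => ?_⟩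
    · simp only [Pi.add_apply, Pi.smul_apply, Pi.sub_apply, Fin.insertNth_apply_same, smul_eq_mul]
      field_simp
      ring
    · simp only [Pi.add_apply, Pi.smul_apply, Pi.sub_apply, Fin.insertNth_apply_succAbove,
        smul_eq_mul]
      ring
  rw [he] at h
  exact h

/-- the one-variable estimate -/
theorem wbd_slice {m : ℕ} {φ : E (m + 1) → ℝ} (hφ : ContDiff ℝ 1 φ) {S : Set (E (m + 1))}
    (hS : Convex ℝ S) {Λ : ℝ} (hΛ0 : 0 ≤ Λ) (i : Fin (m + 1))
    (hΛ : ∀ y ∈ S, ∀ y' ∈ S, |pd φ i y - pd φ i y'| ≤ Λ * dist y y') {η w : ℝ} (hη : 0 < η)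
    (hw : 2 * Λ * w ≤ η) (z : Fin m → ℝ) {a b c δ : ℝ} (hab : a < b)
    (ha : Fin.insertNth (α := fun _ => ℝ) i a z ∈ S)
    (hb : Fin.insertNth (α := fun _ => ℝ) i b z ∈ S)
    (hd : η ≤ |pd φ i (Fin.insertNth (α := fun _ => ℝ) i a z)|) (hwab : b - a ≤ w)
    (hc : |φ (Fin.insertNth (α := fun _ => ℝ) i b z) - φ (Fin.insertNth (α := fun _ => ℝ) i a z)|
      ≤ δ) (hcc : c = 2 * δ / η) : b - a ≤ c := by
  obtain ⟨ξ, hξ, he⟩ := exists_hasDerivAt_eq_slope
    (fun s : ℝ => φ (Fin.insertNth (α := fun _ => ℝ) i s z))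
    (fun s : ℝ => pd φ i (Fin.insertNth (α := fun _ => ℝ) i s z)) hab
    (fun s _ => (wbd_hasDeriv_ins hφ i z s).continuousAt.continuousWithinAt)
    (fun s _ => wbd_hasDeriv_ins hφ i z s)
  have hba : 0 < b - a := by linarith
  have hξS := wbd_ins_mem hS i z hξ ha hb
  have h1 := hΛ _ ha _ hξS
  have h2 : Λ * dist (Fin.insertNth (α := fun _ => ℝ) i a z)
      (Fin.insertNth (α := fun _ => ℝ) i ξ z) ≤ Λ * w := by
    refine mul_le_mul_of_nonneg_left ((wbd_dist_ins i z a ξ).trans ?_) hΛ0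
    rw [abs_sub_comm, abs_of_pos (by linarith [hξ.1])]
    linarith [hξ.2]
  have h3 : η / 2 ≤ |pd φ i (Fin.insertNth (α := fun _ => ℝ) i ξ z)| := by
    have h4 := abs_sub_abs_le_abs_sub (pd φ i (Fin.insertNth (α := fun _ => ℝ) i a z))
      (pd φ i (Fin.insertNth (α := fun _ => ℝ) i ξ z))
    linarith
  have h5 : |φ (Fin.insertNth (α := fun _ => ℝ) i b z) -
      φ (Fin.insertNth (α := fun _ => ℝ) i a z)| =
      |pd φ i (Fin.insertNth (α := fun _ => ℝ) i ξ z)| * (b - a) := by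
    rw [he, abs_div, abs_of_pos hba, div_mul_cancel₀ _ hba.ne']
  rw [hcc, le_div_iff₀ hη]
  rw [h5] at hc
  have h6 : η / 2 * (b - a) ≤ |pd φ i (Fin.insertNth (α := fun _ => ℝ) i ξ z)| * (b - a) :=
    mul_le_mul_of_nonneg_right h3 hba.le
  linarith

theorem w_lt {m : ℕ} (j : Fin (m + 1)) {φ : E m → ℝ} (hφ : ContDiff ℝ 1 φ) {S : Set (E m)}
    (hS : Convex ℝ S) {Λ : ℝ} (hΛ0 : 0 ≤ Λ) (i : Fin m) (hi : i.val < j.val)
    (hΛ : ∀ y ∈ S, ∀ y' ∈ S, |pd φ i y - pd φ i y'| ≤ Λ * dist y y') (ν : ℕ) {η : ℝ} (hη : 0 < η)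
    (hην : 2 * Λ * ((2 : ℝ) ^ (ν * (i.val + 1)))⁻¹ ≤ η) {F : Set (E m)} (hF : MeasurableSet F)
    (hFS : F ⊆ S) (hFη : ∀ y ∈ F, η ≤ |pd φ i y|) (x : E (m + 1)) :
    volume {y : E m | y ∈ F ∧ x - Gr j φ y ∈ bx 0 (bN (m + 1) ν)} ≤
      ENNReal.ofReal (2 / η) * 2 ^ (ν * (i.val + 1)) * ∏ r, ENNReal.ofReal (bN (m + 1) ν r) := by
  obtain _ | m := m
  · exact i.elim0
  have hA : MeasurableSet {y : E (m + 1) | y ∈ F ∧ x - Gr j φ y ∈ bx 0 (bN (m + 1 + 1) ν)} := by
    have : {y : E (m + 1) | y ∈ F ∧ x - Gr j φ y ∈ bx 0 (bN (m + 1 + 1) ν)} =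
        F ∩ {y : E (m + 1) | (0 ≤ x j - φ y ∧ x j - φ y < bN (m + 1 + 1) ν j) ∧
      ∀ l : Fin (m + 1), 0 ≤ x (j.succAbove l) - y l ∧
        x (j.succAbove l) - y l < bN (m + 1 + 1) ν (j.succAbove l)} := by
      ext y
      simp only [Set.mem_inter_iff, Set.mem_ofPred_eq, wbd_mem_bx]
    rw [this]
    have hc : Measurable φ := hφ.continuous.measurable
    refine hF.inter ?_
    refine MeasurableSet.inter ?_ ?_
    · exact (measurableSet_le measurable_const (measurable_const.sub hc)).inter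
        (measurableSet_lt (measurable_const.sub hc) measurable_const)
    · have : {y : E (m + 1) | ∀ l : Fin (m + 1), 0 ≤ x (j.succAbove l) - y l ∧
          x (j.succAbove l) - y l < bN (m + 1 + 1) ν (j.succAbove l)} =
          ⋂ l, {y : E (m + 1) | 0 ≤ x (j.succAbove l) - y l ∧
          x (j.succAbove l) - y l < bN (m + 1 + 1) ν (j.succAbove l)} := by
        ext y; simp only [Set.mem_iInter, Set.mem_ofPred_eq]
      change MeasurableSet {y : E (m + 1) | ∀ l : Fin (m + 1), 0 ≤ x (j.succAbove l) - y l ∧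
          x (j.succAbove l) - y l < bN (m + 1 + 1) ν (j.succAbove l)}
      rw [this]
      refine MeasurableSet.iInter fun l => ?_
      exact (measurableSet_le measurable_const (measurable_const.sub (measurable_pi_apply l))).inter
        (measurableSet_lt (measurable_const.sub (measurable_pi_apply l)) measurable_const)
  set A := {y : E (m + 1) | y ∈ F ∧ x - Gr j φ y ∈ bx 0 (bN (m + 1 + 1) ν)} with hAdef
  have hmp := (volume_preserving_piFinSuccAbove (fun _ : Fin (m + 1) => ℝ) i).symm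
  have hvol : volume A = volume ((MeasurableEquiv.piFinSuccAbove (fun _ : Fin (m + 1) => ℝ) i).symm
      ⁻¹' A) := (hmp.measure_preimage_equiv A).symm
  rw [hvol]
  have hmA : MeasurableSet ((MeasurableEquiv.piFinSuccAbove (fun _ : Fin (m + 1) => ℝ) i).symm
      ⁻¹' A) := (MeasurableEquiv.measurable _) hA
  rw [Measure.volume_eq_prod, Measure.prod_apply_symm hmA]
  set B : Set (Fin m → ℝ) := Set.univ.pi (fun l : Fin m =>
    Set.Ioc (x (j.succAbove (i.succAbove l)) - bN (m + 1 + 1) ν (j.succAbove (i.succAbove l)))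
        (x (j.succAbove (i.succAbove l)))) with hB
  have hBm : MeasurableSet B := MeasurableSet.univ_pi fun l => measurableSet_Ioc
  have hsv : (j.succAbove i).val = i.val := by
    rw [Fin.succAbove_of_castSucc_lt j i (by simpa [Fin.lt_def] using hi)]
    rfl
  have hbNi : bN (m + 1 + 1) ν (j.succAbove i) = ((2 : ℝ) ^ (ν * (i.val + 1)))⁻¹ := by
    unfold bN; rw [hsv]
  -- the slices
  have hslice : ∀ z : Fin m → ℝ, volume ((fun t : ℝ => (t, z)) ⁻¹'
      ((MeasurableEquiv.piFinSuccAbove (fun _ : Fin (m + 1) => ℝ) i).symm ⁻¹' A)) ≤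
      B.indicator (fun _ => ENNReal.ofReal (2 * bN (m + 1 + 1) ν j / η)) z := by
    intro z
    by_cases hz : z ∈ B
    · rw [Set.indicator_of_mem hz]
      refine (Real.volume_le_diam _).trans (Metric.ediam_le ?_)
      have key : ∀ a b : ℝ, Fin.insertNth (α := fun _ => ℝ) i a z ∈ A →
          Fin.insertNth (α := fun _ => ℝ) i b z ∈ A → a < b →
          b - a ≤ 2 * bN (m + 1 + 1) ν j / η := by
        intro a b ha hb hab
        obtain ⟨haF, ha2⟩ := ha
        obtain ⟨hbF, hb2⟩ := hb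
        rw [wbd_mem_bx] at ha2 hb2
        refine wbd_slice hφ hS hΛ0 i hΛ hη (w := ((2 : ℝ) ^ (ν * (i.val + 1)))⁻¹) hην z hab
          (hFS haF) (hFS hbF) (hFη _ haF) ?_ ?_ rfl
        · have h1 := ha2.2 i
          have h2 := hb2.2 i
          rw [Fin.insertNth_apply_same, hbNi] at h1 h2
          linarith [h1.2, h2.1]
        · rw [abs_le]
          constructor <;> linarith [ha2.1.1, ha2.1.2, hb2.1.1, hb2.1.2]
      intro a ha b hb
      have ha' : Fin.insertNth (α := fun _ => ℝ) i a z ∈ A := ha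
      have hb' : Fin.insertNth (α := fun _ => ℝ) i b z ∈ A := hb
      rw [edist_dist, Real.dist_eq]
      refine ENNReal.ofReal_le_ofReal ?_
      rcases lt_trichotomy a b with h | h | h
      · rw [abs_sub_comm, abs_of_pos (by linarith)]
        exact key a b ha' hb' h
      · rw [h, sub_self, abs_zero]
        have := wbd_bN_pos (m + 1 + 1) ν j
        positivity
      · rw [abs_of_pos (by linarith)]
        exact key b a hb' ha' h
    · have he : ((fun t : ℝ => (t, z)) ⁻¹'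
          ((MeasurableEquiv.piFinSuccAbove (fun _ : Fin (m + 1) => ℝ) i).symm ⁻¹' A)) = ∅ := by
        rw [Set.eq_empty_iff_forall_notMem]
        intro t ht
        have ht' : Fin.insertNth (α := fun _ => ℝ) i t z ∈ A := ht
        apply hz
        obtain ⟨-, h2⟩ := ht'
        rw [wbd_mem_bx] at h2
        rw [hB, Set.mem_univ_pi]
        intro l
        have h3 := h2.2 (i.succAbove l)
        rw [Fin.insertNth_apply_succAbove] at h3
        exact ⟨by linarith [h3.2], by linarith [h3.1]⟩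
      rw [he, measure_empty]
      exact zero_le
  refine (lintegral_mono hslice).trans ?_
  rw [lintegral_indicator_const hBm, hB, Real.volume_pi_Ioc,
    Fin.prod_univ_succAbove (fun r => ENNReal.ofReal (bN (m + 1 + 1) ν r)) j,
    Fin.prod_univ_succAbove (fun l => ENNReal.ofReal (bN (m + 1 + 1) ν (j.succAbove l))) i]
  have h1 : (2 : ℝ≥0∞) ^ (ν * (i.val + 1)) * ENNReal.ofReal (bN (m + 1 + 1) ν (j.succAbove i)) =
      1 := by
    have := wbd_two_mul_bN (m := m + 1) ν (j.succAbove i)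
    rw [hsv] at this
    exact this
  have h2 : ENNReal.ofReal (2 * bN (m + 1 + 1) ν j / η) =
      ENNReal.ofReal (2 / η) * ENNReal.ofReal (bN (m + 1 + 1) ν j) := by
    rw [← ENNReal.ofReal_mul (by positivity)]
    congr 1
    ring
  have h3 : ∏ l : Fin m, ENNReal.ofReal (x (j.succAbove (i.succAbove l)) -
      (x (j.succAbove (i.succAbove l)) - bN (m + 1 + 1) ν (j.succAbove (i.succAbove l)))) =
      ∏ l : Fin m, ENNReal.ofReal (bN (m + 1 + 1) ν (j.succAbove (i.succAbove l))) := by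
    refine Finset.prod_congr rfl fun l _ => ?_
    congr 1
    ring
  rw [h2, h3]
  calc ENNReal.ofReal (2 / η) * ENNReal.ofReal (bN (m + 1 + 1) ν j) *
        ∏ l : Fin m, ENNReal.ofReal (bN (m + 1 + 1) ν (j.succAbove (i.succAbove l)))
      = ((2 : ℝ≥0∞) ^ (ν * (i.val + 1)) * ENNReal.ofReal (bN (m + 1 + 1) ν (j.succAbove i))) *
        (ENNReal.ofReal (2 / η) * ENNReal.ofReal (bN (m + 1 + 1) ν j) *
        ∏ l : Fin m, ENNReal.ofReal (bN (m + 1 + 1) ν (j.succAbove (i.succAbove l)))) := by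
        rw [h1, one_mul]
    _ ≤ _ := by
        refine le_of_eq ?_
        ring

end Pool.Agent.Dcs
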