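import Pool.Agent.Dcs.Pc0
import Pool.Agent.Dcs.Wbd
import Pool.Agent.Dcs.Gmp

/-!
# Dcs, module Pce: the surface near a point

Let `2r` be smaller than the radius of `gm_vol` at `y0`, `Λ ≥ 1` from `lip_ball` for the ball of radius `2r`, `ν0` such that `2 · 2^(-ν0) < r`, `ν ≥ ν0`,
`thr = 2 Λ 2^(-ν)`.  Divide `ball y0 r` into the sets
`F_j = {y | |pd φ i y| ≤ thr for all i < j}` (`i : Fin l` with `i.val < j.val`) and for `i < j`, `e < ν` :
`F_{i,e} = {y | |pd φ i' y| ≤ thr for i' < i, thr 2^e < |pd φ i y| ≤ thr 2^(e+1)}`; they cover the ball because `|pd φ i y| ≤ Λ ≤ thr 2^ν`.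
`pc0` for `F_{i,e}`: `W0 = ofReal (2/(thr 2^e)) 2^(ν(i+1))` (`w_lt` with `S = ball y0 (2r)`, `η = thr 2^e`, `2Λ 2^(-ν(i+1)) ≤ thr ≤ η`),
`F' = {y ∈ ball y0 (2r) | |pd φ i' y| ≤ 2 thr for i' < i, |pd φ i y| ≤ 3 thr 2^e, |pd φ i' y| ≤ Λ for all i'}` (Lipschitz: `2 · 2^(-ν) Λ = thr`), of volume at most
`C (2 thr)^i (3 thr 2^e) Λ^(l-1-i)` by `gm_vol`; so `W0 2^(-ν) volume F' ≤ C' (thr 2^e)⁻¹ 2^(ν(i+1)) 2^(-ν) thr^i thr 2^e = C' (2^ν thr)^i = C''`.
`pc0` for `F_j`: `W0 = 2^(ν(j+1))` (`w_eq`), `F' = {|pd φ i y| ≤ 2 thr for i < j, ≤ Λ otherwise}`, `volume F' ≤ C thr^j`: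
`W0 2^(-ν) volume F' ≤ C'' `.
The number of the sets is at most `1 + l ν`; the integral over the union is at most the sum.
-/

set_option autoImplicit false

namespace Pool.Agent.Dcs

open MeasureTheory Finset Pool.Agent.Dcp
open scoped ENNReal

private theorem pce_prodA (k l : ℕ) (hk : k ≤ l) (α Λ : ℝ) (hα : 0 ≤ α) (hΛ : 1 ≤ Λ) :
    ∏ n ∈ range l, (if n < k then α else Λ) ≤ α ^ k * Λ ^ l := by
  obtain ⟨s, rfl⟩ := Nat.exists_eq_add_of_le hk
  rw [prod_range_add]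
  have h1 : ∏ x ∈ range k, (if x < k then α else Λ) = α ^ k := by
    rw [prod_congr rfl (fun x hx => if_pos (mem_range.1 hx)), prod_const, card_range]
  have h2 : ∏ x ∈ range s, (if k + x < k then α else Λ) = Λ ^ s := by
    rw [prod_congr rfl (fun x _ => if_neg (by omega)), prod_const, card_range]
  rw [h1, h2]
  exact mul_le_mul_of_nonneg_left (pow_le_pow_right₀ hΛ (by omega)) (pow_nonneg hα k)

private theorem pce_prodB (k l : ℕ) (hk : k < l) (α β Λ : ℝ) (hα : 0 ≤ α) (hβ : 0 ≤ β)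
    (hΛ : 1 ≤ Λ) :
    ∏ n ∈ range l, (if n < k then α else if n = k then β else Λ) ≤ α ^ k * β * Λ ^ l := by
  obtain ⟨s, rfl⟩ := Nat.exists_eq_add_of_lt hk
  rw [show k + s + 1 = k + (s + 1) by ring, prod_range_add, prod_range_succ']
  have h1 : ∏ x ∈ range k, (if x < k then α else if x = k then β else Λ) = α ^ k := by
    rw [prod_congr rfl (fun x hx => if_pos (mem_range.1 hx)), prod_const, card_range]
  have h2 : ∏ x ∈ range s, (if k + (x + 1) < k then α else if k + (x + 1) = k then β else Λ) =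
      Λ ^ s := by
    rw [prod_congr rfl (fun x _ => (if_neg (by omega)).trans (if_neg (by omega))), prod_const,
      card_range]
  rw [h1, h2, add_zero, if_neg (lt_irrefl k), if_pos rfl, mul_comm (Λ ^ s) β, ← mul_assoc]
  exact mul_le_mul_of_nonneg_left (pow_le_pow_right₀ hΛ (by omega))
    (mul_nonneg (pow_nonneg hα k) hβ)

private theorem pce_meas {l : ℕ} {φ : E l → ℝ} (hφ : ContDiff ℝ 2 φ) (y0 : E l) (r : ℝ)
    (ρ : Fin l → ℝ) :
    MeasurableSet {y : E l | y ∈ Metric.ball y0 r ∧ ∀ i, |pd φ i y| ≤ ρ i} := by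
  have h1 : {y : E l | y ∈ Metric.ball y0 r ∧ ∀ i, |pd φ i y| ≤ ρ i} =
      Metric.ball y0 r ∩ ⋂ i, {y : E l | |pd φ i y| ≤ ρ i} := by
    ext y
    simp only [Set.mem_ofPred_eq, Set.mem_inter_iff, Set.mem_iInter]
  rw [h1]
  refine measurableSet_ball.inter (MeasurableSet.iInter fun i => ?_)
  exact (isClosed_le (pd_cont (hφ.of_le (by norm_num)) i).abs continuous_const).measurableSet

private theorem pce_measN {l : ℕ} {φ : E l → ℝ} (hφ : ContDiff ℝ 2 φ) (y0 : E l) (r : ℝ)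
    (k : ℕ) (thr : ℝ) :
    MeasurableSet {y : E l | y ∈ Metric.ball y0 r ∧ ∀ i : Fin l, i.val < k → |pd φ i y| ≤ thr} := by
  have h1 : {y : E l | y ∈ Metric.ball y0 r ∧ ∀ i : Fin l, i.val < k → |pd φ i y| ≤ thr} =
      Metric.ball y0 r ∩ ⋂ i : Fin l, ⋂ (_ : i.val < k), {y : E l | |pd φ i y| ≤ thr} := by
    ext y
    simp only [Set.mem_ofPred_eq, Set.mem_inter_iff, Set.mem_iInter]
  rw [h1]
  refine measurableSet_ball.inter (MeasurableSet.iInter fun i => MeasurableSet.iInter fun _ => ?_)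
  exact (isClosed_le (pd_cont (hφ.of_le (by norm_num)) i).abs continuous_const).measurableSet

private theorem pce_measS {l : ℕ} {φ : E l → ℝ} (hφ : ContDiff ℝ 2 φ) (y0 : E l) (r : ℝ)
    (i : Fin l) (thr η η' : ℝ) :
    MeasurableSet {y : E l | (y ∈ Metric.ball y0 r ∧ ∀ i' : Fin l, i'.val < i.val →
      |pd φ i' y| ≤ thr) ∧ η ≤ |pd φ i y| ∧ |pd φ i y| ≤ η'} := by
  have h1 : {y : E l | (y ∈ Metric.ball y0 r ∧ ∀ i' : Fin l, i'.val < i.val →
      |pd φ i' y| ≤ thr) ∧ η ≤ |pd φ i y| ∧ |pd φ i y| ≤ η'} =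
      {y : E l | y ∈ Metric.ball y0 r ∧ ∀ i' : Fin l, i'.val < i.val → |pd φ i' y| ≤ thr} ∩
      ({y : E l | η ≤ |pd φ i y|} ∩ {y : E l | |pd φ i y| ≤ η'}) := by
    ext y
    simp only [Set.mem_ofPred_eq, Set.mem_inter_iff]
  rw [h1]
  have hc := (pd_cont (hφ.of_le (by norm_num)) i).abs
  exact (pce_measN hφ y0 r i.val thr).inter
    ((isClosed_le continuous_const hc).measurableSet.inter
      (isClosed_le hc continuous_const).measurableSet)

/-- volume of the neighbourhood, real constant -/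
private theorem pce_vol {l : ℕ} {φ : E l → ℝ} {y0 : E l} {r : ℝ} {Cg : ℝ≥0∞}
    (hgm : ∀ ρ : Fin l → ℝ, volume {y : E l | y ∈ Metric.ball y0 r ∧ ∀ i, |pd φ i y| ≤ ρ i} ≤
        Cg * ∏ i, ENNReal.ofReal (ρ i)) (g : ℕ → ℝ) (hg : ∀ n, 0 ≤ g n) {b : ℝ}
    (hb : ∏ n ∈ range l, g n ≤ b) :
    volume {y : E l | y ∈ Metric.ball y0 r ∧ ∀ i : Fin l, |pd φ i y| ≤ g i.val} ≤
      Cg * ENNReal.ofReal b := by
  refine (hgm fun i => g i.val).trans ?_
  refine mul_le_mul_right ?_ _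
  rw [← ENNReal.ofReal_prod_of_nonneg (fun i _ => hg i.val), Fin.prod_univ_eq_prod_range]
  exact ENNReal.ofReal_le_ofReal hb

theorem piece (l : ℕ) (hl : 1 ≤ l) (j : Fin (l + 1)) {φ : E l → ℝ} (hφ : ContDiff ℝ 2 φ) (y0 : E l)
    (h : Function.Injective (fderiv ℝ (fderiv ℝ φ) y0)) :
    ∃ r : ℝ, 0 < r ∧ ∃ C : ℝ≥0∞, C ≠ ⊤ ∧ ∃ ν0 : ℕ, ∀ (ν σ : ℕ) (A : ℝ≥0∞), ν0 ≤ ν → σ ≤ 1 →
      BdR l ν ν (rN l ν) A → ∀ a : ℤ → ℂ, Sup σ ν ν 0 a →
      ∫⁻ y in Metric.ball y0 r, ‖FS (l + 1) (S0 ν) a (Gr j φ y)‖ₑ ^ P l ≤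
        C * (ν + 1) * A * (∑ m ∈ S0 ν, ‖a m‖ₑ ^ 2) ^ (P l / 2) := by
  obtain ⟨r0, hr0, Cg, hCg, hgm⟩ := gm_vol hφ y0 h
  obtain ⟨Λ, hΛ1, hlip⟩ := lip_ball hφ y0 r0
  have hΛ0 : 0 ≤ Λ := by linarith
  obtain ⟨C0, hC0, hpc⟩ := pc0 l hl Λ hΛ0
  obtain ⟨r, hr⟩ : ∃ r : ℝ, r = r0 / 2 := ⟨_, rfl⟩
  have hrpos : 0 < r := by rw [hr]; linarith
  obtain ⟨ν0, hν0⟩ := exists_pow_lt_of_lt_one (show (0 : ℝ) < r / 2 by linarith)
    (show (1 / 2 : ℝ) < 1 by norm_num)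
  obtain ⟨B, hB⟩ : ∃ B : ℝ, B = 6 * Λ ^ l * (4 * Λ) ^ l := ⟨_, rfl⟩
  obtain ⟨D, hD⟩ : ∃ D : ℝ≥0∞, D = Cg * ENNReal.ofReal B := ⟨_, rfl⟩
  have hDtop : D ≠ ⊤ := by rw [hD]; exact ENNReal.mul_ne_top hCg ENNReal.ofReal_ne_top
  refine ⟨r, hrpos, C0 * D * l, ENNReal.mul_ne_top (ENNReal.mul_ne_top hC0 hDtop)
    (ENNReal.natCast_ne_top l), ν0, ?_⟩
  intro ν σ A hν hσ hbd a ha
  obtain ⟨δ, hδ⟩ : ∃ δ : ℝ, δ = ((2 : ℝ) ^ ν)⁻¹ := ⟨_, rfl⟩
  have hδ0 : 0 < δ := by rw [hδ]; positivity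
  have hδν : (2 : ℝ) ^ ν * δ = 1 := by rw [hδ]; exact mul_inv_cancel₀ (by positivity)
  have hδr : 2 * δ < r := by
    have h1 : δ ≤ (1 / 2 : ℝ) ^ ν0 := by
      rw [hδ, ← inv_pow, one_div]
      exact pow_le_pow_of_le_one (by norm_num) (by norm_num) hν
    linarith
  obtain ⟨thr, hthr⟩ : ∃ thr : ℝ, thr = 2 * Λ * δ := ⟨_, rfl⟩
  have hthr0 : 0 < thr := by rw [hthr]; positivity
  have hsub : Metric.ball y0 r ⊆ Metric.ball y0 r0 := Metric.ball_subset_ball (by rw [hr]; linarith)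
  -- near points
  have hnear : ∀ y ∈ Metric.ball y0 r, ∀ y' : E l, dist y' y ≤ 2 * δ → y' ∈ Metric.ball y0 r0 ∧
      |φ y' - φ y| ≤ Λ * dist y' y ∧ ∀ i, |pd φ i y'| ≤ Λ ∧ |pd φ i y'| ≤ |pd φ i y| + thr := by
    intro y hy y' hd
    have hy' : y' ∈ Metric.ball y0 r0 := by
      rw [Metric.mem_ball] at hy ⊢
      have := dist_triangle y' y y0
      rw [hr] at hδr hy
      linarith
    obtain ⟨h1, h2⟩ := hlip y' hy' y (hsub hy)
    refine ⟨hy', h1, fun i => ⟨(h2 i).1, ?_⟩⟩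
    have h3 := (h2 i).2
    have h4 : Λ * dist y' y ≤ thr := by
      rw [hthr]
      nlinarith
    have h5 := abs_sub_abs_le_abs_sub (pd φ i y') (pd φ i y)
    linarith
  have hball_top : volume (Metric.ball y0 r0) ≠ ⊤ := measure_ball_lt_top.ne
  obtain ⟨Sa, hSa⟩ : ∃ Sa : ℝ≥0∞, Sa = (∑ m ∈ S0 ν, ‖a m‖ₑ ^ 2) ^ (P l / 2) := ⟨_, rfl⟩
  rw [← hSa]
  -- real inequalities
  have h4Λ : (1 : ℝ) ≤ 4 * Λ := by linarith
  have key : ∀ k : ℕ, k ≤ l → (2 : ℝ) ^ (ν * (k + 1)) * δ * (2 * thr) ^ k ≤ (4 * Λ) ^ l := by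
    intro k hk
    have h1 : (2 : ℝ) ^ (ν * (k + 1)) * δ * (2 * thr) ^ k = (4 * Λ) ^ k := by
      rw [mul_add, mul_one, pow_add, pow_mul, mul_assoc ((2 ^ ν : ℝ) ^ k), hδν, mul_one, ← mul_pow,
        hthr]
      congr 1
      calc (2 : ℝ) ^ ν * (2 * (2 * Λ * δ)) = 4 * Λ * ((2 : ℝ) ^ ν * δ) := by ring
        _ = 4 * Λ := by rw [hδν, mul_one]
    rw [h1]
    exact pow_le_pow_right₀ h4Λ hk
  -- abstract estimate of one piece
  have hone : ∀ (F : Set (E l)) (W0 : ℝ≥0∞) (w : ℝ) (g : ℕ → ℝ) (b : ℝ), MeasurableSet F →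
      F ⊆ Metric.ball y0 r → (∀ n, 0 ≤ g n) → ∏ n ∈ range l, g n ≤ b → 0 ≤ w →
      W0 = ENNReal.ofReal w → w * δ * b ≤ B →
      (∀ y ∈ F, ∀ y' : E l, dist y' y ≤ 2 * δ → ∀ i : Fin l, |pd φ i y'| ≤ g i.val) →
      (∀ x : E (l + 1), volume {y : E l | y ∈ F ∧ x - Gr j φ y ∈ bx 0 (bN (l + 1) ν)} ≤
        W0 * ∏ r, ENNReal.ofReal (bN (l + 1) ν r)) →
      ∫⁻ y in F, ‖FS (l + 1) (S0 ν) a (Gr j φ y)‖ₑ ^ P l ≤ C0 * D * A * Sa := by
    intro F W0 w g b hF hFr hg0 hb hw hW0 hwb hFg hW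
    have h1 := hpc j φ ν σ F {y : E l | y ∈ Metric.ball y0 r0 ∧ ∀ i : Fin l, |pd φ i y| ≤ g i.val}
      W0 A hφ.continuous hσ hF (pce_meas hφ y0 r0 fun i => g i.val)
      (ne_top_of_le_ne_top hball_top (measure_mono (hFr.trans hsub)))
      (by
        intro y hy y' hd
        rw [← hδ] at hd
        obtain ⟨h1, h2, -⟩ := hnear y (hFr hy) y' hd
        exact ⟨⟨h1, hFg y hy y' hd⟩, h2⟩) hW hbd a ha
    refine h1.trans ?_
    rw [← hSa, ← hδ]
    have h2 := pce_vol hgm g hg0 hb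
    have hb0 : 0 ≤ b := (Finset.prod_nonneg fun n _ => hg0 n).trans hb
    calc C0 * A * W0 * ENNReal.ofReal δ *
        volume {y : E l | y ∈ Metric.ball y0 r0 ∧ ∀ i : Fin l, |pd φ i y| ≤ g i.val} * Sa ≤
        C0 * A * W0 * ENNReal.ofReal δ * (Cg * ENNReal.ofReal b) * Sa := by gcongr
      _ = C0 * (Cg * (W0 * ENNReal.ofReal δ * ENNReal.ofReal b)) * A * Sa := by ring
      _ = C0 * (Cg * ENNReal.ofReal (w * δ * b)) * A * Sa := by
          rw [hW0, ← ENNReal.ofReal_mul hw, ← ENNReal.ofReal_mul (mul_nonneg hw hδ0.le)]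
      _ ≤ C0 * D * A * Sa := by
          rw [hD]
          gcongr
  -- the pieces
  obtain ⟨T, hT⟩ : ∃ T : Option (Fin l × Fin ν) → Set (E l), T = fun o => match o with
      | none => {y : E l | y ∈ Metric.ball y0 r ∧ ∀ i : Fin l, i.val < j.val → |pd φ i y| ≤ thr}
      | some q => if q.1.val < j.val then {y : E l | (y ∈ Metric.ball y0 r ∧ ∀ i' : Fin l,
          i'.val < q.1.val → |pd φ i' y| ≤ thr) ∧ thr * 2 ^ q.2.val ≤ |pd φ q.1 y| ∧
          |pd φ q.1 y| ≤ 2 * (thr * 2 ^ q.2.val)} else ∅ := ⟨_, rfl⟩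
  have hTn : T none = {y : E l | y ∈ Metric.ball y0 r ∧
      ∀ i : Fin l, i.val < j.val → |pd φ i y| ≤ thr} := by rw [hT]
  have hTs : ∀ q : Fin l × Fin ν, T (some q) = if q.1.val < j.val then
      {y : E l | (y ∈ Metric.ball y0 r ∧ ∀ i' : Fin l,
          i'.val < q.1.val → |pd φ i' y| ≤ thr) ∧ thr * 2 ^ q.2.val ≤ |pd φ q.1 y| ∧
          |pd φ q.1 y| ≤ 2 * (thr * 2 ^ q.2.val)} else ∅ := by
    intro q
    rw [hT]
  have hcover : Metric.ball y0 r ⊆ ⋃ o, T o := by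
    intro y hy
    rw [Set.mem_iUnion]
    by_cases hall : ∀ i : Fin l, i.val < j.val → |pd φ i y| ≤ thr
    · exact ⟨none, by rw [hTn]; exact ⟨hy, hall⟩⟩
    · push Not at hall
      obtain ⟨i1, hi1, hi1'⟩ := hall
      obtain ⟨n, hn⟩ : ∃ n, n = Nat.findX (p := fun n => ∃ i : Fin l, i.val = n ∧ i.val < j.val ∧
        thr < |pd φ i y|) ⟨i1.val, i1, rfl, hi1, hi1'⟩ := ⟨_, rfl⟩
      obtain ⟨n, ⟨i, hin, hij, hit⟩, hmin⟩ := n
      have hmin' : ∀ i' : Fin l, i'.val < i.val → |pd φ i' y| ≤ thr := by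
        intro i' hi'
        by_contra hcon
        push Not at hcon
        exact hmin i'.val (by omega) ⟨i', rfl, by omega, hcon⟩
      have hle : |pd φ i y| ≤ thr * 2 ^ ν := by
        have h1 := ((hlip y (hsub hy) y (hsub hy)).2 i).1
        have h2 : thr * 2 ^ ν = 2 * Λ := by
          rw [hthr, mul_assoc, mul_comm δ, hδν, mul_one]
        linarith
      obtain ⟨m, hm⟩ : ∃ m, m = Nat.findX (p := fun m => |pd φ i y| ≤ thr * 2 ^ m) ⟨ν, hle⟩ :=
        ⟨_, rfl⟩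
      obtain ⟨m, hm1, hm2⟩ := m
      have hm0 : m ≠ 0 := by
        rintro rfl
        rw [pow_zero, mul_one] at hm1
        linarith
      obtain ⟨e, rfl⟩ := Nat.exists_eq_succ_of_ne_zero hm0
      have he : e < ν := by
        by_contra hcon
        exact hm2 ν (by omega) hle
      have he2 := hm2 e (Nat.lt_succ_self e)
      push Not at he2
      refine ⟨some (i, ⟨e, he⟩), ?_⟩
      rw [hTs, if_pos hij]
      refine ⟨⟨hy, hmin'⟩, he2.le, ?_⟩
      rw [pow_succ] at hm1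
      change |pd φ i y| ≤ 2 * (thr * 2 ^ e)
      linarith
  have hbound : ∀ o, ∫⁻ y in T o, ‖FS (l + 1) (S0 ν) a (Gr j φ y)‖ₑ ^ P l ≤ C0 * D * A * Sa := by
    intro o
    rcases o with _ | q
    · rw [hTn]
      have hjl : j.val ≤ l := Nat.lt_succ_iff.1 j.isLt
      refine hone _ (2 ^ (ν * (j.val + 1))) ((2 : ℝ) ^ (ν * (j.val + 1)))
        (fun n => if n < j.val then 2 * thr else Λ) ((2 * thr) ^ j.val * Λ ^ l)
        (pce_measN hφ y0 r j.val thr) (fun y hy => hy.1) ?_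
        (pce_prodA j.val l hjl (2 * thr) Λ (by positivity) hΛ1) (by positivity) ?_ ?_ ?_ ?_
      · intro n
        split_ifs
        · positivity
        · exact hΛ0
      · rw [ENNReal.ofReal_pow (by norm_num)]
        norm_num
      · have h1 := key j.val hjl
        have h2 : (0 : ℝ) ≤ Λ ^ l := by positivity
        have h3 : (0 : ℝ) ≤ (4 * Λ) ^ l := by positivity
        calc (2 : ℝ) ^ (ν * (j.val + 1)) * δ * ((2 * thr) ^ j.val * Λ ^ l) =
            Λ ^ l * ((2 : ℝ) ^ (ν * (j.val + 1)) * δ * (2 * thr) ^ j.val) := by ring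
          _ ≤ Λ ^ l * (4 * Λ) ^ l := mul_le_mul_of_nonneg_left h1 h2
          _ ≤ B := by
              rw [hB]
              nlinarith [mul_nonneg h2 h3]
      · intro y hy y' hd i
        have h1 := ((hnear y hy.1 y' hd).2.2 i)
        split_ifs with hi
        · have := hy.2 i hi
          linarith [h1.2]
        · exact h1.1
      · intro x
        exact w_eq j φ ν _ x
    · rw [hTs]
      split_ifs with hij
      · obtain ⟨i, e⟩ := q
        dsimp only at hij ⊢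
        obtain ⟨η, hη⟩ : ∃ η : ℝ, η = thr * 2 ^ e.val := ⟨_, rfl⟩
        have hη0 : 0 < η := by rw [hη]; positivity
        have hthrη : thr ≤ η := by
          rw [hη]
          exact le_mul_of_one_le_right hthr0.le (one_le_pow₀ (by norm_num))
        rw [← hη]
        have hmeas := pce_measS hφ y0 r i thr η (2 * η)
        refine hone _ (ENNReal.ofReal (2 / η) * 2 ^ (ν * (i.val + 1)))
          (2 / η * (2 : ℝ) ^ (ν * (i.val + 1)))
          (fun n => if n < i.val then 2 * thr else if n = i.val then 3 * η else Λ)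
          ((2 * thr) ^ i.val * (3 * η) * Λ ^ l)
          hmeas (fun y hy => hy.1.1) ?_
          (pce_prodB i.val l i.isLt (2 * thr) (3 * η) Λ (by positivity) (by positivity) hΛ1)
          (by positivity) ?_ ?_ ?_ ?_
        · intro n
          split_ifs
          · positivity
          · positivity
          · exact hΛ0
        · rw [ENNReal.ofReal_mul (by positivity), ENNReal.ofReal_pow (by norm_num)]
          norm_num
        · have h1 := key i.val i.isLt.le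
          have h2 : (0 : ℝ) ≤ 6 * Λ ^ l := by positivity
          calc 2 / η * (2 : ℝ) ^ (ν * (i.val + 1)) * δ * ((2 * thr) ^ i.val * (3 * η) * Λ ^ l) =
              6 * Λ ^ l * ((2 : ℝ) ^ (ν * (i.val + 1)) * δ * (2 * thr) ^ i.val) := by
                field_simp
                ring
            _ ≤ 6 * Λ ^ l * (4 * Λ) ^ l := mul_le_mul_of_nonneg_left h1 h2
            _ = B := hB.symm
        · intro y hy y' hd i'
          have h1 := ((hnear y hy.1.1 y' hd).2.2 i')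
          split_ifs with hi hi2
          · have := hy.1.2 i' hi
            linarith [h1.2]
          · have h3 : i' = i := Fin.ext hi2
            rw [h3] at h1 ⊢
            have := hy.2.2
            linarith [h1.2]
          · exact h1.1
        · intro x
          refine w_lt j (hφ.of_le (by norm_num)) (convex_ball y0 r0) hΛ0 i hij
            (fun y hy y' hy' => ((hlip y hy y' hy').2 i).2) ν hη0 ?_ hmeas
            (fun y hy => hsub hy.1.1) (fun y hy => hy.2.1) x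
          have h1 : ((2 : ℝ) ^ (ν * (i.val + 1)))⁻¹ ≤ δ := by
            rw [hδ]
            refine inv_anti₀ (by positivity) (pow_le_pow_right₀ (by norm_num) ?_)
            exact Nat.le_mul_of_pos_right _ (Nat.succ_pos _)
          calc 2 * Λ * ((2 : ℝ) ^ (ν * (i.val + 1)))⁻¹ ≤ 2 * Λ * δ :=
                mul_le_mul_of_nonneg_left h1 (by positivity)
            _ = thr := hthr.symm
            _ ≤ η := hthrη
      · rw [Measure.restrict_empty, lintegral_zero_measure]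
        exact zero_le
  calc ∫⁻ y in Metric.ball y0 r, ‖FS (l + 1) (S0 ν) a (Gr j φ y)‖ₑ ^ P l ≤
      ∫⁻ y in ⋃ o, T o, ‖FS (l + 1) (S0 ν) a (Gr j φ y)‖ₑ ^ P l :=
        lintegral_mono_set hcover
    _ ≤ ∑' o, ∫⁻ y in T o, ‖FS (l + 1) (S0 ν) a (Gr j φ y)‖ₑ ^ P l :=
        lintegral_iUnion_le _ _
    _ = ∑ o, ∫⁻ y in T o, ‖FS (l + 1) (S0 ν) a (Gr j φ y)‖ₑ ^ P l := tsum_fintype _
    _ ≤ ∑ _o : Option (Fin l × Fin ν), C0 * D * A * Sa := Finset.sum_le_sum fun o _ => hbound o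
    _ = ((l * ν + 1 : ℕ) : ℝ≥0∞) * (C0 * D * A * Sa) := by
        rw [Finset.sum_const, Finset.card_univ, Fintype.card_option, Fintype.card_prod,
          Fintype.card_fin, Fintype.card_fin, nsmul_eq_mul]
    _ ≤ ((l * (ν + 1) : ℕ) : ℝ≥0∞) * (C0 * D * A * Sa) := by
        refine mul_le_mul_left ?_ _
        exact_mod_cast (by nlinarith : l * ν + 1 ≤ l * (ν + 1))
    _ = C0 * D * l * (ν + 1) * A * Sa := by
        push_cast
        ring

end Pool.Agent.Dcs
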