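import Pool.Agent.Dcs.Defs
import Pool.Agent.Dcp.Tay
import Pool.Agent.Dcp.SpA
import Pool.Agent.Dcp.ArS

/-!
# Dcs, module Smo: local constancy of exponential sums in an averaged form

Fix `z ∈ bx 0 (bN d ν)`, `0 ≤ z_i < 2^(-ν(i+1))`.  For `a` supported in `T` and `k : ℕ`, `i : Fin d` let
`tw ν i k a m = a m * (m/2^ν)^((i+1) k)`; it is supported in `T` and of norm at most `‖a m‖` for `m ∈ S0 ν`.
One coordinate: `FS a x = ∑ (a m ee(γ(m) ⬝ (x + z_i e_i))) ee(-z_i m^(i+1))`, so by `tay`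
`‖FS a x‖^p ≤ WL 1^(p-1) ∑'_k wj 1 k ‖FS (tw ν i k a) (x + z_i e_i)‖^p`.
All coordinates: for a functional `Φ` of the coefficients let `Op i Φ a = WL 1^(p-1) ∑'_k wj 1 k Φ (tw ν i k a)`.  With
`N x a = ‖FS a x‖^p`: `N x ≤ Op i (N (x + z_i e_i))`, so `N x ≤ Op 0 (Op 1 (... N (x + z)))`.  Integrate over `z` and `x`; the operators commute
with integrals, and if `Φ a ≤ B (∑ ‖a‖²)^(p/2)` for all `a` supported in `T` then `Op i Φ a ≤ WL 1^p B (∑ ‖a‖²)^(p/2)`.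
-/

set_option autoImplicit false

namespace Pool.Agent.Dcs

open MeasureTheory Finset Pool.Agent.Dcp
open scoped ENNReal

/-- twisted coefficients -/
noncomputable def smoTw (ν i k : ℕ) (a : ℤ → ℂ) : ℤ → ℂ :=
  fun m => a m * (((((m : ℝ) / 2 ^ ν) ^ (i + 1) : ℝ)) : ℂ) ^ k

/-- the averaging operator for one coordinate -/
noncomputable def smoOp (p : ℝ) (ν i : ℕ) (Φ : (ℤ → ℂ) → ℝ≥0∞) (a : ℤ → ℂ) : ℝ≥0∞ :=
  WL 1 ^ (p - 1) * ∑' k : ℕ, wj 1 k * Φ (smoTw ν i k a)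

/-- all operators of a list of coordinates -/
noncomputable def smoOps (p : ℝ) (ν : ℕ) (L : List ℕ) (Φ : (ℤ → ℂ) → ℝ≥0∞) : (ℤ → ℂ) → ℝ≥0∞ :=
  L.foldr (fun i Ψ => smoOp p ν i Ψ) Φ

theorem smo_tsum_wj : ∑' j : ℕ, wj 1 j = WL 1 := by
  have hsumL : HasSum (fun j : ℕ => (2 * Real.pi * 1) ^ j / (j.factorial : ℝ))
      (Real.exp (2 * Real.pi * 1)) := by
    rw [Real.exp_eq_exp_ℝ]
    exact NormedSpace.expSeries_div_hasSum_exp _
  have hpi := Real.pi_pos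
  unfold wj WL
  rw [← hsumL.tsum_eq, ENNReal.ofReal_tsum_of_nonneg (fun j => by positivity) hsumL.summable]

theorem smo_op_mono {p : ℝ} {ν i : ℕ} {Φ Ψ : (ℤ → ℂ) → ℝ≥0∞} (h : ∀ a, Φ a ≤ Ψ a) (a : ℤ → ℂ) :
    smoOp p ν i Φ a ≤ smoOp p ν i Ψ a := by
  unfold smoOp
  gcongr with k
  exact h _

theorem smo_cont (d : ℕ) (s : Finset ℤ) (a : ℤ → ℂ) : Continuous (fun x : E d => FS d s a x) := by
  unfold FS
  refine continuous_finsetSum _ fun n _ => continuous_const.mul (ee_cont.comp ?_)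
  fun_prop

/-- one coordinate, pointwise -/
theorem smo_one {d : ℕ} {p : ℝ} (hp : 1 ≤ p) (ν : ℕ) (i : Fin d) (x : E d) (t : ℝ) (ht : 0 ≤ t)
    (ht1 : t < bN d ν i) (a : ℤ → ℂ) :
    ‖FS d (S0 ν) a x‖ₑ ^ p ≤ smoOp p ν i.val
      (fun b => ‖FS d (S0 ν) b (x + Pi.single i t)‖ₑ ^ p) a := by
  have h := tay hp (L := 1) (S0 ν)
    (fun n => a n * ee (∑ j : Fin d, (n : ℝ) ^ (j.val + 1) * (x + Pi.single i t : E d) j))
    (fun n => ((n : ℝ) / 2 ^ ν) ^ (i.val + 1)) (lam := -t * 2 ^ (ν * (i.val + 1))) (by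
      rw [abs_mul, abs_neg, abs_of_nonneg ht, abs_of_nonneg (by positivity)]
      have h1 : t ≤ ((2 : ℝ) ^ (ν * (i.val + 1)))⁻¹ := ht1.le
      calc t * 2 ^ (ν * (i.val + 1)) ≤ ((2 : ℝ) ^ (ν * (i.val + 1)))⁻¹ * 2 ^ (ν * (i.val + 1)) :=
            mul_le_mul_of_nonneg_right h1 (by positivity)
        _ = 1 := inv_mul_cancel₀ (by positivity))
  have e1 : FS d (S0 ν) a x = ∑ n ∈ S0 ν,
      (a n * ee (∑ j : Fin d, (n : ℝ) ^ (j.val + 1) * (x + Pi.single i t : E d) j)) *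
        ee (-t * 2 ^ (ν * (i.val + 1)) * ((n : ℝ) / 2 ^ ν) ^ (i.val + 1)) := by
    unfold FS
    refine Finset.sum_congr rfl fun n _ => ?_
    rw [mul_assoc, ← ee_add]
    congr 2
    have e2 : ∑ j : Fin d, (n : ℝ) ^ (j.val + 1) * (x + Pi.single i t : E d) j =
        ∑ j : Fin d, (n : ℝ) ^ (j.val + 1) * x j + (n : ℝ) ^ (i.val + 1) * t := by
      simp only [Pi.add_apply, mul_add, Finset.sum_add_distrib]
      congr 1
      rw [Finset.sum_eq_single i]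
      · rw [Pi.single_eq_same]
      · intro j _ hj
        rw [Pi.single_eq_of_ne hj, mul_zero]
      · intro h
        exact absurd (Finset.mem_univ i) h
    have e3 : -t * 2 ^ (ν * (i.val + 1)) * ((n : ℝ) / 2 ^ ν) ^ (i.val + 1) =
        -((n : ℝ) ^ (i.val + 1) * t) := by
      rw [div_pow, ← pow_mul]
      field_simp
    rw [e2, e3]
    ring
  rw [e1]
  refine h.trans (le_of_eq ?_)
  unfold smoOp
  congr 1
  refine tsum_congr fun k => ?_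
  congr 3
  unfold FS
  refine Finset.sum_congr rfl fun n _ => ?_
  unfold smoTw
  ring

/-- the sum of the displacements -/
noncomputable def smoZ {d : ℕ} (z : E d) (L : List (Fin d)) : E d :=
  L.foldr (fun i y => Pi.single i (z i) + y) 0

theorem smo_many {d : ℕ} {p : ℝ} (hp : 1 ≤ p) (ν : ℕ) (z : E d) (hz : ∀ i, 0 ≤ z i)
    (hz1 : ∀ i, z i < bN d ν i) (L : List (Fin d)) : ∀ (x : E d) (a : ℤ → ℂ),
    ‖FS d (S0 ν) a x‖ₑ ^ p ≤ smoOps p ν (L.map Fin.val)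
      (fun b => ‖FS d (S0 ν) b (x + smoZ z L)‖ₑ ^ p) a := by
  induction L with
  | nil =>
    intro x a
    simp [smoOps, smoZ]
  | cons i L ih =>
    intro x a
    refine (smo_one hp ν i x (z i) (hz i) (hz1 i) a).trans ?_
    have h := smo_op_mono (p := p) (ν := ν) (i := i.val) (ih (x + Pi.single i (z i))) a
    refine h.trans (le_of_eq ?_)
    simp only [smoOps, smoZ, List.map_cons, List.foldr_cons, add_assoc]

theorem smo_Z_all {d : ℕ} (z : E d) : smoZ z (List.finRange d) = z := by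
  have h : ∀ L : List (Fin d), smoZ z L = (L.map (fun i => (Pi.single i (z i) : E d))).sum := by
    intro L
    induction L with
    | nil => rfl
    | cons i L ih =>
      rw [List.map_cons, List.sum_cons, ← ih]
      rfl
  rw [h, ← Fin.sum_univ_def (fun i => (Pi.single i (z i) : E d))]
  exact Finset.univ_sum_single z

theorem smo_meas {Y : Type*} [MeasurableSpace Y] {p : ℝ} {ν : ℕ} (Ψ : Y → (ℤ → ℂ) → ℝ≥0∞)
    (hΨ : ∀ a, Measurable (fun y => Ψ y a)) (L : List ℕ) : ∀ a,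
    Measurable (fun y => smoOps p ν L (Ψ y) a) := by
  induction L with
  | nil => exact hΨ
  | cons i L ih =>
    intro a
    have e : (fun y => smoOps p ν (i :: L) (Ψ y) a) = fun y => WL 1 ^ (p - 1) * ∑' k : ℕ,
        wj 1 k * smoOps p ν L (Ψ y) (smoTw ν i k a) := rfl
    rw [e]
    exact (Measurable.tsum fun k => (ih _).const_mul _).const_mul _

theorem smo_int {Y : Type*} [MeasurableSpace Y] (μ : Measure Y) {p : ℝ} {ν : ℕ}
    (Ψ : Y → (ℤ → ℂ) → ℝ≥0∞) (hΨ : ∀ a, Measurable (fun y => Ψ y a)) (L : List ℕ) : ∀ a,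
    ∫⁻ y, smoOps p ν L (Ψ y) a ∂μ = smoOps p ν L (fun b => ∫⁻ y, Ψ y b ∂μ) a := by
  induction L with
  | nil => intro a; rfl
  | cons i L ih =>
    intro a
    have e : (fun y => smoOps p ν (i :: L) (Ψ y) a) = fun y => WL 1 ^ (p - 1) * ∑' k : ℕ,
        wj 1 k * smoOps p ν L (Ψ y) (smoTw ν i k a) := rfl
    have hm := smo_meas (p := p) (ν := ν) Ψ hΨ L
    have e1 : ∫⁻ y, smoOps p ν (i :: L) (Ψ y) a ∂μ = ∫⁻ y, WL 1 ^ (p - 1) * ∑' k : ℕ,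
        wj 1 k * smoOps p ν L (Ψ y) (smoTw ν i k a) ∂μ := by rw [← e]
    rw [e1, lintegral_const_mul _ (Measurable.tsum fun k => (hm _).const_mul _),
      lintegral_tsum fun k => ((hm _).const_mul _).aemeasurable]
    show WL 1 ^ (p - 1) * ∑' k : ℕ, ∫⁻ y, wj 1 k * smoOps p ν L (Ψ y) (smoTw ν i k a) ∂μ =
      WL 1 ^ (p - 1) * ∑' k : ℕ, wj 1 k * smoOps p ν L (fun b => ∫⁻ y, Ψ y b ∂μ) (smoTw ν i k a)
    have e2 : ∀ k : ℕ, ∫⁻ y, wj 1 k * smoOps p ν L (Ψ y) (smoTw ν i k a) ∂μ =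
        wj 1 k * smoOps p ν L (fun b => ∫⁻ y, Ψ y b ∂μ) (smoTw ν i k a) := by
      intro k
      rw [lintegral_const_mul _ (hm _), ih]
    rw [tsum_congr e2]

theorem smo_tw_norm {ν i k : ℕ} {a : ℤ → ℂ} {m : ℤ} (hm : m ∈ S0 ν) :
    ‖smoTw ν i k a m‖ₑ ≤ ‖a m‖ₑ := by
  unfold smoTw
  rw [enorm_mul]
  have h1 : |(m : ℝ) / 2 ^ ν| ≤ 1 := by
    rw [abs_div, abs_of_pos (by positivity : (0 : ℝ) < 2 ^ ν), div_le_one (by positivity)]
    rw [S0, Finset.mem_Icc] at hm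
    have h2 : (-(2 ^ ν : ℤ) : ℝ) ≤ (m : ℝ) := by exact_mod_cast hm.1
    have h3 : (m : ℝ) ≤ (2 : ℝ) ^ ν := by exact_mod_cast hm.2
    rw [abs_le]
    exact ⟨by push_cast at h2; linarith, h3⟩
  have h2 : ‖((((((m : ℝ) / 2 ^ ν) ^ (i + 1) : ℝ)) : ℂ) ^ k)‖ₑ ≤ 1 := by
    rw [← ofReal_norm, ← ENNReal.ofReal_one]
    apply ENNReal.ofReal_le_ofReal
    rw [norm_pow, Complex.norm_real, Real.norm_eq_abs, abs_pow]
    exact pow_le_one₀ (by positivity) (pow_le_one₀ (abs_nonneg _) h1)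
  calc ‖a m‖ₑ * _ ≤ ‖a m‖ₑ * 1 := by gcongr
    _ = ‖a m‖ₑ := mul_one _

theorem smo_bd {p : ℝ} (hp : 1 ≤ p) {ν : ℕ} {T : Set ℤ} (L : List ℕ) :
    ∀ (Φ : (ℤ → ℂ) → ℝ≥0∞) (B : ℝ≥0∞),
    (∀ a : ℤ → ℂ, (∀ m, a m ≠ 0 → m ∈ T) → Φ a ≤ B * (∑ m ∈ S0 ν, ‖a m‖ₑ ^ 2) ^ (p / 2)) →
    ∀ a : ℤ → ℂ, (∀ m, a m ≠ 0 → m ∈ T) → smoOps p ν L Φ a ≤
      (WL 1 ^ p) ^ L.length * B * (∑ m ∈ S0 ν, ‖a m‖ₑ ^ 2) ^ (p / 2) := by
  induction L with
  | nil =>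
    intro Φ B h a ha
    simpa [smoOps] using h a ha
  | cons i L ih =>
    intro Φ B h a ha
    have e : smoOps p ν (i :: L) Φ a = WL 1 ^ (p - 1) * ∑' k : ℕ,
        wj 1 k * smoOps p ν L Φ (smoTw ν i k a) := rfl
    have hWL0 : WL 1 ≠ 0 := by
      unfold WL
      rw [Ne, ENNReal.ofReal_eq_zero, not_le]
      exact Real.exp_pos _
    have hWL1 : WL 1 ≠ ⊤ := ENNReal.ofReal_ne_top
    rw [e]
    set Q := (∑ m ∈ S0 ν, ‖a m‖ₑ ^ 2) ^ (p / 2) with hQ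
    have h1 : ∀ k : ℕ, smoOps p ν L Φ (smoTw ν i k a) ≤ (WL 1 ^ p) ^ L.length * B * Q := by
      intro k
      refine (ih Φ B h (smoTw ν i k a) ?_).trans ?_
      · intro m hm
        apply ha
        intro h0
        apply hm
        unfold smoTw
        rw [h0, zero_mul]
      · exact mul_le_mul' le_rfl (ENNReal.rpow_le_rpow (Finset.sum_le_sum fun m hm =>
          pow_le_pow_left' (smo_tw_norm hm) 2) (by linarith))
    calc WL 1 ^ (p - 1) * ∑' k : ℕ, wj 1 k * smoOps p ν L Φ (smoTw ν i k a)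
        ≤ WL 1 ^ (p - 1) * ∑' k : ℕ, wj 1 k * ((WL 1 ^ p) ^ L.length * B * Q) := by
          gcongr with k
          exact h1 k
      _ = WL 1 ^ (p - 1) * (WL 1 * ((WL 1 ^ p) ^ L.length * B * Q)) := by
          rw [ENNReal.tsum_mul_right, smo_tsum_wj]
      _ = (WL 1 ^ p) ^ (i :: L).length * B * Q := by
          rw [List.length_cons, pow_succ]
          have h2 : WL 1 ^ p = WL 1 ^ (p - 1) * WL 1 := by
            nth_rewrite 3 [← ENNReal.rpow_one (WL 1)]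
            rw [← ENNReal.rpow_add _ _ hWL0 hWL1]
            congr 1
            ring
          rw [h2]
          ring

theorem smo_vol (d ν : ℕ) : volume (bx (0 : E d) (bN d ν)) = ∏ i, ENNReal.ofReal (bN d ν i) := by
  unfold bx
  rw [volume_pi, Measure.pi_pi]
  refine Finset.prod_congr rfl fun i _ => ?_
  rw [Real.volume_Ico]
  congr 1
  simp

theorem smo_m2 (d ν : ℕ) (p : ℝ) (b : ℤ → ℂ) :
    Measurable (fun q : E d × E d => ‖FS d (S0 ν) b (q.1 + q.2)‖ₑ ^ p) := by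
  have h1 : Continuous (fun q : E d × E d => FS d (S0 ν) b (q.1 + q.2)) :=
    (smo_cont d (S0 ν) b).comp (continuous_fst.add continuous_snd)
  exact (h1.measurable.enorm).pow_const p

theorem smo_m1 (d ν : ℕ) (p : ℝ) (x : E d) (b : ℤ → ℂ) :
    Measurable (fun z : E d => ‖FS d (S0 ν) b (x + z)‖ₑ ^ p) := by
  have h1 : Continuous (fun z : E d => FS d (S0 ν) b (x + z)) :=
    (smo_cont d (S0 ν) b).comp (continuous_const.add continuous_id)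
  exact (h1.measurable.enorm).pow_const p

theorem smo_m3 (d ν : ℕ) (p : ℝ) (b : ℤ → ℂ) (μ : Measure (E d)) [SFinite μ] :
    Measurable (fun x : E d => ∫⁻ z, ‖FS d (S0 ν) b (x + z)‖ₑ ^ p ∂μ) :=
  Measurable.lintegral_prod_right' (ν := μ)
    (f := fun q : E d × E d => ‖FS d (S0 ν) b (q.1 + q.2)‖ₑ ^ p) (smo_m2 d ν p b)

theorem smo_pt (d ν : ℕ) {p : ℝ} (hp : 1 ≤ p) (a : ℤ → ℂ) (x : E d) :
    (∏ i, ENNReal.ofReal (bN d ν i)) * ‖FS d (S0 ν) a x‖ₑ ^ p ≤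
      smoOps p ν ((List.finRange d).map Fin.val)
        (fun b => ∫⁻ z, ‖FS d (S0 ν) b (x + z)‖ₑ ^ p ∂(volume.restrict (bx 0 (bN d ν)))) a := by
  have hmeasbox : MeasurableSet (bx (0 : E d) (bN d ν)) := by
    unfold bx
    exact MeasurableSet.univ_pi fun i => measurableSet_Ico
  rw [← smo_int (volume.restrict (bx 0 (bN d ν))) (fun z b => ‖FS d (S0 ν) b (x + z)‖ₑ ^ p)
    (smo_m1 d ν p x) ((List.finRange d).map Fin.val) a]
  have h1 : (∏ i, ENNReal.ofReal (bN d ν i)) * ‖FS d (S0 ν) a x‖ₑ ^ p =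
      ∫⁻ z in bx 0 (bN d ν), ‖FS d (S0 ν) a x‖ₑ ^ p := by
    rw [lintegral_const, Measure.restrict_apply_univ, smo_vol, mul_comm]
  rw [h1]
  refine setLIntegral_mono' hmeasbox fun z hz => ?_
  have hz1 : ∀ i, z i ∈ Set.Ico (0 : ℝ) (0 + bN d ν i) := fun i => hz i (Set.mem_univ i)
  have h2 := smo_many hp ν z (fun i => (hz1 i).1) (fun i => by simpa using (hz1 i).2)
    (List.finRange d) x a
  rwa [smo_Z_all] at h2

theorem smo_hint (d ν : ℕ) {p : ℝ} (hp : 1 ≤ p) (a : ℤ → ℂ) (ω : Measure (E d)) :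
    (∏ i, ENNReal.ofReal (bN d ν i)) * ∫⁻ x, ‖FS d (S0 ν) a x‖ₑ ^ p ∂ω ≤
      smoOps p ν ((List.finRange d).map Fin.val)
        (fun b => ∫⁻ x, (∫⁻ z, ‖FS d (S0 ν) b (x + z)‖ₑ ^ p ∂(volume.restrict (bx 0 (bN d ν)))) ∂ω)
        a := by
  rw [← smo_int ω (fun x b => ∫⁻ z, ‖FS d (S0 ν) b (x + z)‖ₑ ^ p ∂(volume.restrict (bx 0 (bN d ν))))
      (fun b => smo_m3 d ν p b _) ((List.finRange d).map Fin.val) a,
    ← lintegral_const_mul _ (((smo_cont d (S0 ν) a).measurable.enorm).pow_const p)]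
  exact lintegral_mono fun x => smo_pt d ν hp a x

theorem smo_fin {V X Y : ℝ≥0∞} (hV0 : V ≠ 0) (hV1 : V ≠ ⊤) (h : V * X ≤ V * Y) : X ≤ Y :=
  (ENNReal.mul_le_mul_iff_right hV0 hV1).1 h

theorem smooth (d : ℕ) {p : ℝ} (hp : 1 ≤ p) : ∃ C : ℝ≥0∞, C ≠ ⊤ ∧ ∀ (ν : ℕ) (T : Set ℤ)
    (ω : Measure (E d)) (A : ℝ≥0∞), SFinite ω →
    (∀ a : ℤ → ℂ, (∀ m, a m ≠ 0 → m ∈ T) →
      ∫⁻ x, (∫⁻ z in bx 0 (bN d ν), ‖FS d (S0 ν) a (x + z)‖ₑ ^ p) ∂ω ≤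
        A * (∏ i, ENNReal.ofReal (bN d ν i)) * (∑ m ∈ S0 ν, ‖a m‖ₑ ^ 2) ^ (p / 2)) →
    ∀ a : ℤ → ℂ, (∀ m, a m ≠ 0 → m ∈ T) →
      ∫⁻ x, ‖FS d (S0 ν) a x‖ₑ ^ p ∂ω ≤ C * A * (∑ m ∈ S0 ν, ‖a m‖ₑ ^ 2) ^ (p / 2) := by
  refine ⟨(WL 1 ^ p) ^ d, ?_, ?_⟩
  · exact ENNReal.pow_ne_top (ENNReal.rpow_ne_top_of_nonneg (by linarith) ENNReal.ofReal_ne_top)
  intro ν T ω A _ hyp a ha
  have hV0 : (∏ i, ENNReal.ofReal (bN d ν i)) ≠ 0 := by
    rw [Finset.prod_ne_zero_iff]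
    intro i _
    rw [Ne, ENNReal.ofReal_eq_zero, not_le]
    unfold bN
    positivity
  have hV1 : (∏ i, ENNReal.ofReal (bN d ν i)) ≠ ⊤ :=
    ENNReal.prod_ne_top fun i _ => ENNReal.ofReal_ne_top
  have hint := smo_hint d ν hp a ω
  have hbd := smo_bd hp (ν := ν) (T := T) ((List.finRange d).map Fin.val)
    (fun b => ∫⁻ x, (∫⁻ z, ‖FS d (S0 ν) b (x + z)‖ₑ ^ p ∂(volume.restrict (bx 0 (bN d ν)))) ∂ω)
    (A * ∏ i, ENNReal.ofReal (bN d ν i)) hyp a ha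
  rw [List.length_map, List.length_finRange] at hbd
  refine smo_fin hV0 hV1 (hint.trans (hbd.trans (le_of_eq ?_)))
  generalize (∏ i, ENNReal.ofReal (bN d ν i)) = V
  generalize (∑ m ∈ S0 ν, ‖a m‖ₑ ^ 2) ^ (p / 2) = Q
  generalize (WL 1 ^ p) ^ d = W
  ring

end Pool.Agent.Dcs
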