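import Pool.Agent.Dcs.Defs

/-!
# Dcs, module Tri: the Fejer kernel

`KF_exp`: `‖DD M x‖² = DD * conj DD = ∑_{h, h' < M} ee ((h - h') x)` (`ee_add`, `conj (ee t) = ee (-t)`); the number of pairs
`(h, h') ∈ range M × range M` with difference `u` is `M - |u|` for `|u| ≤ M`.  (Alternatively induction on `M`.)

`KF_low`: `|x| ≤ 1/(2M)`: `Re (ee (-(M-1)x/2) * DD M x) = ∑_h cos (2π (h - (M-1)/2) x)`; all angles have absolute value at most
`π (M-1) |x| ≤ π/2` and `cos y ≥ 1 - 2|y|/π` there (`Real.mul_le_sin` applied to `π/2 - |y|`), so the sum is at least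
`∑_h (1 - 4 |h - (M-1)/2| |x|) ≥ M - 4|x| M²/4 ≥ M/2` (`∑_{h<M} |h - (M-1)/2| ≤ M²/4`), hence `‖DD‖ ≥ M/2`, `KF ≥ M/4`.

`KF_up`: `‖DD M x‖ ≤ M`, and `‖DD M x‖ * |sin (π x)| ≤ 1` (geometric sum: `DD M x * (ee x - 1) = ee (M x) - 1`,
`‖ee x - 1‖ = 2 |sin (π x)|`, `‖ee (M x) - 1‖ ≤ 2`).  For `x ∈ [m/M, (m+1)/M]`, `1 ≤ m`, `m + 2 ≤ M`:
`|sin (π x)| ≥ 2 min(x, 1-x) ≥ 2 min(m, M-1-m)/M`, so `KF M x ≤ (1/M) (M / (2 min(m, M-1-m)))² = M/(4 min(..)²)`.
Take `q m = M` if `m = 0` or `m + 1 ≥ M`, else `M/(4 m²) + M/(4 (M-1-m)²)`; the sum is at most `2M + 2 (M/4) 2 ≤ 16 M`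
(`∑ 1/m² ≤ 2`).
-/

set_option autoImplicit false

namespace Pool.Agent.Dcs

open MeasureTheory Finset Pool.Agent.Dcp
open scoped ENNReal

private theorem t_add (s t : ℝ) : ee (s + t) = ee s * ee t := by
  unfold ee
  rw [← Complex.exp_add]
  congr 1
  push_cast
  ring

private theorem t_norm (t : ℝ) : ‖ee t‖ = 1 := by
  unfold ee
  have h : (2 : ℂ) * Real.pi * t * Complex.I = ((2 * Real.pi * t : ℝ) : ℂ) * Complex.I := by
    push_cast
    ring
  rw [h, Complex.norm_exp_ofReal_mul_I]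

private theorem t_zero : ee 0 = 1 := by
  unfold ee
  simp

private theorem t_nat (n : ℕ) (x : ℝ) : ee (n * x) = ee x ^ n := by
  induction n with
  | zero => simp [t_zero]
  | succ n ih =>
    have e : ((n + 1 : ℕ) : ℝ) * x = n * x + x := by
      push_cast
      ring
    rw [e, t_add, ih, pow_succ]

private theorem t_re (t : ℝ) : (ee t).re = Real.cos (2 * Real.pi * t) := by
  unfold ee
  have h : (2 : ℂ) * Real.pi * t * Complex.I = ((2 * Real.pi * t : ℝ) : ℂ) * Complex.I := by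
    push_cast
    ring
  rw [h, Complex.exp_ofReal_mul_I_re]

private theorem t_conj (t : ℝ) : (starRingEnd ℂ) (ee t) = ee (-t) := by
  unfold ee
  rw [← Complex.exp_conj]
  congr 1
  simp only [map_mul, Complex.conj_ofReal, Complex.conj_I, Complex.ofReal_neg, map_ofNat]
  ring

private theorem t_sub_one (x : ℝ) : ‖ee x - 1‖ = 2 * |Real.sin (Real.pi * x)| := by
  unfold ee
  have h : (2 : ℂ) * Real.pi * x * Complex.I = Complex.I * ((2 * Real.pi * x : ℝ) : ℂ) := by
    push_cast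
    ring
  rw [h, Complex.norm_exp_I_mul_ofReal_sub_one, norm_mul, Real.norm_eq_abs, Real.norm_eq_abs,
    abs_of_pos (by norm_num : (0 : ℝ) < 2)]
  congr 3
  ring

private theorem DD_le (M : ℕ) (x : ℝ) : ‖DD M x‖ ≤ M := by
  unfold DD
  refine (norm_sum_le _ _).trans ?_
  simp only [t_norm]
  simp

private theorem DD_sin (M : ℕ) (x : ℝ) : ‖DD M x‖ * |Real.sin (Real.pi * x)| ≤ 1 := by
  have h1 : DD M x * (ee x - 1) = ee x ^ M - 1 := by
    unfold DD
    rw [← geom_sum_mul]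
    congr 1
    exact Finset.sum_congr rfl (fun h _ => t_nat h x)
  have h2 : ‖DD M x‖ * (2 * |Real.sin (Real.pi * x)|) ≤ 2 := by
    rw [← t_sub_one, ← norm_mul, h1]
    calc ‖ee x ^ M - 1‖ ≤ ‖ee x ^ M‖ + ‖(1 : ℂ)‖ := norm_sub_le _ _
      _ = 2 := by
        rw [norm_pow, t_norm, one_pow, norm_one]
        norm_num
  linarith

theorem KF_nonneg (M : ℕ) (x : ℝ) : 0 ≤ KF M x := by
  unfold KF
  positivity

theorem KF_cont (M : ℕ) : Continuous (KF M) := by
  unfold KF DD ee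
  fun_prop

private theorem card_diff (M : ℕ) (u : ℤ) :
    ((range M ×ˢ range M).filter (fun p => (p.1 : ℤ) - p.2 = u)).card = M - u.natAbs := by
  obtain ⟨k, rfl | rfl⟩ := Int.eq_nat_or_neg u
  · have h : (range M ×ˢ range M).filter (fun p => (p.1 : ℤ) - p.2 = (k : ℤ)) =
        (range (M - k)).image (fun j => (j + k, j)) := by
      ext ⟨a, b⟩
      simp only [mem_filter, mem_product, mem_range, mem_image, Prod.mk.injEq]
      constructor
      · rintro ⟨⟨h1, h2⟩, h3⟩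
        exact ⟨b, by omega, by omega, rfl⟩
      · rintro ⟨j, h1, h2, h3⟩
        omega
    rw [h, Finset.card_image_of_injective, card_range, Int.natAbs_natCast]
    intro a b hab
    simp only [Prod.mk.injEq] at hab
    exact hab.2
  · have h : (range M ×ˢ range M).filter (fun p => (p.1 : ℤ) - p.2 = -(k : ℤ)) =
        (range (M - k)).image (fun j => (j, j + k)) := by
      ext ⟨a, b⟩
      simp only [mem_filter, mem_product, mem_range, mem_image, Prod.mk.injEq]
      constructor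
      · rintro ⟨⟨h1, h2⟩, h3⟩
        exact ⟨a, by omega, rfl, by omega⟩
      · rintro ⟨j, h1, h2, h3⟩
        omega
    rw [h, Finset.card_image_of_injective, card_range, Int.natAbs_neg, Int.natAbs_natCast]
    intro a b hab
    simp only [Prod.mk.injEq] at hab
    exact hab.1

private theorem tri_eq (M : ℕ) (hM : 1 ≤ M) (u : ℤ) (hu : u ∈ Icc (-(M : ℤ)) M) :
    tri M u = ((M - u.natAbs : ℕ) : ℝ) / M := by
  rw [mem_Icc] at hu
  have hle : u.natAbs ≤ M := by omega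
  have hM0 : (0 : ℝ) < M := by exact_mod_cast hM
  have e : |(u : ℝ)| = (u.natAbs : ℝ) := by
    rw [Nat.cast_natAbs, Int.cast_abs]
  have hle' : (u.natAbs : ℝ) ≤ M := by exact_mod_cast hle
  unfold tri
  rw [e, Nat.cast_sub hle, max_eq_right]
  · field_simp
  · rw [sub_nonneg, div_le_one hM0]
    exact hle'

theorem KF_exp (M : ℕ) (hM : 1 ≤ M) (x : ℝ) :
    ((KF M x : ℝ) : ℂ) = ∑ h ∈ Icc (-(M : ℤ)) M, ((tri M h : ℝ) : ℂ) * ee (h * x) := by
  have hM0 : (M : ℂ) ≠ 0 := by exact_mod_cast (by omega : M ≠ 0)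
  have h1 : ((KF M x : ℝ) : ℂ) = (DD M x * (starRingEnd ℂ) (DD M x)) / M := by
    unfold KF
    rw [Complex.mul_conj, Complex.normSq_eq_norm_sq]
    push_cast
    rfl
  have h2 : DD M x * (starRingEnd ℂ) (DD M x) =
      ∑ p ∈ range M ×ˢ range M, ee ((((p.1 : ℤ) - p.2 : ℤ) : ℝ) * x) := by
    unfold DD
    rw [map_sum, Finset.sum_mul_sum, Finset.sum_product]
    refine Finset.sum_congr rfl (fun a _ => Finset.sum_congr rfl (fun b _ => ?_))
    rw [t_conj, ← t_add]
    congr 1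
    push_cast
    ring
  have h3 : ∑ p ∈ range M ×ˢ range M, ee ((((p.1 : ℤ) - p.2 : ℤ) : ℝ) * x) =
      ∑ u ∈ Icc (-(M : ℤ)) M, ((M - u.natAbs : ℕ) : ℂ) * ee (u * x) := by
    rw [← Finset.sum_fiberwise_of_maps_to (s := range M ×ˢ range M) (t := Icc (-(M : ℤ)) M)
      (g := fun p => (p.1 : ℤ) - p.2)]
    · refine Finset.sum_congr rfl (fun u _ => ?_)
      rw [← card_diff M u, ← nsmul_eq_mul, ← Finset.sum_const]
      refine Finset.sum_congr rfl (fun p hp => ?_)
      rw [(Finset.mem_filter.1 hp).2]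
    · intro p hp
      simp only [mem_product, mem_range] at hp
      rw [mem_Icc]
      omega
  rw [h1, h2, h3, Finset.sum_div]
  refine Finset.sum_congr rfl (fun u hu => ?_)
  rw [tri_eq M hM u hu]
  push_cast
  ring

private theorem sq_sum (n : ℕ) (c : ℝ) :
    ∑ h ∈ range n, ((h : ℝ) - c) ^ 2 = n * (n - 1) * (2 * n - 1) / 6 - c * n * (n - 1) + n * c ^ 2 := by
  induction n with
  | zero => simp
  | succ n ih =>
    rw [Finset.sum_range_succ, ih]
    push_cast
    ring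

theorem KF_low (M : ℕ) (hM : 1 ≤ M) (x : ℝ) (hx : |x| ≤ 1 / (2 * M)) : (M : ℝ) / 4 ≤ KF M x := by
  have hM0 : (1 : ℝ) ≤ M := by exact_mod_cast hM
  have hMp : (0 : ℝ) < M := by linarith
  obtain ⟨c, hc⟩ : ∃ c : ℝ, c = ((M : ℝ) - 1) / 2 := ⟨_, rfl⟩
  have h1 : (ee (-c * x) * DD M x).re = ∑ h ∈ range M, Real.cos (2 * Real.pi * (((h : ℝ) - c) * x)) := by
    unfold DD
    rw [Finset.mul_sum, Complex.re_sum]
    refine Finset.sum_congr rfl (fun h _ => ?_)
    rw [← t_add, t_re]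
    congr 2
    ring
  have h2 : (ee (-c * x) * DD M x).re ≤ ‖DD M x‖ := by
    refine (Complex.re_le_norm _).trans ?_
    rw [norm_mul, t_norm, one_mul]
  have h3 : ∑ h ∈ range M, (1 - (2 * Real.pi * (((h : ℝ) - c) * x)) ^ 2 / 2) ≤
      ∑ h ∈ range M, Real.cos (2 * Real.pi * (((h : ℝ) - c) * x)) :=
    Finset.sum_le_sum (fun h _ => Real.one_sub_sq_div_two_le_cos)
  have h4 : ∑ h ∈ range M, (1 - (2 * Real.pi * (((h : ℝ) - c) * x)) ^ 2 / 2) =
      M - 2 * Real.pi ^ 2 * x ^ 2 * ∑ h ∈ range M, ((h : ℝ) - c) ^ 2 := by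
    rw [Finset.sum_sub_distrib, Finset.mul_sum]
    congr 1
    · simp
    · refine Finset.sum_congr rfl (fun h _ => ?_)
      ring
  have h5 : ∑ h ∈ range M, ((h : ℝ) - c) ^ 2 ≤ (M : ℝ) ^ 3 / 12 := by
    rw [sq_sum, hc]
    nlinarith
  have h6 : x ^ 2 ≤ 1 / (4 * (M : ℝ) ^ 2) := by
    have h7 : |x| ^ 2 ≤ (1 / (2 * (M : ℝ))) ^ 2 := pow_le_pow_left₀ (abs_nonneg x) hx 2
    rw [sq_abs] at h7
    calc x ^ 2 ≤ (1 / (2 * (M : ℝ))) ^ 2 := h7
      _ = 1 / (4 * (M : ℝ) ^ 2) := by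
        field_simp
        ring
  have hpi : Real.pi ^ 2 ≤ 10 := by
    have h8 := Real.pi_lt_d2
    have h9 := Real.pi_pos
    nlinarith
  have h5' : 0 ≤ ∑ h ∈ range M, ((h : ℝ) - c) ^ 2 := Finset.sum_nonneg (fun h _ => sq_nonneg _)
  have h10 : 2 * Real.pi ^ 2 * x ^ 2 * ∑ h ∈ range M, ((h : ℝ) - c) ^ 2 ≤
      2 * 10 * (1 / (4 * (M : ℝ) ^ 2)) * ((M : ℝ) ^ 3 / 12) := by
    gcongr
  have h11 : 2 * 10 * (1 / (4 * (M : ℝ) ^ 2)) * ((M : ℝ) ^ 3 / 12) = 5 / 12 * M := by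
    field_simp
    ring
  have h12 : (M : ℝ) / 2 ≤ ‖DD M x‖ := by
    linarith
  unfold KF
  rw [le_div_iff₀ hMp]
  nlinarith

/-- auxiliary bounds -/
private noncomputable def rr (k : ℕ) : ℝ := if k = 0 then 1 else 1 / (4 * (k : ℝ) ^ 2)

private theorem rr_nonneg (k : ℕ) : 0 ≤ rr k := by
  unfold rr
  split_ifs <;> positivity

private theorem rr_sum (n : ℕ) : ∑ k ∈ range (n + 2), rr k ≤ 3 / 2 - 1 / (4 * ((n : ℝ) + 1)) := by
  induction n with
  | zero =>
    rw [Finset.sum_range_succ, Finset.sum_range_succ, Finset.sum_range_zero]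
    norm_num [rr]
  | succ n ih =>
    rw [Finset.sum_range_succ]
    have h1 : rr (n + 1 + 1) = 1 / (4 * ((n : ℝ) + 2) ^ 2) := by
      unfold rr
      rw [if_neg (by omega)]
      push_cast
      ring
    have h2 : 1 / (4 * ((n : ℝ) + 2) ^ 2) ≤ 1 / (4 * ((n : ℝ) + 1)) - 1 / (4 * ((n : ℝ) + 2)) := by
      have e : 1 / (4 * ((n : ℝ) + 1)) - 1 / (4 * ((n : ℝ) + 2)) =
          1 / (4 * ((n : ℝ) + 1) * ((n : ℝ) + 2)) := by
        field_simp
        ring
      rw [e]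
      apply one_div_le_one_div_of_le (by positivity)
      nlinarith
    have h3 : ((n + 1 : ℕ) : ℝ) + 1 = (n : ℝ) + 2 := by
      push_cast
      ring
    rw [h3]
    rw [h1]
    linarith

private theorem rr_sum' (M : ℕ) : ∑ k ∈ range M, rr k ≤ 3 / 2 := by
  have h1 : ∑ k ∈ range M, rr k ≤ ∑ k ∈ range (M + 2), rr k :=
    Finset.sum_le_sum_of_subset_of_nonneg (Finset.range_subset_range.2 (by omega))
      (fun k _ _ => rr_nonneg k)
  have h2 := rr_sum M
  have h3 : (0 : ℝ) ≤ 1 / (4 * ((M : ℝ) + 1)) := by positivity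
  linarith

private theorem KF_le (M : ℕ) (hM : 1 ≤ M) (x : ℝ) : KF M x ≤ M := by
  have hMp : (0 : ℝ) < M := by exact_mod_cast hM
  unfold KF
  rw [div_le_iff₀ hMp]
  have := DD_le M x
  have h0 := norm_nonneg (DD M x)
  nlinarith

private theorem KF_sin (M : ℕ) (hM : 1 ≤ M) (x : ℝ) {k : ℕ} (hk : 1 ≤ k)
    (h : 2 * ((k : ℝ) / M) ≤ |Real.sin (Real.pi * x)|) : KF M x ≤ M * rr k := by
  have hMp : (0 : ℝ) < M := by exact_mod_cast hM
  have hkp : (0 : ℝ) < k := by exact_mod_cast hk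
  have h1 := DD_sin M x
  have h0 := norm_nonneg (DD M x)
  have h2 : ‖DD M x‖ * (2 * ((k : ℝ) / M)) ≤ 1 :=
    (mul_le_mul_of_nonneg_left h h0).trans h1
  have h3 : ‖DD M x‖ ≤ M / (2 * k) := by
    rw [le_div_iff₀ (by positivity)]
    have h4 : ‖DD M x‖ * (2 * ((k : ℝ) / M)) * M ≤ 1 * M := by gcongr
    calc ‖DD M x‖ * (2 * k) = ‖DD M x‖ * (2 * ((k : ℝ) / M)) * M := by
          field_simp
      _ ≤ 1 * M := h4
      _ = M := one_mul _
  unfold KF rr
  rw [if_neg (by omega), div_le_iff₀ hMp]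
  calc ‖DD M x‖ ^ 2 ≤ (M / (2 * k)) ^ 2 := pow_le_pow_left₀ h0 h3 2
    _ = M * (1 / (4 * (k : ℝ) ^ 2)) * M := by
      field_simp
      ring

theorem KF_up (M : ℕ) (hM : 1 ≤ M) : ∃ q : ℕ → ℝ, (∀ m, 0 ≤ q m) ∧
    (∀ m < M, ∀ x : ℝ, (m : ℝ) / M ≤ x → x ≤ (m + 1) / M → KF M x ≤ q m) ∧
    ∑ m ∈ range M, q m ≤ 16 * M := by
  have hMp : (0 : ℝ) < M := by exact_mod_cast hM
  refine ⟨fun m => M * (rr m + rr (M - 1 - m)), ?_, ?_, ?_⟩
  · intro m
    have h1 := rr_nonneg m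
    have h2 := rr_nonneg (M - 1 - m)
    positivity
  · intro m hm x hx1 hx2
    have h1 := rr_nonneg m
    have h2 := rr_nonneg (M - 1 - m)
    by_cases h0 : m = 0
    · have h3 : rr m = 1 := by
        rw [h0]
        simp [rr]
      have h4 := KF_le M hM x
      show KF M x ≤ M * (rr m + rr (M - 1 - m))
      rw [h3]
      nlinarith
    by_cases h0' : M ≤ m + 1
    · have h3 : rr (M - 1 - m) = 1 := by
        have : M - 1 - m = 0 := by omega
        rw [this]
        simp [rr]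
      have h4 := KF_le M hM x
      show KF M x ≤ M * (rr m + rr (M - 1 - m))
      rw [h3]
      nlinarith
    have hm1 : 1 ≤ m := by omega
    have hmp : (0 : ℝ) < m := by exact_mod_cast hm1
    have hx0 : 0 < x := lt_of_lt_of_le (by positivity) hx1
    have hm2 : (m : ℝ) + 2 ≤ M := by exact_mod_cast (by omega : m + 2 ≤ M)
    have hx3 : x < 1 := by
      refine lt_of_le_of_lt hx2 ?_
      rw [div_lt_one hMp]
      linarith
    show KF M x ≤ M * (rr m + rr (M - 1 - m))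
    rcases le_total x (1 / 2) with hh | hh
    · have h5 : 2 * ((m : ℝ) / M) ≤ |Real.sin (Real.pi * x)| := by
        have h6 := Real.mul_le_sin (x := Real.pi * x) (by positivity)
          (by nlinarith [Real.pi_pos])
        have h7 : 2 / Real.pi * (Real.pi * x) = 2 * x := by
          have := Real.pi_pos.ne'
          field_simp
        rw [h7] at h6
        have h8 := le_abs_self (Real.sin (Real.pi * x))
        linarith
      have h9 := KF_sin M hM x hm1 h5
      nlinarith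
    · have hk : 1 ≤ M - 1 - m := by omega
      have hkc : ((M - 1 - m : ℕ) : ℝ) = (M : ℝ) - 1 - m := by
        rw [Nat.cast_sub (by omega), Nat.cast_sub hM]
        simp
      have h5 : 2 * (((M - 1 - m : ℕ) : ℝ) / M) ≤ |Real.sin (Real.pi * x)| := by
        have h6 := Real.mul_le_sin (x := Real.pi * (1 - x))
          (mul_nonneg Real.pi_pos.le (by linarith)) (by nlinarith [Real.pi_pos])
        have h7 : 2 / Real.pi * (Real.pi * (1 - x)) = 2 * (1 - x) := by
          have := Real.pi_pos.ne'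
          field_simp
        have h7' : Real.sin (Real.pi * (1 - x)) = Real.sin (Real.pi * x) := by
          have e : Real.pi * (1 - x) = Real.pi - Real.pi * x := by ring
          rw [e, Real.sin_pi_sub]
        rw [h7, h7'] at h6
        have h8 := le_abs_self (Real.sin (Real.pi * x))
        have h10 : ((M - 1 - m : ℕ) : ℝ) / M ≤ 1 - x := by
          rw [hkc, div_le_iff₀ hMp]
          rw [le_div_iff₀ hMp] at hx2
          linarith
        linarith
      have h9 := KF_sin M hM x hk h5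
      nlinarith
  · rw [← Finset.mul_sum, Finset.sum_add_distrib]
    have h1 := rr_sum' M
    have h2 : ∑ m ∈ range M, rr (M - 1 - m) = ∑ m ∈ range M, rr m :=
      Finset.sum_range_reflect rr M
    rw [h2]
    nlinarith

end Pool.Agent.Dcs
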